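import Pool.Agent.GLS.Defs

/-!
# GLS Pts: roots of the minimal polynomial are values at points

PROOF.  `B` integrally closed, `A` an integral extension: `B[h] = B[T] / (minpoly)` (`minpoly.equivAdjoin`), so `e : B → ℂ` and `h ↦ t` define a homomorphism of
`B[h]` to `ℂ` with a maximal kernel; there is a maximal ideal of `A` over it, whose residue field is algebraic over `ℂ`, so it is `ℂ`.
`exists_noether`: `exists_integral_inj_algHom_of_fg`.
-/

set_option autoImplicit false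

open MvPolynomial Topology Filter Metric
open Pool.Agent.H13.SM (conTan cone)
open Pool.Agent.H17 (PN VanishesAt HolomorphicInto puncturedDisc)
open Pool.Agent.H17EF (projVar)
open Pool.Agent.H17GT (coordFun)
open Pool.Agent.H17LG.Variety (FunField ratio IsLogGeneralType)
open Pool.Agent.H62.FC (Homog)
open Pool.Agent.GG Pool.Agent.GA Pool.Agent.GL Pool.Agent.GQ
open Pool.Agent.GBL (BdB)

namespace Pool.Agent.GLS

theorem exists_hom_root {B A : Type} [CommRing B] [IsDomain B] [IsIntegrallyClosed B] [CommRing A] [IsDomain A] [Algebra B A] [FaithfulSMul B A]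
    [Algebra.IsIntegral B A] (e : B →+* ℂ) (he : Function.Surjective e) (h : A) (t : ℂ) (ht : Polynomial.eval₂ e t (minpoly B h) = 0) :
    ∃ ψ : A →+* ℂ, (∀ b, ψ (algebraMap B A b) = e b) ∧ ψ h = t := by
  have hint : IsIntegral B h := Algebra.IsIntegral.isIntegral h
  let A' := Algebra.adjoin B ({h} : Set A)
  let E : AdjoinRoot (minpoly B h) ≃ₐ[B] A' := minpoly.equivAdjoin hint
  let ψ₀ : AdjoinRoot (minpoly B h) →+* ℂ := AdjoinRoot.lift e t ht
  let ψ' : A' →+* ℂ := ψ₀.comp (E.symm : A' →+* AdjoinRoot (minpoly B h))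
  have hψB : ∀ b : B, ψ' (algebraMap B A' b) = e b := by
    intro b
    have h1 : E.symm (algebraMap B A' b) = algebraMap B _ b := E.symm.commutes b
    show ψ₀ (E.symm (algebraMap B A' b)) = e b
    rw [h1]
    exact AdjoinRoot.lift_of ht
  have hEh : E (AdjoinRoot.root (minpoly B h)) = ⟨h, Algebra.self_mem_adjoin_singleton B h⟩ := by
    show minpoly.equivAdjoin hint (AdjoinRoot.root (minpoly B h)) = _
    apply Subtype.ext
    rw [minpoly.coe_equivAdjoin]
    simp [AdjoinRoot.Minpoly.toAdjoin]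
  have hψh : ψ' ⟨h, Algebra.self_mem_adjoin_singleton B h⟩ = t := by
    show ψ₀ (E.symm ⟨h, Algebra.self_mem_adjoin_singleton B h⟩) = t
    rw [← hEh, AlgEquiv.symm_apply_apply]
    exact AdjoinRoot.lift_root ht
  have hsurj : Function.Surjective ψ' := fun c => by
    obtain ⟨b, hb⟩ := he c
    exact ⟨algebraMap B A' b, (hψB b).trans hb⟩
  have hmax : (RingHom.ker ψ').IsMaximal := RingHom.ker_isMaximal_of_surjective ψ' hsurj
  have : Algebra.IsIntegral A' A := Algebra.IsIntegral.tower_top B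
  obtain ⟨Q, hQ, hQc⟩ := Ideal.exists_ideal_over_maximal_of_isIntegral (S := A) (RingHom.ker ψ') (by
    rw [(RingHom.injective_iff_ker_eq_bot (algebraMap A' A)).1 Subtype.val_injective]
    exact bot_le)
  let _ : Field (A ⧸ Q) := Ideal.Quotient.field Q
  let j₀ : A' →+* A ⧸ Q := (Ideal.Quotient.mk Q).comp (algebraMap A' A)
  have hker : RingHom.ker ψ' ≤ RingHom.ker j₀ := by
    intro x hx
    rw [← hQc] at hx
    exact Ideal.Quotient.eq_zero_iff_mem.2 hx
  let j : ℂ →+* A ⧸ Q := RingHom.liftOfSurjective ψ' hsurj ⟨j₀, hker⟩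
  have hj : ∀ x, j (ψ' x) = j₀ x := fun x => RingHom.liftOfRightInverse_comp_apply ψ' _ (Function.rightInverse_surjInv hsurj) ⟨j₀, hker⟩ x
  have hjint : j.IsIntegral := by
    intro y
    obtain ⟨a, rfl⟩ := Ideal.Quotient.mk_surjective y
    obtain ⟨p, hp, hpa⟩ := (Algebra.IsIntegral.isIntegral a : IsIntegral A' a)
    refine ⟨p.map ψ', hp.map ψ', ?_⟩
    have e1 : j.comp ψ' = (Ideal.Quotient.mk Q).comp (algebraMap A' A) := RingHom.ext hj
    rw [Polynomial.eval₂_map, e1, ← Polynomial.hom_eval₂, hpa, map_zero]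
  let _ : Algebra ℂ (A ⧸ Q) := j.toAlgebra
  have : Algebra.IsIntegral ℂ (A ⧸ Q) := ⟨hjint⟩
  have hbij : Function.Bijective j := IsAlgClosed.algebraMap_bijective_of_isIntegral (k := ℂ) (K := A ⧸ Q)
  have hinv : ∀ c, (RingEquiv.ofBijective j hbij).symm (j c) = c := fun c => (RingEquiv.ofBijective j hbij).symm_apply_apply c
  refine ⟨((RingEquiv.ofBijective j hbij).symm : A ⧸ Q →+* ℂ).comp (Ideal.Quotient.mk Q), fun b => ?_, ?_⟩
  · show (RingEquiv.ofBijective j hbij).symm (j₀ (algebraMap B A' b)) = e b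
    rw [← hj, hinv, hψB]
  · show (RingEquiv.ofBijective j hbij).symm (j₀ ⟨h, Algebra.self_mem_adjoin_singleton B h⟩) = t
    rw [← hj, hinv, hψh]

theorem exists_noether {τ : Type} [Finite τ] {A : Type} [CommRing A] [IsDomain A] [Algebra ℂ A] (π : MvPolynomial τ ℂ →ₐ[ℂ] A) (hπ : Function.Surjective π) :
    ∃ (s : ℕ) (φ : MvPolynomial (Fin s) ℂ →ₐ[ℂ] A), Function.Injective φ ∧ φ.toRingHom.IsIntegral := by
  have : Algebra.FiniteType ℂ A := Algebra.FiniteType.of_surjective π hπ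
  exact exists_integral_inj_algHom_of_fg ℂ A

theorem pts_of_minpoly {τ : Type} [Finite τ] {A : Type} [CommRing A] [IsDomain A] [Algebra ℂ A] (π : MvPolynomial τ ℂ →ₐ[ℂ] A) (hπ : Function.Surjective π)
    {s : ℕ} [Algebra (MvPolynomial (Fin s) ℂ) A] [IsScalarTower ℂ (MvPolynomial (Fin s) ℂ) A] (hinj : Function.Injective (algebraMap (MvPolynomial (Fin s) ℂ) A))
    [Algebra.IsIntegral (MvPolynomial (Fin s) ℂ) A] (g : A) {t₀ : Fin s → ℂ} {z₀ : ℂ} (h : ((minpoly (MvPolynomial (Fin s) ℂ) g).map (eval t₀)).eval z₀ = 0) :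
    ∃ χ : A →ₐ[ℂ] ℂ, (∀ p : MvPolynomial (Fin s) ℂ, χ (algebraMap _ A p) = eval t₀ p) ∧ χ g = z₀ := by
  have : FaithfulSMul (MvPolynomial (Fin s) ℂ) A := (faithfulSMul_iff_algebraMap_injective _ _).2 hinj
  obtain ⟨ψ, h1, h2⟩ := exists_hom_root (eval t₀) (fun c => ⟨C c, eval_C c⟩) g z₀ (by rw [Polynomial.eval₂_eq_eval_map]; exact h)
  refine ⟨{ ψ with commutes' := fun c => ?_ }, h1, h2⟩
  show ψ (algebraMap ℂ A c) = c
  rw [IsScalarTower.algebraMap_apply ℂ (MvPolynomial (Fin s) ℂ) A, h1, MvPolynomial.algebraMap_eq, eval_C]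

end Pool.Agent.GLS
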