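import Pool.Agent.GLS.Defs
import Pool.Agent.GLS.Pts

/-!
# GLS Avd: a point which avoids countably many hypersurfaces

PROOF (helper59).  The Nullstellensatz in countably many variables: a field which is a countably generated `ℂ`-algebra has countable dimension; a transcendental element `x` would give
the uncountable independent family `1 / (x - a)`.  Applied to the kernel of `ℂ[τ, (Y_n)] → Frac (ℂ[τ] / 𝔯)`, `Y_n ↦ 1 / f_n`.
-/

set_option autoImplicit false

open MvPolynomial Topology Filter Metric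
open Pool.Agent.H13.SM (conTan cone)
open Pool.Agent.H17 (PN VanishesAt HolomorphicInto puncturedDisc)
open Pool.Agent.H17EF (projVar)
open Pool.Agent.H17GT (coordFun)
open Pool.Agent.H17LG.Variety (FunField ratio IsLogGeneralType)
open Pool.Agent.H62.FC (Homog)
open Pool.Agent.GG Pool.Agent.GA Pool.Agent.GL Pool.Agent.GQ
open Pool.Agent.GBL (BdB)

namespace Pool.Agent.GLS

/-- Nullstellensatz in countably many variables over `ℂ`. -/
theorem exists_zero_of_ne_top {τ : Type} [Countable τ] (J : Ideal (MvPolynomial τ ℂ))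
    (hJ : J ≠ ⊤) : ∃ w : τ → ℂ, ∀ f ∈ J, eval w f = 0 := by
  classical
  obtain ⟨M, hM, hJM⟩ := Ideal.exists_le_maximal _ hJ
  let _ : Field (MvPolynomial τ ℂ ⧸ M) := Ideal.Quotient.field M
  have hrank : Module.rank ℂ (MvPolynomial τ ℂ ⧸ M) ≤ Cardinal.aleph0 := by
    refine (LinearMap.rank_le_of_surjective (Ideal.Quotient.mkₐ ℂ M).toLinearMap
      (Ideal.Quotient.mkₐ_surjective ℂ M)).trans ?_
    rw [MvPolynomial.rank_eq]
    exact Cardinal.mk_le_aleph0
  have halg : ∀ x : MvPolynomial τ ℂ ⧸ M, ∃ z : ℂ, algebraMap ℂ (MvPolynomial τ ℂ ⧸ M) z = x := by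
    intro x
    have hx : IsAlgebraic ℂ x := by
      by_contra hx
      have h1 := (show Transcendental ℂ x from hx).linearIndependent_sub_inv.cardinal_le_rank
      have h2 := h1.trans hrank
      rw [Cardinal.mk_complex] at h2
      exact absurd h2 (not_le.2 Cardinal.aleph0_lt_continuum)
    have hint : IsIntegral ℂ x := hx.isIntegral
    have h3 := IsAlgClosed.degree_eq_one_of_irreducible ℂ (minpoly.irreducible hint)
    have h4 := minpoly.mem_range_of_degree_eq_one ℂ x h3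
    exact h4
  choose w hw using fun s : τ => halg (Ideal.Quotient.mkₐ ℂ M (X s))
  have hφ : ∀ f : MvPolynomial τ ℂ, Ideal.Quotient.mkₐ ℂ M f =
      algebraMap ℂ (MvPolynomial τ ℂ ⧸ M) (eval w f) := by
    intro f
    have h : Ideal.Quotient.mkₐ ℂ M = (Algebra.ofId ℂ (MvPolynomial τ ℂ ⧸ M)).comp (aeval w) := by
      apply MvPolynomial.algHom_ext
      intro s
      rw [← hw, AlgHom.comp_apply, aeval_X]
      rfl
    have := DFunLike.congr_fun h f
    rw [this, AlgHom.comp_apply, MvPolynomial.aeval_eq_eval]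
    rfl
  refine ⟨w, fun f hf => ?_⟩
  apply (algebraMap ℂ (MvPolynomial τ ℂ ⧸ M)).injective
  rw [← hφ, map_zero]
  exact Ideal.Quotient.eq_zero_iff_mem.2 (hJM hf)

/-- countable avoidance -/
theorem exists_avoid_countable {σ : Type} [Countable σ] (r : Ideal (MvPolynomial σ ℂ)) [hr : r.IsPrime]
    (g : ℕ → MvPolynomial σ ℂ) (hg : ∀ n, g n ∉ r) :
    ∃ w : σ → ℂ, (∀ f ∈ r, eval w f = 0) ∧ ∀ n, eval w (g n) ≠ 0 := by
  classical
  let q : MvPolynomial σ ℂ →ₐ[ℂ] FractionRing (MvPolynomial σ ℂ ⧸ r) :=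
    (IsScalarTower.toAlgHom ℂ (MvPolynomial σ ℂ ⧸ r) _).comp (Ideal.Quotient.mkₐ ℂ r)
  have hq : ∀ f, q f = 0 ↔ f ∈ r := by
    intro f
    show algebraMap (MvPolynomial σ ℂ ⧸ r) (FractionRing (MvPolynomial σ ℂ ⧸ r))
      (Ideal.Quotient.mk r f) = 0 ↔ _
    rw [FaithfulSMul.algebraMap_eq_zero_iff, Ideal.Quotient.eq_zero_iff_mem]
  let ψ : MvPolynomial (σ ⊕ ℕ) ℂ →ₐ[ℂ] FractionRing (MvPolynomial σ ℂ ⧸ r) :=
    aeval (Sum.elim (fun s => q (X s)) (fun n => (q (g n))⁻¹))
  have hψ1 : ∀ f : MvPolynomial σ ℂ, ψ (rename Sum.inl f) = q f := by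
    intro f
    have h : ψ.comp (rename Sum.inl) = q := by
      apply MvPolynomial.algHom_ext
      intro s
      rw [AlgHom.comp_apply, rename_X, aeval_X]
      rfl
    exact DFunLike.congr_fun h f
  obtain ⟨v, hv⟩ := exists_zero_of_ne_top (RingHom.ker ψ) (RingHom.ker_ne_top _)
  have hev : ∀ f : MvPolynomial σ ℂ, eval v (rename Sum.inl f) = eval (fun s => v (Sum.inl s)) f := by
    intro f
    rw [eval_rename]
    rfl
  refine ⟨fun s => v (Sum.inl s), fun f hf => ?_, fun n h0 => ?_⟩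
  · rw [← hev]
    apply hv
    rw [RingHom.mem_ker, hψ1]
    exact (hq f).2 hf
  · have h1 : X (Sum.inr n) * rename Sum.inl (g n) - 1 ∈ RingHom.ker ψ := by
      rw [RingHom.mem_ker, map_sub, map_mul, hψ1, map_one, aeval_X, Sum.elim_inr,
        inv_mul_cancel₀, sub_self]
      intro h
      exact hg n ((hq _).1 h)
    have h2 := hv _ h1
    rw [map_sub, map_mul, hev, h0, mul_zero, map_one, zero_sub, neg_eq_zero] at h2
    exact one_ne_zero h2

/-- MODULE Avd -/
theorem exists_avoid {τ : Type} [Finite τ] (𝔯 : Ideal (MvPolynomial τ ℂ)) [𝔯.IsPrime] (f : ℕ → MvPolynomial τ ℂ) (hf : ∀ j, f j ∉ 𝔯) :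
    ∃ w : τ → ℂ, Zr 𝔯 w ∧ ∀ j, eval w (f j) ≠ 0 := by
  obtain ⟨w, h1, h2⟩ := exists_avoid_countable 𝔯 f hf
  exact ⟨w, h1, h2⟩

end Pool.Agent.GLS
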