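import Pool.Agent.GLS.Defs
import Pool.Agent.GA.DerExt

/-!
# GLS Dec: decomposition into generalized eigenvectors

PROOF.  The constants `k = {D a = 0}` of `M` are algebraically closed; induction on the degree of the polynomial `p` over `k` with `p (D) y = 0` (`Polynomial.sup_ker_aeval_eq_ker_aeval_mul_of_coprime`).
`exists_der_bar`: `GA.exists_ext` (GA/DerExt).
-/

set_option autoImplicit false

open Polynomial

namespace Pool.Agent.GLS

section

variable {M : Type} [Field M] [Algebra ℂ M] (D : Derivation ℂ M M)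

/-- the field of the constants -/
private def Dec_C : Subfield M where
  carrier := {x | D x = 0}
  mul_mem' := fun {a b} ha hb => by
    change D (a * b) = 0
    have ha' : D a = 0 := ha
    have hb' : D b = 0 := hb
    rw [D.leibniz, ha', hb', smul_zero, smul_zero, add_zero]
  one_mem' := D.map_one_eq_zero
  add_mem' := fun {a b} ha hb => by
    change D (a + b) = 0
    have ha' : D a = 0 := ha
    have hb' : D b = 0 := hb
    rw [map_add, ha', hb', add_zero]
  zero_mem' := map_zero D
  neg_mem' := fun {a} ha => by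
    change D (-a) = 0
    have ha' : D a = 0 := ha
    rw [map_neg, ha', neg_zero]
  inv_mem' := fun a ha => by
    change D a⁻¹ = 0
    have ha' : D a = 0 := ha
    rw [Derivation.leibniz_inv, ha', smul_zero]

private theorem Dec_mem (c : Dec_C D) : D (c : M) = 0 := c.2

/-- `D` as a linear map over the constants -/
private def Dec_L : Module.End (Dec_C D) M where
  toFun := D
  map_add' := map_add D
  map_smul' := fun c x => by
    rw [RingHom.id_apply, Subfield.smul_def, smul_eq_mul, D.leibniz, Dec_mem D c, smul_zero, add_zero, smul_eq_mul]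
    rfl

private theorem Dec_L_apply (x : M) : Dec_L D x = D x := rfl

/-- elements algebraic over the constants are constants -/
private theorem Dec_alg {μ : M} (hμ : IsIntegral (Dec_C D) μ) : D μ = 0 := by
  have hz : ∀ p : (Dec_C D)[X], D (aeval μ p) = aeval μ (derivative p) * D μ := by
    intro p
    induction p using Polynomial.induction_on' with
    | add p q hp hq => rw [map_add, map_add, hp, hq, derivative_add, map_add, add_mul]
    | monomial n a =>
      rw [aeval_monomial, derivative_monomial, aeval_monomial, D.leibniz, D.leibniz_pow]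
      change _ + μ ^ n • D (a : M) = _
      rw [Dec_mem D a, smul_zero, add_zero, map_mul, map_natCast, smul_eq_mul, smul_eq_mul, nsmul_eq_mul]
      ring
  have h1 := hz (minpoly (Dec_C D) μ)
  rw [minpoly.aeval, map_zero] at h1
  have h2 : aeval μ (derivative (minpoly (Dec_C D) μ)) ≠ 0 := by
    have _ : CharZero M := charZero_of_injective_algebraMap (algebraMap ℂ M).injective
    have _ : CharZero (Dec_C D) := (algebraMap (Dec_C D) M).charZero
    exact (minpoly.irreducible hμ).separable.aeval_derivative_ne_zero (minpoly.aeval _ _)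
  exact (mul_eq_zero.1 h1.symm).resolve_left h2

private theorem Dec_gev {lam : Dec_C D} {k : ℕ} {e : M} (h : aeval (Dec_L D) ((X - C lam) ^ k) e = 0) : Gev D (lam : M) e := by
  refine ⟨k, ?_⟩
  rw [map_pow, map_sub, aeval_X, aeval_C, Module.End.pow_apply] at h
  exact h

/-- the decomposition -/
private theorem Dec_ind [IsAlgClosed M] (n : ℕ) : ∀ p : (Dec_C D)[X], p.natDegree ≤ n → p ≠ 0 → ∀ y : M, aeval (Dec_L D) p y = 0 →
    ∃ (q : ℕ) (lam e : Fin q → M), (∀ i, D (lam i) = 0) ∧ (∀ i, Gev D (lam i) (e i)) ∧ y = ∑ i, e i := by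
  induction n with
  | zero =>
    intro p hp hp0 y hy
    refine ⟨0, Fin.elim0, Fin.elim0, fun i => i.elim0, fun i => i.elim0, ?_⟩
    rw [Finset.univ_eq_empty, Finset.sum_empty]
    rw [eq_C_of_natDegree_le_zero hp, aeval_C, Module.algebraMap_end_apply] at hy
    rcases smul_eq_zero.1 hy with h1 | h1
    · exfalso
      apply hp0
      rw [eq_C_of_natDegree_le_zero hp, h1, C_0]
    · exact h1
  | succ n ih =>
    intro p hp hp0 y hy
    by_cases hd : p.natDegree ≤ n
    · exact ih p hd hp0 y hy
    -- a root
    have hdeg : p.degree ≠ 0 := by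
      intro h1
      have h2 : p.natDegree = 0 := natDegree_eq_of_degree_eq_some h1
      omega
    obtain ⟨μ, hμ⟩ := IsAlgClosed.exists_aeval_eq_zero M p hdeg
    have hμD : D μ = 0 := by
      refine Dec_alg D ?_
      exact isAlgebraic_iff_isIntegral.1 ⟨p, hp0, hμ⟩
    set lam : Dec_C D := ⟨μ, hμD⟩ with hlam
    have hroot : p.IsRoot lam := by
      have h1 : algebraMap (Dec_C D) M (eval lam p) = 0 := by
        rw [← aeval_algebraMap_apply_eq_algebraMap_eval]
        exact hμ
      exact (map_eq_zero _).1 h1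
    obtain ⟨q, hq, hqr⟩ := exists_eq_pow_rootMultiplicity_mul_and_not_dvd p hp0 lam
    set k := rootMultiplicity lam p with hk
    have hk0 : 0 < k := (rootMultiplicity_pos hp0).2 hroot
    have hcop : IsCoprime ((X - C lam) ^ k) q := ((irreducible_X_sub_C lam).coprime_iff_not_dvd.2 hqr).pow_left
    have hq0 : q ≠ 0 := by
      rintro rfl
      exact hqr (dvd_zero _)
    have hqd : q.natDegree ≤ n := by
      have h1 : p.natDegree = k + q.natDegree := by
        conv_lhs => rw [hq]
        rw [natDegree_mul (pow_ne_zero _ (X_sub_C_ne_zero lam)) hq0, natDegree_pow, natDegree_X_sub_C, mul_one]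
      omega
    have hker : y ∈ LinearMap.ker (aeval (Dec_L D) ((X - C lam) ^ k * q)) := by
      rw [LinearMap.mem_ker, ← hq]
      exact hy
    rw [← Polynomial.sup_ker_aeval_eq_ker_aeval_mul_of_coprime _ hcop, Submodule.mem_sup] at hker
    obtain ⟨y₁, hy₁, y₂, hy₂, hyy⟩ := hker
    obtain ⟨r, l, e, hl, he, hs⟩ := ih q hqd hq0 y₂ (LinearMap.mem_ker.1 hy₂)
    refine ⟨r + 1, Fin.cons (lam : M) l, Fin.cons y₁ e, ?_, ?_, ?_⟩
    · intro i
      refine Fin.cases ?_ (fun i => ?_) i
      · rw [Fin.cons_zero]
        exact hμD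
      · rw [Fin.cons_succ]
        exact hl i
    · intro i
      refine Fin.cases ?_ (fun i => ?_) i
      · rw [Fin.cons_zero, Fin.cons_zero]
        exact Dec_gev D (LinearMap.mem_ker.1 hy₁)
      · rw [Fin.cons_succ, Fin.cons_succ]
        exact he i
    · rw [Fin.sum_univ_succ, Fin.cons_zero]
      simp only [Fin.cons_succ]
      rw [← hs, hyy]

end

theorem exists_der_bar {L : Type} [Field L] [Algebra ℂ L] (D : Derivation ℂ L L) : ∃ D' : Derivation ℂ (AlgebraicClosure L) (AlgebraicClosure L),
    ∀ x, D' (algebraMap L (AlgebraicClosure L) x) = algebraMap L (AlgebraicClosure L) (D x) := by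
  obtain ⟨D', hD'⟩ := Pool.Agent.GA.exists_ext (A := L) (E := AlgebraicClosure L) (algebraMap L (AlgebraicClosure L)).injective
    ((Algebra.linearMap L (AlgebraicClosure L)).compDer D)
  exact ⟨D', fun x => hD' x⟩

theorem exists_dec {M : Type} [Field M] [Algebra ℂ M] [IsAlgClosed M] (D : Derivation ℂ M M) {y : M} (hy : ConstRel D y) :
    ∃ (p : ℕ) (e lam : Fin p → M), (∀ i, D (lam i) = 0) ∧ (∀ i, Gev D (lam i) (e i)) ∧ y = ∑ i, e i := by
  obtain ⟨n, a, ha, hD, h⟩ := hy
  set b : Fin (n + 1) → Dec_C D := fun j => ⟨a j, hD j⟩ with hb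
  set p : (Dec_C D)[X] := ∑ j : Fin (n + 1), C (b j) * X ^ (j : ℕ) with hp
  have hcoef : ∀ j : Fin (n + 1), p.coeff (j : ℕ) = b j := by
    intro j
    rw [hp, finsetSum_coeff]
    simp only [coeff_C_mul, coeff_X_pow]
    rw [Finset.sum_eq_single j]
    · simp
    · intro i _ hij
      rw [if_neg (fun h => hij (Fin.ext h.symm)), mul_zero]
    · intro h
      exact absurd (Finset.mem_univ j) h
  have hp0 : p ≠ 0 := by
    intro h0
    apply ha
    funext j
    have h1 := hcoef j
    rw [h0, coeff_zero] at h1
    exact (congrArg Subtype.val h1).symm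
  suffices hs : aeval (Dec_L D) p y = 0 by
    obtain ⟨q, lam, e, h1, h2, h3⟩ := Dec_ind D p.natDegree p le_rfl hp0 y hs
    exact ⟨q, e, lam, h1, h2, h3⟩
  rw [hp, map_sum, LinearMap.sum_apply, ← h]
  refine Finset.sum_congr rfl fun j _ => ?_
  rw [map_mul, aeval_C, map_pow, aeval_X, Module.End.mul_apply, Module.algebraMap_end_apply, Module.End.pow_apply]
  rfl


end Pool.Agent.GLS
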