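import Pool.Agent.GLS.Defs
import Pool.Agent.GB.Trf
import Pool.Agent.GL.Row
import Pool.Agent.GL.ChB
import Pool.Agent.GL.Cmp

/-!
# GLS Der: the derivation of the polynomial ring

PROOF.  At a zero `w` of `𝔯` the equations give `w = ePt B x v` (`GL.of_gval`).  If all `vdet K (w) = 0` then `v = 0` (`GL.exists_rowL`), so all `θ_k` vanish (`CX.thv_zero`).  `exists_tht`: `v ≠ 0` at some zero of `𝔯`
(`LSol.ne`; a nonzero element of the domain `ℂ[Ph] / 𝔯` is `≠ 0` at some zero), and there some `θ_k ≠ 0` (`theta_bdL`; `LL ≠ 0`).  `exists_bez`: Nullstellensatz for `𝔯 + (vdet K)_K`.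
-/

set_option autoImplicit false

open MvPolynomial Topology Filter Metric
open Pool.Agent.H13.SM (conTan cone)
open Pool.Agent.H17 (PN VanishesAt HolomorphicInto puncturedDisc)
open Pool.Agent.H17EF (projVar)
open Pool.Agent.H17GT (coordFun)
open Pool.Agent.H17LG.Variety (FunField ratio IsLogGeneralType)
open Pool.Agent.H62.FC (Homog)
open Pool.Agent.GG Pool.Agent.GA Pool.Agent.GL Pool.Agent.GQ
open Pool.Agent.GBL (BdB)

namespace Pool.Agent.GLS

variable {N : ℕ} {P : Ideal (MvPolynomial (Fin (N + 1)) ℂ)} {B : Finset (Fin (N + 1))} {J : ℕ} {m : Fin J → ℕ} {θ : ∀ k, LogSec P B (m k)} {b : Fin (N + 1)}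

/-- Hilbert's Nullstellensatz -/
theorem Der_mem_radical {σ : Type} [Finite σ] {I : Ideal (MvPolynomial σ ℂ)} {g : MvPolynomial σ ℂ} (h : ∀ w, Zr I w → eval w g = 0) : g ∈ I.radical := by
  have h0 : ∀ (x : σ → ℂ) (g : MvPolynomial σ ℂ), aeval x g = eval x g := fun x g => by rw [← coe_aeval_eq_eval]; rfl
  rw [← MvPolynomial.vanishingIdeal_zeroLocus_eq_radical (K := ℂ), MvPolynomial.mem_vanishingIdeal_iff]
  intro x hx
  rw [h0]
  refine h x fun q hq => ?_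
  rw [← h0]
  exact hx q hq

/-- the zeros of the equations -/
theorem LSol.pt {f : LFrame θ b} {𝔯 : Ideal (MvPolynomial (Ph (N + 1)) ℂ)} (h : LSol f 𝔯) {w : Ph (N + 1) → ℂ} (hw : Zr 𝔯 w) :
    ∃ x v, w = ePt B x v ∧ x ∈ Uc P B b ∧ v ∈ Tc P b x ∧ ∀ k, thv θ x v k = eval w (tht f k) := by
  obtain ⟨x, v, h1, h2, h3, h4⟩ := of_gval f (c := fun k => eval w (gfamL f (Sum.inr (Sum.inr k)))) (y := w) (by
    rintro (l | (l | l))
    · have h := hw _ (h.eqs (Sum.inl l))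
      simp only [feq, Sum.elim_inl, map_sub, eval_C, sub_eq_zero] at h
      rw [h]
      rcases l with ((_ | _) | (_ | _)) <;> rfl
    · have h := hw _ (h.eqs (Sum.inr l))
      simp only [feq, Sum.elim_inr, map_sub, eval_C, sub_eq_zero] at h
      rw [h]
      rcases l with (_ | _) <;> rfl
    · rfl)
  exact ⟨x, v, h1, h2, h3, fun k => by rw [h4]; rfl⟩

theorem LSol.exists_tht (hP : Homog P) (hθ : LogPolar θ) (hm : ∀ k, 1 ≤ m k) (hb : b ∈ B) {f : LFrame θ b} {𝔯 : Ideal (MvPolynomial (Ph (N + 1)) ℂ)} (h : LSol f 𝔯) :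
    ∃ k, tht f k ∉ 𝔯 := by
  classical
  by_contra! hcon
  have := h.prime
  obtain ⟨i, hi⟩ := h.ne
  apply hi
  rw [← h.prime.radical]
  refine Der_mem_radical fun w hw => ?_
  obtain ⟨x, v, h1, h2, h3, h4⟩ := h.pt hw
  rw [eval_X]
  by_contra hne
  have hv : v ≠ 0 := fun h0 => hne (by
    rw [h1, h0]
    simp [ePt, embV])
  obtain ⟨c, hc, C, hC, hbd⟩ := theta_bdL (P := P) hP hθ hm hb
  obtain ⟨k, hk⟩ := (hbd x h2 v h3).2 hv
  rw [h4 k, hw _ (hcon k), norm_zero] at hk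
  have hx0 : x ≠ 0 := fun h0 => by
    have := h2.2.1
    rw [h0] at this
    exact zero_ne_one this
  have hL : 0 < LL B x v := by
    unfold LL
    have h5 : 0 < ‖v‖ / ‖x‖ := div_pos (norm_pos_iff.2 hv) (norm_pos_iff.2 hx0)
    have h6 : 0 ≤ ∑ i ∈ B, ‖v i‖ / ‖x i‖ := Finset.sum_nonneg fun i _ => by positivity
    linarith
  have h7 : 0 < c * LL B x v ^ m k := by positivity
  linarith

theorem LSol.exists_bez (hθ : LogPolar θ) (hm : ∀ k, 1 ≤ m k) (hb : b ∈ B) {f : LFrame θ b} {𝔯 : Ideal (MvPolynomial (Ph (N + 1)) ℂ)} (h : LSol f 𝔯) (k : Fin J) :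
    ∃ p β, Bez f 𝔯 k p β := by
  classical
  have h1 : tht f k ∈ (𝔯 ⊔ Ideal.span (Set.range fun K => vdet (gfamL f) K)).radical := by
    refine Der_mem_radical fun w hw => ?_
    obtain ⟨x, v, h1, h2, h3, h4⟩ := h.pt (w := w) fun g hg => hw g (Ideal.mem_sup_left hg)
    have hv : v = 0 := by
      by_contra hv
      obtain ⟨K, hK⟩ := exists_rowL hθ f hb h2 h3 hv
      apply hK
      rw [← h1]
      exact hw _ (Ideal.mem_sup_right (Ideal.subset_span ⟨K, rfl⟩))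
    rw [← h4 k, hv]
    exact CX.thv_zero hm h2 k
  obtain ⟨p, hp⟩ := h1
  obtain ⟨r, hr, s, hs, hrs⟩ := Submodule.mem_sup.1 hp
  obtain ⟨β, hβ⟩ := Ideal.mem_span_range_iff_exists_fun.1 hs
  refine ⟨p, β, ?_⟩
  unfold Bez
  rw [hβ, ← hrs, add_sub_cancel_right]
  exact hr

end Pool.Agent.GLS
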