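import Pool.Agent.GLS.Defs

/-!
# GLS Mul: sums, products and independence of generalized eigenvectors

PROOF.  `D - lam - mu` on a product: Leibniz, `(D - lam - mu)^n (a b) = ∑ C(n,k) (D - lam)^k a (D - mu)^(n-k) b`.  Independence: `D - lam` is `k`-linear over the constants `k`; or directly by induction on the number of the
eigenvalues (apply `(D - lam)^n`, which is injective on the generalized eigenvectors for `mu ≠ lam`).
-/

set_option autoImplicit false

open MvPolynomial Topology Filter Metric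
open Pool.Agent.H13.SM (conTan cone)
open Pool.Agent.H17 (PN VanishesAt HolomorphicInto puncturedDisc)
open Pool.Agent.H17EF (projVar)
open Pool.Agent.H17GT (coordFun)
open Pool.Agent.H17LG.Variety (FunField ratio IsLogGeneralType)
open Pool.Agent.H62.FC (Homog)
open Pool.Agent.GG Pool.Agent.GA Pool.Agent.GL Pool.Agent.GQ
open Pool.Agent.GBL (BdB)

namespace Pool.Agent.GLS

variable {M : Type} [Field M] [Algebra ℂ M] {D : Derivation ℂ M M}

/-- the operator `D - lam` -/
private def tw (D : Derivation ℂ M M) (lam : M) : Module.End ℂ M := (D : M →ₗ[ℂ] M) - LinearMap.mulLeft ℂ lam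

private theorem tw_apply (D : Derivation ℂ M M) (lam x : M) : tw D lam x = D x - lam * x := rfl

private theorem tw_it (D : Derivation ℂ M M) (lam : M) (k : ℕ) (x : M) : (fun x => D x - lam * x)^[k] x = (tw D lam ^ k) x := by
  rw [Module.End.pow_apply]
  rfl

private theorem gev_iff {lam x : M} : Gev D lam x ↔ ∃ k, (tw D lam ^ k) x = 0 :=
  exists_congr fun k => by rw [tw_it]

private theorem tw_comm {lam mu : M} (hl : D lam = 0) (hm : D mu = 0) : Commute (tw D lam) (tw D mu) := by
  refine LinearMap.ext fun x => ?_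
  rw [Module.End.mul_apply, Module.End.mul_apply, tw_apply, tw_apply, tw_apply, tw_apply, map_sub, map_sub, Derivation.leibniz, Derivation.leibniz, hl, hm]
  simp only [smul_eq_mul]
  ring

private theorem tw_mul (lam mu a b : M) : tw D (lam + mu) (a * b) = tw D lam a * b + a * tw D mu b := by
  rw [tw_apply, tw_apply, tw_apply, Derivation.leibniz]
  simp only [smul_eq_mul]
  ring

private theorem tw_pow_mul (lam mu : M) (n : ℕ) : ∀ (k l : ℕ) (a b : M), k + l ≤ n → (tw D lam ^ k) a = 0 → (tw D mu ^ l) b = 0 → (tw D (lam + mu) ^ n) (a * b) = 0 := by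
  induction n with
  | zero =>
    intro k l a b h ha _
    obtain rfl : k = 0 := by omega
    rw [pow_zero, Module.End.one_apply] at ha
    rw [ha, zero_mul, map_zero]
  | succ n ih =>
    intro k l a b h ha hb
    rcases Nat.eq_zero_or_pos k with rfl | hk
    · rw [pow_zero, Module.End.one_apply] at ha
      rw [ha, zero_mul, map_zero]
    rcases Nat.eq_zero_or_pos l with rfl | hl
    · rw [pow_zero, Module.End.one_apply] at hb
      rw [hb, mul_zero, map_zero]
    obtain ⟨k, rfl⟩ : ∃ k', k = k' + 1 := ⟨k - 1, by omega⟩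
    obtain ⟨l, rfl⟩ : ∃ l', l = l' + 1 := ⟨l - 1, by omega⟩
    rw [pow_succ, Module.End.mul_apply, tw_mul, map_add, ih k (l + 1) _ _ (by omega) (by rw [← Module.End.mul_apply, ← pow_succ]; exact ha) hb,
      ih (k + 1) l _ _ (by omega) ha (by rw [← Module.End.mul_apply, ← pow_succ]; exact hb), add_zero]

theorem Gev.mul {lam mu a b : M} (hl : D lam = 0) (hm : D mu = 0) (ha : Gev D lam a) (hb : Gev D mu b) : Gev D (lam + mu) (a * b) := by
  rw [gev_iff] at ha hb ⊢
  obtain ⟨k, hk⟩ := ha
  obtain ⟨l, hl⟩ := hb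
  exact ⟨k + l, tw_pow_mul lam mu (k + l) k l a b le_rfl hk hl⟩

theorem Gev.add {lam a b : M} (hl : D lam = 0) (ha : Gev D lam a) (hb : Gev D lam b) : Gev D lam (a + b) := by
  rw [gev_iff] at ha hb ⊢
  obtain ⟨k, hk⟩ := ha
  obtain ⟨l, hl⟩ := hb
  refine ⟨k + l, ?_⟩
  have h1 : (tw D lam ^ (k + l)) a = 0 := by rw [add_comm, pow_add, Module.End.mul_apply, hk, map_zero]
  have h2 : (tw D lam ^ (k + l)) b = 0 := by rw [pow_add, Module.End.mul_apply, hl, map_zero]
  rw [map_add, h1, h2, add_zero]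

theorem Gev.const {a : M} (ha : D a = 0) : Gev D 0 a := by
  refine ⟨1, ?_⟩
  simp [ha]

private theorem tw_eig {lam mu x : M} (hl : D lam = 0) (hm : D mu = 0) (hne : lam ≠ mu) (hx : tw D lam x = 0) {k : ℕ} (hk : (tw D mu ^ k) x = 0) : x = 0 := by
  have h1 : ∀ k : ℕ, (tw D mu ^ k) x = (lam - mu) ^ k * x := by
    intro k
    induction k with
    | zero => simp
    | succ k ih =>
      have h2 : D ((lam - mu) ^ k) = 0 := by rw [Derivation.leibniz_pow, map_sub, hl, hm, sub_zero, smul_zero, smul_zero]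
      have h3 : D x = lam * x := by
        rw [tw_apply] at hx
        exact sub_eq_zero.1 hx
      rw [pow_succ', Module.End.mul_apply, ih, tw_apply, Derivation.leibniz, h2, h3]
      simp only [smul_eq_mul]
      ring
  rw [h1] at hk
  exact (mul_eq_zero.1 hk).resolve_left (pow_ne_zero _ (sub_ne_zero.2 hne))

private theorem tw_inj {lam mu : M} (hl : D lam = 0) (hm : D mu = 0) (hne : lam ≠ mu) (n : ℕ) : ∀ x : M, (tw D lam ^ n) x = 0 → (∃ k, (tw D mu ^ k) x = 0) → x = 0 := by
  induction n with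
  | zero =>
    intro x hx _
    rwa [pow_zero, Module.End.one_apply] at hx
  | succ n ih =>
    intro x hx hk
    obtain ⟨k, hk⟩ := hk
    refine tw_eig hl hm hne (ih (tw D lam x) (by rw [← Module.End.mul_apply, ← pow_succ]; exact hx) ⟨k, ?_⟩) hk
    have h1 : (tw D mu ^ k * tw D lam) x = (tw D lam * tw D mu ^ k) x := by rw [((tw_comm hm hl).pow_left k).eq]
    rw [Module.End.mul_apply, Module.End.mul_apply, hk, map_zero] at h1
    exact h1

theorem Gev.indep {s : Finset M} {x : M → M} (hs : ∀ μ ∈ s, D μ = 0) (hx : ∀ μ ∈ s, Gev D μ (x μ)) (h : ∑ μ ∈ s, x μ = 0) : ∀ μ ∈ s, x μ = 0 := by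
  classical
  induction s using Finset.induction_on generalizing x with
  | empty =>
    intro μ hμ
    exact absurd hμ (Finset.notMem_empty μ)
  | insert lam s hlam ih =>
    have hl : D lam = 0 := hs lam (Finset.mem_insert_self lam s)
    have hs' : ∀ μ ∈ s, D μ = 0 := fun μ hμ => hs μ (Finset.mem_insert_of_mem hμ)
    have hx' : ∀ μ ∈ s, ∃ k, (tw D μ ^ k) (x μ) = 0 := fun μ hμ => gev_iff.1 (hx μ (Finset.mem_insert_of_mem hμ))
    obtain ⟨n, hn⟩ := gev_iff.1 (hx lam (Finset.mem_insert_self lam s))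
    have h1 : ∀ μ ∈ s, (tw D lam ^ n) (x μ) = 0 := by
      refine ih (x := fun μ => (tw D lam ^ n) (x μ)) hs' (fun μ hμ => gev_iff.2 ?_) ?_
      · obtain ⟨k, hk⟩ := hx' μ hμ
        refine ⟨k, ?_⟩
        have h2 : (tw D μ ^ k * tw D lam ^ n) (x μ) = (tw D lam ^ n * tw D μ ^ k) (x μ) := by rw [((tw_comm (hs' μ hμ) hl).pow_pow k n).eq]
        rw [Module.End.mul_apply, Module.End.mul_apply, hk, map_zero] at h2
        exact h2
      · have h2 := congrArg (tw D lam ^ n) h
        rw [Finset.sum_insert hlam, map_add, hn, zero_add, map_sum, map_zero] at h2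
        exact h2
    have h2 : ∀ μ ∈ s, x μ = 0 := fun μ hμ => tw_inj hl (hs' μ hμ) (fun h3 => hlam (h3 ▸ hμ)) n _ (h1 μ hμ) (hx' μ hμ)
    intro μ hμ
    rcases Finset.mem_insert.1 hμ with rfl | hμ
    · rw [Finset.sum_insert hlam, Finset.sum_eq_zero h2, add_zero] at h
      exact h
    · exact h2 μ hμ

end Pool.Agent.GLS
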