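import Pool.Agent.GLS.Dec
import Pool.Agent.GLS.Mul

/-!
# GLS Fam: a finite family of generalized eigenvectors

`Dec.exists_dec` for every coordinate; if all `e i` with `lam i ≠ 0` are `0`, then every coordinate is killed by a power of `D`.
-/

set_option autoImplicit false

open MvPolynomial Topology Filter Metric

namespace Pool.Agent.GLS

theorem exists_family {M : Type} [Field M] [Algebra ℂ M] [IsAlgClosed M] (D : Derivation ℂ M M) {τ : Type} [Fintype τ] (y : τ → M) (h : ∀ s, ConstRel D (y s)) (hn : ∃ s, ∀ n, (⇑D)^[n] (y s) ≠ 0) :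
    ∃ (p : ℕ) (lam e : Fin p → M), (∀ i, D (lam i) = 0) ∧ (∀ i, Gev D (lam i) (e i)) ∧ (∀ s, y s ∈ Submodule.span ℂ (Set.range e)) ∧ ∃ i, e i ≠ 0 ∧ lam i ≠ 0 := by
  classical
  choose q e lam h1 h2 h3 using fun s => exists_dec D (h s)
  let ε : (Σ s : τ, Fin (q s)) ≃ Fin (Fintype.card (Σ s : τ, Fin (q s))) := Fintype.equivFin _
  let E : (Σ s : τ, Fin (q s)) → M := fun x => e x.1 x.2
  let L : (Σ s : τ, Fin (q s)) → M := fun x => lam x.1 x.2
  have hE : ∀ x, E (ε.symm (ε x)) = E x := fun x => congrArg E (ε.symm_apply_apply x)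
  have hL : ∀ x, L (ε.symm (ε x)) = L x := fun x => congrArg L (ε.symm_apply_apply x)
  refine ⟨Fintype.card (Σ s : τ, Fin (q s)), fun j => L (ε.symm j), fun j => E (ε.symm j), fun j => h1 _ _, fun j => h2 _ _, ?_, ?_⟩
  · intro s
    rw [h3 s]
    exact Submodule.sum_mem _ fun i _ => Submodule.subset_span ⟨ε ⟨s, i⟩, hE ⟨s, i⟩⟩
  · by_contra hcon
    obtain ⟨s, hs⟩ := hn
    have h4 : ∀ i : Fin (q s), Gev D 0 (e s i) := by
      intro i
      by_cases h0 : e s i = 0
      · rw [h0]
        exact Gev.const (map_zero D)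
      · have h5 : lam s i = 0 := by
          by_contra h6
          apply hcon
          refine ⟨ε ⟨s, i⟩, ?_, ?_⟩
          · exact fun h10 => h0 ((hE ⟨s, i⟩).symm.trans h10)
          · exact fun h10 => h6 ((hL ⟨s, i⟩).symm.trans h10)
        have h7 := h2 s i
        rwa [h5] at h7
    have h8 : ∀ t : Finset (Fin (q s)), Gev D 0 (∑ i ∈ t, e s i) := by
      intro t
      induction t using Finset.induction with
      | empty =>
        rw [Finset.sum_empty]
        exact Gev.const (map_zero D)
      | insert a t ha ih =>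
        rw [Finset.sum_insert ha]
        exact Gev.add (map_zero D) (h4 a) ih
    obtain ⟨n, hn⟩ := h8 Finset.univ
    rw [← h3 s] at hn
    apply hs n
    have h9 : (fun x => D x - 0 * x) = (⇑D) := by
      funext x
      rw [zero_mul, sub_zero]
    rw [h9] at hn
    exact hn

end Pool.Agent.GLS
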