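import Pool.Agent.GLS.Defs

/-!
# GLS FldL: the vector fields are proportional

PROOF.  Without fractions: modulo `𝔯` the vector `a = Dt I (v)` satisfies `vmat K · a = vdet I • rhs K` for every `K`, because `Dt I (G_l) ∈ CSL ⊆ 𝔯`; multiply by the adjugate
of `vmat K`: `vdet K • a = vdet I • Dt K (v)`.  So `vdet K • Dt I - vdet I • Dt K` is a derivation with values in `𝔯`, and `vdet I ∉ 𝔯`.
-/

set_option autoImplicit false

open MvPolynomial Topology Filter Metric
open Pool.Agent.H13.SM (conTan cone)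
open Pool.Agent.H17 (PN VanishesAt HolomorphicInto puncturedDisc)
open Pool.Agent.H17EF (projVar)
open Pool.Agent.H17GT (coordFun)
open Pool.Agent.H17LG.Variety (FunField ratio IsLogGeneralType)
open Pool.Agent.H62.FC (Homog)
open Pool.Agent.GG Pool.Agent.GA Pool.Agent.GL Pool.Agent.GQ
open Pool.Agent.GBL (BdB)

namespace Pool.Agent.GLS

/-- a derivation is in the ideal as soon as it is on the variables -/
private theorem FldL_der {σ : Type} {I : Ideal (MvPolynomial σ ℂ)} (D : Derivation ℂ (MvPolynomial σ ℂ) (MvPolynomial σ ℂ)) (h : ∀ s, D (X s) ∈ I)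
    (g : MvPolynomial σ ℂ) : D g ∈ I := by
  induction g using MvPolynomial.induction_on with
  | C a =>
    have h1 : D (C a) = 0 := by
      rw [← MvPolynomial.algebraMap_eq]
      exact D.map_algebraMap a
    rw [h1]
    exact I.zero_mem
  | add p q hp hq =>
    rw [map_add]
    exact I.add_mem hp hq
  | mul_X p s hp =>
    rw [Derivation.leibniz, smul_eq_mul, smul_eq_mul]
    exact I.add_mem (I.mul_mem_left _ (h s)) (I.mul_mem_left _ hp)

private theorem FldL_sum {σ τ : Type} [Fintype τ] (D : τ → Derivation ℂ (MvPolynomial σ ℂ) (MvPolynomial σ ℂ)) (p : MvPolynomial σ ℂ) :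
    (∑ s, D s) p = ∑ s, D s p := by
  have h := map_sum (Derivation.coeFnAddMonoidHom (R := ℂ) (A := MvPolynomial σ ℂ) (M := MvPolynomial σ ℂ)) D Finset.univ
  have h1 := congrFun h p
  rw [Finset.sum_apply] at h1
  exact h1

/-- the derivative of a polynomial along a derivation -/
private theorem FldL_apply {σ : Type} [Fintype σ] (D : Derivation ℂ (MvPolynomial σ ℂ) (MvPolynomial σ ℂ)) (g : MvPolynomial σ ℂ) :
    D g = ∑ s, pderiv s g * D (X s) := by
  classical
  have h : D = ∑ s, D (X s) • pderiv (R := ℂ) s := by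
    refine MvPolynomial.derivation_ext fun i => ?_
    rw [FldL_sum]
    simp only [Derivation.smul_apply, pderiv_X, smul_eq_mul]
    rw [Finset.sum_eq_single i]
    · rw [Pi.single_eq_same, mul_one]
    · intro s _ hs
      rw [Pi.single_eq_of_ne (Ne.symm hs), mul_zero]
    · intro h
      exact absurd (Finset.mem_univ i) h
  have h2 : D g = (∑ s, D (X s) • pderiv (R := ℂ) s) g := congrArg (fun E : Derivation ℂ (MvPolynomial σ ℂ) (MvPolynomial σ ℂ) => E g) h
  rw [h2, FldL_sum]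
  exact Finset.sum_congr rfl fun s _ => by rw [Derivation.smul_apply, smul_eq_mul, mul_comm]

section

variable {n : ℕ} {ι : Type} {G : ι → MvPolynomial (Ph n) ℂ} {I : Fin (n + 1) → ι} {𝔯 : Ideal (MvPolynomial (Ph n) ℂ)}

private theorem FldL_inl (J : Fin (n + 1) → ι) (i : Fin (n + 1)) : Dt G J (X (Sum.inl i)) = vdet G J * X (Sum.inr i) := mkDerivation_X ℂ _ _

private theorem FldL_inr (J : Fin (n + 1) → ι) (i : Fin (n + 1)) : Dt G J (X (Sum.inr i)) = ((vmat G J).adjugate.mulVec (rhs G J)) i := mkDerivation_X ℂ _ _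

/-- modulo `𝔯` the accelerations are proportional -/
private theorem FldL_acc (h : ∀ l, Dt G I (G l) ∈ 𝔯) (K : Fin (n + 1) → ι) (i : Fin (n + 1)) :
    vdet G K * Dt G I (X (Sum.inr i)) - vdet G I * Dt G K (X (Sum.inr i)) ∈ 𝔯 := by
  -- the rows
  have h1 : ∀ l, (vmat G K).mulVec (fun i => Dt G I (X (Sum.inr i))) l - vdet G I * rhs G K l ∈ 𝔯 := by
    intro l
    have h2 : Dt G I (G (K l)) = (vmat G K).mulVec (fun i => Dt G I (X (Sum.inr i))) l - vdet G I * rhs G K l := by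
      rw [FldL_apply, Fintype.sum_sum_type, Matrix.mulVec, dotProduct, rhs]
      have h3 : ∑ x, pderiv (Sum.inl x : Ph n) (G (K l)) * Dt G I (X (Sum.inl x)) = vdet G I * ∑ b, pderiv (Sum.inl b : Ph n) (G (K l)) * X (Sum.inr b) := by
        rw [Finset.mul_sum]
        refine Finset.sum_congr rfl fun x _ => ?_
        rw [FldL_inl]
        ring
      rw [h3]
      have h4 : ∀ x, vmat G K l x = pderiv (Sum.inr x : Ph n) (G (K l)) := fun _ => rfl
      simp only [h4]
      ring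
    rw [← h2]
    exact h _
  -- the adjugate
  have h5 : ((vmat G K).adjugate.mulVec ((vmat G K).mulVec (fun i => Dt G I (X (Sum.inr i))))) i = vdet G K * Dt G I (X (Sum.inr i)) := by
    rw [Matrix.mulVec_mulVec, Matrix.adjugate_mul, Matrix.smul_mulVec, Matrix.one_mulVec]
    rfl
  rw [← h5, FldL_inr K, Matrix.mulVec, Matrix.mulVec, dotProduct, dotProduct, Finset.mul_sum, ← Finset.sum_sub_distrib]
  refine Ideal.sum_mem _ fun l _ => ?_
  have h6 : (vmat G K).adjugate i l * (vmat G K).mulVec (fun i => Dt G I (X (Sum.inr i))) l - vdet G I * ((vmat G K).adjugate i l * rhs G K l) =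
      (vmat G K).adjugate i l * ((vmat G K).mulVec (fun i => Dt G I (X (Sum.inr i))) l - vdet G I * rhs G K l) := by ring
  rw [h6]
  exact 𝔯.mul_mem_left _ (h1 l)

private theorem FldL_cross (h : ∀ l, Dt G I (G l) ∈ 𝔯) (K : Fin (n + 1) → ι) (g : MvPolynomial (Ph n) ℂ) :
    vdet G K * Dt G I g - vdet G I * Dt G K g ∈ 𝔯 := by
  refine FldL_der (vdet G K • Dt G I - vdet G I • Dt G K) (fun s => ?_) g
  rw [Derivation.sub_apply, Derivation.smul_apply, Derivation.smul_apply, smul_eq_mul, smul_eq_mul]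
  rcases s with s | s
  · rw [FldL_inl, FldL_inl]
    have h1 : vdet G K * (vdet G I * X (Sum.inr s)) - vdet G I * (vdet G K * X (Sum.inr s)) = (0 : MvPolynomial (Ph n) ℂ) := by ring
    rw [h1]
    exact 𝔯.zero_mem
  · exact FldL_acc h K s

end

variable {N : ℕ} {P : Ideal (MvPolynomial (Fin (N + 1)) ℂ)} {B : Finset (Fin (N + 1))} {J : ℕ} {m : Fin J → ℕ} {θ : ∀ k, LogSec P B (m k)} {b : Fin (N + 1)}

theorem lsol_of_slice (f : LFrame θ b) {I : Fin (N + 2) → GIx f.q J} {𝔯 : Ideal (MvPolynomial (Ph (N + 1)) ℂ)} (h𝔯 : 𝔯.IsPrime) (hC : CSL f I ⊆ 𝔯) {i₀ : Fin (N + 1)}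
    (hv : vdet (gfamL f) I * X (Sum.inr i₀.castSucc) ∉ 𝔯) (hst : ∀ g ∈ 𝔯, Dt (gfamL f) I g ∈ 𝔯) : LSol f 𝔯 := by
  have h0 : ∀ l, Dt (gfamL f) I (gfamL f l) ∈ 𝔯 := fun l => hC (Or.inr ⟨l, 0, rfl⟩)
  have hI : vdet (gfamL f) I ∉ 𝔯 := fun h => hv (𝔯.mul_mem_right _ h)
  have hc := FldL_cross (I := I) h0
  have hd : ∀ (K : Fin (N + 2) → GIx f.q J) (g : MvPolynomial (Ph (N + 1)) ℂ), Dt (gfamL f) I g ∈ 𝔯 → Dt (gfamL f) K g ∈ 𝔯 := by
    intro K g hg
    have h1 : vdet (gfamL f) I * Dt (gfamL f) K g ∈ 𝔯 := by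
      have h2 := 𝔯.sub_mem (𝔯.mul_mem_left (vdet (gfamL f) K) hg) (hc K g)
      rwa [sub_sub_cancel] at h2
    exact (h𝔯.mem_or_mem h1).resolve_left hI
  refine ⟨h𝔯, fun l => hC (Or.inl ⟨l, rfl⟩), fun K g hg => hd K g (hst g hg), fun K l => hd K _ (h0 l), fun K K' g => ?_, i₀, fun h => hv (𝔯.mul_mem_left _ h)⟩
  have h1 : vdet (gfamL f) I * (vdet (gfamL f) K * Dt (gfamL f) K' g - vdet (gfamL f) K' * Dt (gfamL f) K g) ∈ 𝔯 := by
    have h2 := 𝔯.sub_mem (𝔯.mul_mem_left (vdet (gfamL f) K') (hc K g)) (𝔯.mul_mem_left (vdet (gfamL f) K) (hc K' g))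
    have e : vdet (gfamL f) I * (vdet (gfamL f) K * Dt (gfamL f) K' g - vdet (gfamL f) K' * Dt (gfamL f) K g) =
        vdet (gfamL f) K' * (vdet (gfamL f) K * Dt (gfamL f) I g - vdet (gfamL f) I * Dt (gfamL f) K g) -
          vdet (gfamL f) K * (vdet (gfamL f) K' * Dt (gfamL f) I g - vdet (gfamL f) I * Dt (gfamL f) K' g) := by ring
    rw [e]
    exact h2
  exact (h𝔯.mem_or_mem h1).resolve_left hI

end Pool.Agent.GLS
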