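import Pool.Agent.GLS.Defs
import Pool.Agent.GLS.Mul

/-!
# GLS Grd: the relations are graded

PROOF.  `aeval e (weightedHomogeneousComponent lam μ G)` is a generalized eigenvector with the eigenvalue `μ` (`Gev.mul`, `Gev.add`), the sum over `μ` is `aeval e G = 0`: `Gev.indep`.  Integer weights: a `ℚ`-linear functional
`φ : M → ℚ` with `φ (lam i₀) ≠ 0`, times a common denominator of the `φ (lam i)`; a component for `ν` is a sum of components for `lam`.
-/

set_option autoImplicit false

open MvPolynomial Topology Filter Metric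
open Pool.Agent.H13.SM (conTan cone)
open Pool.Agent.H17 (PN VanishesAt HolomorphicInto puncturedDisc)
open Pool.Agent.H17EF (projVar)
open Pool.Agent.H17GT (coordFun)
open Pool.Agent.H17LG.Variety (FunField ratio IsLogGeneralType)
open Pool.Agent.H62.FC (Homog)
open Pool.Agent.GG Pool.Agent.GA Pool.Agent.GL Pool.Agent.GQ
open Pool.Agent.GBL (BdB)

namespace Pool.Agent.GLS

variable {M : Type} [Field M] [Algebra ℂ M] {D : Derivation ℂ M M} {p : ℕ} {e lam : Fin p → M}

private theorem gev_alg (D : Derivation ℂ M M) (c : ℂ) : Gev D 0 (algebraMap ℂ M c) := ⟨1, by simp⟩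

private theorem gev_zero (D : Derivation ℂ M M) (lam : M) : Gev D lam 0 := ⟨0, rfl⟩

private theorem gev_pow {lam a : M} (hl : D lam = 0) (ha : Gev D lam a) (n : ℕ) : Gev D (n • lam) (a ^ n) := by
  induction n with
  | zero =>
    have h := gev_alg D 1
    rw [map_one] at h
    simpa using h
  | succ n ih =>
    rw [pow_succ, succ_nsmul]
    exact ih.mul (by simp [hl]) hl ha

private theorem deriv_weight (hlam : ∀ i, D (lam i) = 0) (d : Fin p →₀ ℕ) : D (Finsupp.weight lam d) = 0 := by
  rw [Finsupp.weight_apply, Finsupp.sum, map_sum]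
  refine Finset.sum_eq_zero fun i _ => ?_
  rw [map_nsmul, hlam, smul_zero]

private theorem gev_prod (hlam : ∀ i, D (lam i) = 0) (he : ∀ i, Gev D (lam i) (e i)) (d : Fin p →₀ ℕ) :
    Gev D (Finsupp.weight lam d) (d.prod fun i k => e i ^ k) := by
  classical
  rw [Finsupp.weight_apply]
  unfold Finsupp.sum Finsupp.prod
  have key : ∀ T : Finset (Fin p), Gev D (∑ i ∈ T, d i • lam i) (∏ i ∈ T, e i ^ d i) ∧ D (∑ i ∈ T, d i • lam i) = 0 := by
    intro T
    induction T using Finset.induction_on with
    | empty =>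
      have h := gev_alg D 1
      rw [map_one] at h
      simpa using h
    | insert i T hi ih =>
      rw [Finset.sum_insert hi, Finset.prod_insert hi]
      have h1 : D (d i • lam i) = 0 := by rw [map_nsmul, hlam, smul_zero]
      exact ⟨(gev_pow (hlam i) (he i) _).mul h1 ih.2 ih.1, by rw [map_add, h1, ih.2, add_zero]⟩
  exact (key _).1

private theorem gev_component (hlam : ∀ i, D (lam i) = 0) (he : ∀ i, Gev D (lam i) (e i)) (G : MvPolynomial (Fin p) ℂ) (μ : M) :
    Gev D μ (aeval e (weightedHomogeneousComponent lam μ G)) := by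
  classical
  rw [weightedHomogeneousComponent_apply, map_sum]
  have key : ∀ T : Finset (Fin p →₀ ℕ), (∀ d ∈ T, Finsupp.weight lam d = μ) → Gev D μ (∑ d ∈ T, aeval e (monomial d (coeff d G))) := by
    intro T
    induction T using Finset.induction_on with
    | empty =>
      intro _
      simpa using gev_zero D μ
    | insert d T hd ih =>
      intro hT
      rw [Finset.sum_insert hd]
      have h0 : D μ = 0 := by
        rw [← hT d (Finset.mem_insert_self _ _)]
        exact deriv_weight hlam d
      refine Gev.add h0 ?_ (ih fun d' hd' => hT d' (Finset.mem_insert_of_mem hd'))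
      rw [aeval_monomial]
      have h1 := (gev_alg D (coeff d G)).mul (by simp) (deriv_weight hlam d) (gev_prod hlam he d)
      rwa [zero_add, hT d (Finset.mem_insert_self _ _)] at h1
  exact key _ fun d hd => (Finset.mem_filter.1 hd).2

/-- the sum over the weights of a finite set -/
private theorem sum_component {W : Type} [AddCommMonoid W] [DecidableEq W] (w : Fin p → W) (G : MvPolynomial (Fin p) ℂ) :
    ∑ μ ∈ G.support.image (Finsupp.weight w), weightedHomogeneousComponent w μ G = G := by
  classical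
  ext d
  rw [coeff_sum]
  simp only [coeff_weightedHomogeneousComponent]
  rw [Finset.sum_ite_eq]
  by_cases hd : d ∈ G.support
  · rw [if_pos (Finset.mem_image_of_mem _ hd)]
  · rw [notMem_support_iff.1 hd, ite_self]

/-- the relations are graded by the eigenvalues -/
private theorem rel_graded (hlam : ∀ i, D (lam i) = 0) (he : ∀ i, Gev D (lam i) (e i)) {G : MvPolynomial (Fin p) ℂ} (hG : aeval e G = 0) (μ : M) :
    aeval e (weightedHomogeneousComponent lam μ G) = 0 := by
  classical
  by_cases hμ : μ ∈ G.support.image (Finsupp.weight lam)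
  · have h1 : ∑ μ ∈ G.support.image (Finsupp.weight lam), aeval e (weightedHomogeneousComponent lam μ G) = 0 := by
      rw [← map_sum, sum_component, hG]
    refine Gev.indep (D := D) (x := fun μ => aeval e (weightedHomogeneousComponent lam μ G)) (fun ν hν => ?_) (fun ν _ => gev_component hlam he G ν) h1 μ hμ
    obtain ⟨d, -, rfl⟩ := Finset.mem_image.1 hν
    exact deriv_weight hlam d
  · rw [weightedHomogeneousComponent_eq_zero' μ G fun d hd h => hμ (Finset.mem_image.2 ⟨d, hd, h⟩), map_zero]

/-- integer weights -/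
private theorem exists_int0 (lam : Fin p → M) {i₀ : Fin p} (h0 : lam i₀ ≠ 0) :
    ∃ (φ : M →+ ℚ) (c : ℚ) (ν : Fin p → ℤ), ν i₀ ≠ 0 ∧ ∀ i, (ν i : ℚ) = c * φ (lam i) := by
  have : CharZero M := charZero_of_injective_algebraMap (algebraMap ℂ M).injective
  obtain ⟨f, hf⟩ : ∃ f : Module.Dual ℚ M, f (lam i₀) ≠ 0 := by
    by_contra hcon
    push Not at hcon
    exact h0 ((Module.forall_dual_apply_eq_zero_iff ℚ (lam i₀)).1 hcon)
  have key : ∀ i, ∃ n : ℤ, (n : ℚ) = (∏ l, ((f (lam l)).den : ℚ)) * f (lam i) := by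
    intro i
    refine ⟨(∏ l ∈ Finset.univ.erase i, ((f (lam l)).den : ℤ)) * (f (lam i)).num, ?_⟩
    rw [← Finset.mul_prod_erase Finset.univ _ (Finset.mem_univ i)]
    push_cast
    have h1 : ((f (lam i)).den : ℚ) * f (lam i) = (f (lam i)).num := by
      rw [mul_comm]
      exact Rat.mul_den_eq_num _
    rw [← h1]
    ring
  choose ν hν using key
  refine ⟨f.toAddMonoidHom, ∏ l, ((f (lam l)).den : ℚ), ν, fun h => ?_, hν⟩
  have h1 := hν i₀
  rw [h] at h1
  push_cast at h1
  rcases mul_eq_zero.1 h1.symm with h2 | h2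
  · obtain ⟨l, -, hl⟩ := Finset.prod_eq_zero_iff.1 h2
    exact (f (lam l)).den_nz (by exact_mod_cast hl)
  · exact hf h2

/-- the relations are graded by integers -/
private theorem rel_int (hG' : ∀ (G : MvPolynomial (Fin p) ℂ), aeval e G = 0 → ∀ μ : M, aeval e (weightedHomogeneousComponent lam μ G) = 0)
    {φ : M →+ ℚ} {c : ℚ} {ν : Fin p → ℤ} (hν : ∀ i, (ν i : ℚ) = c * φ (lam i)) {G : MvPolynomial (Fin p) ℂ} (hG : aeval e G = 0) (n : ℤ) :
    aeval e (weightedHomogeneousComponent ν n G) = 0 := by
  classical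
  have hw : ∀ d : Fin p →₀ ℕ, ((Finsupp.weight ν d : ℤ) : ℚ) = c * φ (Finsupp.weight lam d) := by
    intro d
    rw [Finsupp.weight_apply, Finsupp.weight_apply, Finsupp.sum, Finsupp.sum, map_sum, Finset.mul_sum]
    push_cast
    refine Finset.sum_congr rfl fun i _ => ?_
    rw [map_nsmul, nsmul_eq_mul, nsmul_eq_mul, Int.cast_mul, hν i]
    push_cast
    ring
  have h1 : weightedHomogeneousComponent ν n G =
      ∑ μ ∈ (G.support.image (Finsupp.weight lam)).filter (fun μ => c * φ μ = n), weightedHomogeneousComponent lam μ G := by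
    ext d
    rw [coeff_sum]
    simp only [coeff_weightedHomogeneousComponent]
    rw [Finset.sum_ite_eq]
    by_cases hd : d ∈ G.support
    · by_cases h2 : Finsupp.weight ν d = n
      · rw [if_pos h2, if_pos]
        refine Finset.mem_filter.2 ⟨Finset.mem_image_of_mem _ hd, ?_⟩
        rw [← hw, h2]
      · rw [if_neg h2, if_neg]
        intro h3
        apply h2
        have h4 := (Finset.mem_filter.1 h3).2
        rw [← hw] at h4
        exact_mod_cast h4
    · rw [notMem_support_iff.1 hd, ite_self, ite_self]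
  rw [h1, map_sum]
  exact Finset.sum_eq_zero fun μ _ => hG' G hG μ

theorem graded_lam (hl : ∀ i, D (lam i) = 0) (he : ∀ i, Gev D (lam i) (e i)) : Graded e lam := fun _ hG μ => rel_graded hl he hG μ

theorem exists_int {i₀ : Fin p} (h0 : lam i₀ ≠ 0) (hg : Graded e lam) : ∃ ν : Fin p → ℤ, ν i₀ ≠ 0 ∧ Graded e ν := by
  obtain ⟨φ, c, ν, h1, h2⟩ := exists_int0 lam h0
  exact ⟨ν, h1, fun _ hG n => rel_int hg h2 hG n⟩

end Pool.Agent.GLS
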