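import Pool.Agent.GLS.Defs

/-!
# GLS Fxi: the field is generated by one element over the field of the elements of degree zero

PROOF.  As in `H62.FC.GradedField` (`not_logGeneralType_of_graded`): `I` = the `i` with `e i ≠ 0`; `g` = gcd of the `ν i`, `i ∈ I` (`≠ 0`), `t = ∏ e i ^ c i`, `∑ c i ν i = g`; `ν i = g k i`; `F` = the field generated by the
`e i * t ^ (- k i)`.  `t` is transcendental over `F`: the automorphism `e i ↦ 2 ^ (ν i) e i` of `K₂` (it exists because the relations are graded) is the identity on `F` and maps `t` to `2 ^ g t`.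
-/

set_option autoImplicit false

open MvPolynomial Topology Filter Metric
open Pool.Agent.H13.SM (conTan cone)
open Pool.Agent.H17 (PN VanishesAt HolomorphicInto puncturedDisc)
open Pool.Agent.H17EF (projVar)
open Pool.Agent.H17GT (coordFun)
open Pool.Agent.H17LG.Variety (FunField ratio IsLogGeneralType)
open Pool.Agent.H62.FC (Homog)
open Pool.Agent.GG Pool.Agent.GA Pool.Agent.GL Pool.Agent.GQ
open Pool.Agent.GBL (BdB)

namespace Pool.Agent.GLS

variable {p : ℕ}

/-- The substitution `X i ↦ μ ^ (ν i) X i`. -/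
private noncomputable def Fxi_phi (ν : Fin p → ℤ) (μ : ℂ) : MvPolynomial (Fin p) ℂ →ₐ[ℂ] MvPolynomial (Fin p) ℂ :=
  aeval fun i => C (μ ^ ν i) * X i

private lemma Fxi_zpow_sum {μ : ℂ} (hμ : μ ≠ 0) (ν : Fin p → ℤ) (s : Finset (Fin p)) (d : Fin p → ℕ) :
    ∏ i ∈ s, (μ ^ ν i) ^ d i = μ ^ (∑ i ∈ s, d i • ν i) := by
  classical
  induction s using Finset.induction with
  | empty => simp
  | insert a s ha ih =>
    rw [Finset.prod_insert ha, Finset.sum_insert ha, ih, zpow_add₀ hμ, nsmul_eq_mul, mul_comm _ (ν a), zpow_mul, zpow_natCast]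

private lemma Fxi_phi_monomial {μ : ℂ} (hμ : μ ≠ 0) (ν : Fin p → ℤ) (d : Fin p →₀ ℕ) (c : ℂ) :
    Fxi_phi ν μ (monomial d c) = C (μ ^ (Finsupp.weight ν d)) * monomial d c := by
  rw [Fxi_phi, aeval_monomial, monomial_eq]
  simp only [mul_pow]
  rw [Finsupp.prod_mul]
  have h1 : (d.prod fun i k => (C (μ ^ ν i) : MvPolynomial (Fin p) ℂ) ^ k) = C (μ ^ (Finsupp.weight ν d)) := by
    rw [Finsupp.weight_apply, Finsupp.sum, ← Fxi_zpow_sum hμ ν d.support d, Finsupp.prod, map_prod]
    exact Finset.prod_congr rfl fun i _ => by rw [map_pow]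
  rw [h1]
  change C c * _ = _
  ring

private lemma Fxi_phi_weighted {μ : ℂ} (hμ : μ ≠ 0) (ν : Fin p → ℤ) {v : ℤ} {q : MvPolynomial (Fin p) ℂ} (hq : IsWeightedHomogeneous ν q v) :
    Fxi_phi ν μ q = C (μ ^ v) * q := by
  conv_lhs => rw [q.as_sum]
  conv_rhs => rw [q.as_sum]
  rw [map_sum, Finset.mul_sum]
  refine Finset.sum_congr rfl fun d hd => ?_
  rw [Fxi_phi_monomial hμ, hq (mem_support_iff.1 hd)]

private lemma Fxi_phi_mem {K₂ : Type} [Field K₂] [Algebra ℂ K₂] {e : Fin p → K₂} {μ : ℂ} (hμ : μ ≠ 0) {ν : Fin p → ℤ} (hg : Graded e ν)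
    {q : MvPolynomial (Fin p) ℂ} (hq : aeval e q = 0) : aeval e (Fxi_phi ν μ q) = 0 := by
  rw [← sum_weightedHomogeneousComponent ν q, finsum_eq_sum _ (weightedHomogeneousComponent_finsupp q), map_sum, map_sum]
  refine Finset.sum_eq_zero fun v _ => ?_
  rw [Fxi_phi_weighted hμ ν (weightedHomogeneousComponent_isWeightedHomogeneous v q), map_mul, hg q hq v, mul_zero]

private lemma Fxi_phi_phi {μ : ℂ} (hμ : μ ≠ 0) (ν : Fin p → ℤ) (q : MvPolynomial (Fin p) ℂ) : Fxi_phi ν μ⁻¹ (Fxi_phi ν μ q) = q := by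
  have h : (Fxi_phi ν μ⁻¹).comp (Fxi_phi ν μ) = AlgHom.id ℂ (MvPolynomial (Fin p) ℂ) := by
    apply MvPolynomial.algHom_ext
    intro i
    rw [AlgHom.comp_apply, AlgHom.id_apply, Fxi_phi, Fxi_phi, aeval_X, map_mul, aeval_X, aeval_C]
    change C (μ ^ ν i) * _ = _
    rw [← mul_assoc, ← C_mul, inv_zpow, mul_inv_cancel₀ (zpow_ne_zero _ hμ), C_1, one_mul]
  exact congrArg (fun f : MvPolynomial (Fin p) ℂ →ₐ[ℂ] MvPolynomial (Fin p) ℂ => f q) h

/-- The automorphism of the field. -/
private lemma Fxi_exists_sigma {K₂ : Type} [Field K₂] [Algebra ℂ K₂] {e : Fin p → K₂} (hgen : IntermediateField.adjoin ℂ (Set.range e) = ⊤) {μ : ℂ}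
    (hμ : μ ≠ 0) {ν : Fin p → ℤ} (hg : Graded e ν) : ∃ σ : K₂ →ₐ[ℂ] K₂, ∀ i, σ (e i) = algebraMap ℂ K₂ (μ ^ ν i) * e i := by
  let φ : MvPolynomial (Fin p) ℂ →ₐ[ℂ] K₂ := aeval e
  let Q : Type := MvPolynomial (Fin p) ℂ ⧸ RingHom.ker φ
  let κ : Q →ₐ[ℂ] K₂ := Ideal.kerLiftAlg φ
  have hκ : Function.Injective κ := Ideal.kerLiftAlg_injective φ
  let _ : Algebra Q K₂ := κ.toRingHom.toAlgebra
  have halg : ∀ x : Q, algebraMap Q K₂ x = κ x := fun x => rfl
  have : IsScalarTower ℂ Q K₂ := IsScalarTower.of_algebraMap_eq (R := ℂ) (S := Q) (A := K₂) fun x => (κ.commutes x).symm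
  have : FaithfulSMul Q K₂ := (faithfulSMul_iff_algebraMap_injective Q K₂).2 hκ
  have : IsFractionRing Q K₂ := by
    refine IsFractionRing.of_field Q K₂ fun z => ?_
    have hz : z ∈ IntermediateField.adjoin ℂ (Set.range e) := by
      rw [hgen]
      exact IntermediateField.mem_top
    obtain ⟨r, s, h⟩ := (IntermediateField.mem_adjoin_range_iff ℂ e z).1 hz
    exact ⟨Ideal.Quotient.mk _ r, Ideal.Quotient.mk _ s, h⟩
  have h1 : RingHom.ker φ ≤ (RingHom.ker φ).comap (Fxi_phi ν μ) := fun q hq => by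
    rw [Ideal.mem_comap, RingHom.mem_ker]
    exact Fxi_phi_mem hμ hg ((RingHom.mem_ker).1 hq)
  let f : Q →ₐ[ℂ] Q := Ideal.quotientMapₐ (RingHom.ker φ) (Fxi_phi ν μ) h1
  have hf : Function.Injective f := by
    apply Ideal.quotientMap_injective' (H := h1)
    intro q hq
    have h2 := Fxi_phi_mem (inv_ne_zero hμ) hg ((RingHom.mem_ker).1 (show Fxi_phi ν μ q ∈ RingHom.ker φ from hq))
    rw [Fxi_phi_phi hμ] at h2
    exact (RingHom.mem_ker).2 h2
  let g : Q →ₐ[ℂ] K₂ := κ.comp f
  have hg' : Function.Injective g := hκ.comp hf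
  refine ⟨IsFractionRing.liftAlgHom (K := K₂) hg', fun i => ?_⟩
  have hei : e i = algebraMap Q K₂ (Ideal.Quotient.mk (RingHom.ker φ) (X i)) := (aeval_X e i).symm
  conv_lhs => rw [hei]
  rw [IsFractionRing.liftAlgHom_apply, IsFractionRing.lift_algebraMap]
  change aeval e (Fxi_phi ν μ (X i)) = _
  rw [Fxi_phi, aeval_X, map_mul, aeval_X, aeval_C]

/-- Bezout's identity for a family of integers. -/
private lemma Fxi_bezout {ι : Type} [Fintype ι] (m : ι → ℤ) (hm : ∃ i, m i ≠ 0) :
    ∃ (g : ℤ) (c k : ι → ℤ), g ≠ 0 ∧ ∑ i, c i * m i = g ∧ ∀ i, m i = g * k i := by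
  classical
  obtain ⟨g, hg⟩ := IsPrincipalIdealRing.principal (Ideal.span (Set.range m))
  have h1 : ∀ i, ∃ k, m i = g * k := by
    intro i
    have h2 : m i ∈ Ideal.span (Set.range m) := Ideal.subset_span ⟨i, rfl⟩
    rw [hg] at h2
    obtain ⟨a, ha⟩ := Submodule.mem_span_singleton.1 h2
    exact ⟨a, by rw [← ha, smul_eq_mul, mul_comm]⟩
  have h3 : g ∈ Ideal.span (Set.range m) := by
    rw [hg]
    exact Submodule.mem_span_singleton_self g
  obtain ⟨c, hc⟩ := Submodule.mem_span_range_iff_exists_fun ℤ |>.1 h3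
  choose k hk using h1
  refine ⟨g, c, k, fun h0 => ?_, by simpa using hc, hk⟩
  obtain ⟨i, hi⟩ := hm
  apply hi
  rw [hk i, h0, zero_mul]

/-- A polynomial with coefficients fixed by `σ` has infinitely many zeros if `σ` multiplies one of
them by a constant which is not a root of unity. -/
private lemma Fxi_transc {F L : Type*} [Field F] [Field L] [Algebra ℂ F] (ι : L →+* F)
    (σ : F →ₐ[ℂ] F) (hσ : ∀ l, σ (ι l) = ι l) {t : F} (ht : t ≠ 0) {a : ℂ}
    (ha : Function.Injective fun k : ℕ => a ^ k)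
    (hat : σ t = algebraMap ℂ F a * t) (q : Polynomial L) (hq : (q.map ι).eval t = 0) : q = 0 := by
  by_contra hp0
  have hq0 : q.map ι ≠ 0 := (Polynomial.map_ne_zero_iff ι.injective).2 hp0
  have hroot : ∀ k : ℕ, (q.map ι).eval (algebraMap ℂ F (a ^ k) * t) = 0 := by
    intro k
    induction k with
    | zero => rw [pow_zero, map_one, one_mul, hq]
    | succ k ih =>
      have h1 : σ ((q.map ι).eval (algebraMap ℂ F (a ^ k) * t)) = 0 := by rw [ih, map_zero]
      have h2 : (σ : F →+* F).comp ι = ι := RingHom.ext hσ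
      have h3 : σ ((q.map ι).eval (algebraMap ℂ F (a ^ k) * t)) =
          (q.map ι).eval (σ (algebraMap ℂ F (a ^ k) * t)) := by
        conv_rhs => rw [← h2, ← Polynomial.map_map]
        exact (Polynomial.eval_map_apply (σ : F →+* F) (algebraMap ℂ F (a ^ k) * t)).symm
      rw [h3, map_mul, AlgHom.commutes, hat, ← mul_assoc, ← map_mul, ← pow_succ] at h1
      exact h1
  have hinj : Function.Injective fun k : ℕ => algebraMap ℂ F (a ^ k) * t := by
    intro b c hbc
    exact ha ((algebraMap ℂ F).injective (mul_right_cancel₀ ht hbc))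
  have hfin : {x | (q.map ι).IsRoot x}.Finite := Polynomial.finite_setOfPred_isRoot hq0
  exact Set.infinite_of_injective_forall_mem hinj (fun k => hroot k) hfin

private lemma Fxi_two_pow {g : ℤ} (hg : g ≠ 0) : Function.Injective fun k : ℕ => ((2 : ℂ) ^ g) ^ k := by
  intro a b hab
  have h1 : ((2 : ℝ) ^ g) ^ a = ((2 : ℝ) ^ g) ^ b := by
    have h2 := congrArg (fun z : ℂ => ‖z‖) hab
    simpa using h2
  rw [← zpow_natCast, ← zpow_natCast, ← zpow_mul, ← zpow_mul] at h1
  have h3 := zpow_right_injective₀ (by norm_num : (0 : ℝ) < 2) (by norm_num) h1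
  have h4 := mul_left_cancel₀ hg h3
  exact_mod_cast h4

theorem exists_xi {K₂ : Type} [Field K₂] [Algebra ℂ K₂] {p : ℕ} {e : Fin p → K₂} (hgen : IntermediateField.adjoin ℂ (Set.range e) = ⊤) {ν : Fin p → ℤ}
    (hne : ∃ i, e i ≠ 0 ∧ ν i ≠ 0) (hg : Graded e ν) :
    ∃ (F : IntermediateField ℂ K₂) (t : K₂), Transcendental F t ∧ IntermediateField.adjoin F {t} = ⊤ ∧ ∀ i, ∃ (f : F) (k : ℤ), e i = f * t ^ k := by
  classical
  obtain ⟨i₀, hi₀, hν₀⟩ := hne
  set y : Fin p → K₂ := fun i => if e i = 0 then 1 else e i with hy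
  set m : Fin p → ℤ := fun i => if e i = 0 then 0 else ν i with hm
  have hy0 : ∀ i, y i ≠ 0 := by
    intro i
    rw [hy]
    by_cases h : e i = 0
    · simp only [h, if_true]
      exact one_ne_zero
    · simp only [h, if_false]
      exact h
  obtain ⟨g, c, k, hg0, hgc, hk⟩ := Fxi_bezout m ⟨i₀, by
    rw [hm]
    simp only [hi₀, if_false]
    exact hν₀⟩
  set t : K₂ := ∏ i, y i ^ c i with ht
  have ht0 : t ≠ 0 := Finset.prod_ne_zero_iff.2 fun i _ => zpow_ne_zero _ (hy0 i)
  set l : Fin p → K₂ := fun i => y i * (t ^ k i)⁻¹ with hl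
  have hyl : ∀ i, y i = l i * t ^ k i := by
    intro i
    rw [hl]
    simp only
    rw [mul_assoc, inv_mul_cancel₀ (zpow_ne_zero _ ht0), mul_one]
  set L : IntermediateField ℂ K₂ := IntermediateField.adjoin ℂ (Set.range l) with hL
  have hlL : ∀ i, l i ∈ L := fun i => IntermediateField.subset_adjoin _ _ ⟨i, rfl⟩
  have hfk : ∀ i, ∃ (f : L) (k : ℤ), e i = f * t ^ k := by
    intro i
    by_cases h : e i = 0
    · exact ⟨0, 0, by rw [h, ZeroMemClass.coe_zero, zero_mul]⟩
    · refine ⟨⟨l i, hlL i⟩, k i, ?_⟩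
      have h1 : y i = e i := by
        rw [hy]
        simp only [h, if_false]
      rw [← h1]
      exact hyl i
  refine ⟨L, t, ?_, ?_, hfk⟩
  · -- `t` is transcendental over `L`
    obtain ⟨σ, hσ⟩ := Fxi_exists_sigma hgen (two_ne_zero (α := ℂ)) hg
    have hσy : ∀ i, σ (y i) = algebraMap ℂ _ ((2 : ℂ) ^ m i) * y i := by
      intro i
      by_cases hi : e i = 0
      · have h1 : y i = 1 := by rw [hy]; simp only [hi, if_true]
        have h2 : m i = 0 := by rw [hm]; simp only [hi, if_true]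
        rw [h1, h2, map_one, zpow_zero, map_one, one_mul]
      · have h1 : y i = e i := by rw [hy]; simp only [hi, if_false]
        have h2 : m i = ν i := by rw [hm]; simp only [hi, if_false]
        rw [h1, h2, hσ]
    have hσt : σ t = algebraMap ℂ _ ((2 : ℂ) ^ g) * t := by
      rw [ht, map_prod]
      simp only [map_zpow₀, hσy, mul_zpow]
      rw [Finset.prod_mul_distrib]
      congr 1
      rw [← hgc]
      have h3 : ∀ s : Finset (Fin p), ∏ i ∈ s, (algebraMap ℂ K₂ 2 ^ m i) ^ c i = algebraMap ℂ _ 2 ^ (∑ i ∈ s, c i * m i) := by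
        intro s
        induction s using Finset.induction with
        | empty => simp
        | insert a s ha ih =>
          rw [Finset.prod_insert ha, Finset.sum_insert ha, ih, zpow_add₀ (by
            rw [map_ne_zero]; exact two_ne_zero), mul_comm (c a), zpow_mul]
      exact h3 Finset.univ
    have hσL : ∀ x : L, σ (x : K₂) = x := by
      rintro ⟨x, hx⟩
      change σ x = x
      rw [hL] at hx
      induction hx using IntermediateField.adjoin_induction with
      | mem x hx =>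
        obtain ⟨i, rfl⟩ := hx
        have h4 : l i = y i * (t ^ k i)⁻¹ := rfl
        rw [h4, map_mul, map_inv₀, map_zpow₀, hσy, hσt, mul_zpow, hk i, zpow_mul, map_zpow₀, mul_inv, ← map_zpow₀]
        have h5 : algebraMap ℂ K₂ (((2 : ℂ) ^ g) ^ k i) ≠ 0 := by
          rw [map_ne_zero]
          exact zpow_ne_zero _ (zpow_ne_zero _ two_ne_zero)
        field_simp
      | algebraMap x => rw [AlgHom.commutes]
      | add x z _ _ hx hz => rw [map_add, hx, hz]
      | inv x _ hx => rw [map_inv₀, hx]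
      | mul x z _ _ hx hz => rw [map_mul, hx, hz]
    rw [transcendental_iff]
    intro q hq
    refine Fxi_transc (algebraMap L K₂) σ hσL (t := t) ht0 (Fxi_two_pow hg0) hσt q ?_
    rw [Polynomial.eval_map_algebraMap]
    exact hq
  · have hymem : ∀ i, e i ∈ IntermediateField.adjoin L {t} := by
      intro i
      obtain ⟨f, k, h⟩ := hfk i
      rw [h]
      refine mul_mem ?_ (zpow_mem (IntermediateField.mem_adjoin_simple_self L t) _)
      exact (IntermediateField.adjoin L {t}).algebraMap_mem f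
    rw [← IntermediateField.restrictScalars_eq_top_iff (K := ℂ), eq_top_iff, ← hgen, IntermediateField.adjoin_le_iff]
    rintro _ ⟨i, rfl⟩
    exact hymem i

end Pool.Agent.GLS
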