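import Pool.Agent.GLS.Defs
import Pool.Agent.GLS.Fxi
import Pool.Agent.H7.Qup.Log
import Pool.Agent.H62.FC.NotLGT

/-!
# GLS Lgt: a variety with a graded algebraic extension is not of log general type

PROOF.  `K₂ = ℂ (e) ⊆ M` contains the function field (`h1`), and is algebraic over it, `K₂ = F (t)` (`exists_xi` for the `e i` as elements of `K₂`).  `H7.Qup.isLGT_of_algebraic` with `B' E` = `E` lies over some `E₀` with `BdB P B E₀`;
`H62.FC.not_isLogGeneralType`: if `E` is `0` on `F ∖ 0` and `E.ord t = 0` then `E.ord (e i) = 0` for `e i ≠ 0`, so by `h1`, `h2` all `x_i / x_b` and `1 / ∏ x_i` are regular: the `x_i / x_b`, `i ∈ B`, are units at `E₀` (`b ∈ B`),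
against `BdB P B E₀`.
-/

set_option autoImplicit false

open MvPolynomial Topology Filter Metric
open Pool.Agent.H13.SM (conTan cone)
open Pool.Agent.H17 (PN VanishesAt HolomorphicInto puncturedDisc)
open Pool.Agent.H17EF (projVar)
open Pool.Agent.H17GT (coordFun)
open Pool.Agent.H17LG.Variety (FunField ratio IsLogGeneralType)
open Pool.Agent.H62.FC (Homog)
open Pool.Agent.H23.Fano (PrimeDivisorOver)
open Pool.Agent.GG Pool.Agent.GA Pool.Agent.GL Pool.Agent.GQ
open Pool.Agent.GBL (BdB)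

namespace Pool.Agent.GLS

variable {N : ℕ} {P : Ideal (MvPolynomial (Fin (N + 1)) ℂ)} {B : Finset (Fin (N + 1))} {J : ℕ} {m : Fin J → ℕ} {θ : ∀ k, LogSec P B (m k)} {b : Fin (N + 1)}

private theorem Lgt_div [P.IsPrime] {b₀ a : Fin (N + 1)} (hb₀ : coordFun P b₀ ≠ 0) (i : Fin (N + 1)) : ratio P i b₀ / ratio P a b₀ = ratio P i a := by
  apply Subtype.ext
  change (coordFun P i / coordFun P b₀) / (coordFun P a / coordFun P b₀) = coordFun P i / coordFun P a
  rw [div_div_div_cancel_right₀ hb₀]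

/-- regularity goes down -/
private theorem Lgt_down {K L : Type} [Field K] [Algebra ℂ K] [Field L] [Algebra ℂ L] [Algebra K L] {k : ℕ} {D : PrimeDivisorOver K k} {E : PrimeDivisorOver L k} {e : ℕ}
    (h : Pool.Agent.H7.Qup.Over D E e) {x : K} (hx : 0 ≤ E.ord (algebraMap K L x)) : 0 ≤ D.ord x := by
  by_cases hx0 : x = 0
  · rw [hx0, D.ord.map_zero]
    exact le_top
  · obtain ⟨n, hn, hn'⟩ := h.2 x hx0
    rw [hn'] at hx
    rw [hn]
    have h1 : (0 : ℤ) ≤ (e : ℤ) * n := by exact_mod_cast hx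
    have h2 : (0 : ℤ) < e := by exact_mod_cast h.1
    have h3 : (0 : ℤ) ≤ n := nonneg_of_mul_nonneg_right h1 h2
    exact_mod_cast h3

/-- regular elements are closed under linear combinations -/
private theorem Lgt_span {L : Type} [Field L] [Algebra ℂ L] {k : ℕ} (E : PrimeDivisorOver L k) {p : ℕ} {e : Fin p → L} (he : ∀ i, 0 ≤ E.ord (e i)) {x : L}
    (hx : x ∈ Submodule.span ℂ (Set.range e)) : 0 ≤ E.ord x := by
  induction hx using Submodule.span_induction with
  | mem x hx =>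
    obtain ⟨i, rfl⟩ := hx
    exact he i
  | zero =>
    rw [E.ord.map_zero]
    exact le_top
  | add x y _ _ h1 h2 => exact (le_min h1 h2).trans (E.ord.map_add x y)
  | smul c x _ h =>
    rw [Algebra.smul_def, E.ord.map_mul]
    exact add_nonneg (E.ord_const c) h

/-- a unit of the local ring -/
private theorem Lgt_unit {K : Type} [Field K] [Algebra ℂ K] {k : ℕ} (D : PrimeDivisorOver K k) {x : K} (hx0 : x ≠ 0) (h1 : 0 ≤ D.ord x) (h2 : 0 ≤ D.ord x⁻¹) : D.ord x = 0 := by
  have h3 : D.ord x + D.ord x⁻¹ = 0 := by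
    rw [← D.ord.map_mul, mul_inv_cancel₀ hx0, D.ord.map_one]
  refine le_antisymm ?_ h1
  calc D.ord x ≤ D.ord x + D.ord x⁻¹ := le_add_of_nonneg_right h2
    _ = 0 := h3

private theorem Lgt_zpow {K : Type} [Field K] [Algebra ℂ K] {k : ℕ} (D : PrimeDivisorOver K k) {x : K} (hx : D.ord x = 0) (j : ℤ) : D.ord (x ^ j) = 0 := by
  have h1 : ∀ n : ℕ, D.ord (x ^ n) = 0 := by
    intro n
    rw [D.ord.map_pow, hx, nsmul_zero]
  have hx0 : x ≠ 0 := by
    rintro rfl
    rw [D.ord.map_zero] at hx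
    exact WithTop.top_ne_zero hx
  obtain ⟨n, rfl | rfl⟩ := j.eq_nat_or_neg
  · rw [zpow_natCast, h1]
  · rw [zpow_neg, zpow_natCast]
    have h2 : D.ord (x ^ n) + D.ord (x ^ n)⁻¹ = 0 := by
      rw [← D.ord.map_mul, mul_inv_cancel₀ (pow_ne_zero _ hx0), D.ord.map_one]
    rwa [h1, zero_add] at h2

/-- the boundary divisors are poles of a coordinate or of the inverse of the equation of the boundary -/
private theorem Lgt_bd [P.IsPrime] {n : ℕ} (hb : b ∈ B) (hX : ∀ i ∈ B, X i ∉ P) (D : PrimeDivisorOver (FunField P) n) (h1 : ∀ i, 0 ≤ D.ord (ratio P i b))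
    (h2 : 0 ≤ D.ord (∏ i ∈ B, ratio P i b)⁻¹) : ¬ BdB P B D := by
  classical
  rintro ⟨j, hj, h3, i, hi, h4⟩
  have hcb : coordFun P b ≠ 0 := Pool.Agent.H17R.coordFun_ne_zero_iff.2 (hX b hb)
  have hne : ∀ i ∈ B, ratio P i b ≠ 0 := fun i hi => by
    rw [Pool.Agent.H17R.ratio_ne_zero_iff hcb]
    exact Pool.Agent.H17R.coordFun_ne_zero_iff.2 (hX i hi)
  have hjb : ratio P j b ≠ 0 := by
    rw [Pool.Agent.H17R.ratio_ne_zero_iff hcb]
    exact hj
  have h5 : 0 ≤ D.ord (ratio P i b)⁻¹ := by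
    have h6 : (ratio P i b)⁻¹ = (∏ i ∈ B, ratio P i b)⁻¹ * ∏ i' ∈ B.erase i, ratio P i' b := by
      rw [← Finset.mul_prod_erase B (fun i => ratio P i b) hi, mul_inv, mul_assoc, inv_mul_cancel₀, mul_one]
      exact Finset.prod_ne_zero_iff.2 fun i' hi' => hne i' (Finset.mem_of_mem_erase hi')
    rw [h6, D.ord.map_mul]
    refine add_nonneg h2 ?_
    refine Finset.prod_induction (fun i' => ratio P i' b) (fun x => 0 ≤ D.ord x) (fun x y hx hy => ?_) ?_ fun i' _ => h1 i'
    · rw [D.ord.map_mul]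
      exact add_nonneg hx hy
    · rw [D.ord.map_one]
  have h6 : D.ord (ratio P i b) = 0 := Lgt_unit D (hne i hi) (h1 i) h5
  have h7 : 0 ≤ D.ord (ratio P j b)⁻¹ := by
    have h8 := h3 b
    rwa [← Lgt_div hcb b, show ratio P b b = 1 from Pool.Agent.H17R.ratio_self hcb, one_div] at h8
  have h8 : D.ord (ratio P j b)⁻¹ = 0 := Lgt_unit D (inv_ne_zero hjb) h7 (by rw [inv_inv]; exact h1 j)
  rw [← Lgt_div hcb i, div_eq_mul_inv, D.ord.map_mul, h6, h8, add_zero] at h4
  exact lt_irrefl _ h4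

theorem not_logGT_of_graded [P.IsPrime] {n : ℕ} (hdim : ∃ z : Fin n → FunField P, IsTranscendenceBasis ℂ z) (hb : b ∈ B) (hX : ∀ i ∈ B, X i ∉ P)
    {M : Type} [Field M] [Algebra ℂ M] [Algebra (FunField P) M] [IsScalarTower ℂ (FunField P) M] [Algebra.IsAlgebraic (FunField P) M]
    {p : ℕ} {e : Fin p → M} {ν : Fin p → ℤ} (hne : ∃ i, e i ≠ 0 ∧ ν i ≠ 0) (hg : Graded e ν)
    (h1 : ∀ i, algebraMap (FunField P) M (ratio P i b) ∈ Submodule.span ℂ (Set.range e))
    (h2 : algebraMap (FunField P) M (∏ i ∈ B, ratio P i b)⁻¹ ∈ Submodule.span ℂ (Set.range e)) :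
    ¬ IsLogGeneralType (K := FunField P) (k := n) (BdB P B) := by
  classical
  intro hgt
  have hcb : coordFun P b ≠ 0 := Pool.Agent.H17R.coordFun_ne_zero_iff.2 (hX b hb)
  set K₂ : IntermediateField ℂ M := IntermediateField.adjoin ℂ (Set.range e) with hK₂
  have hmem : ∀ i, e i ∈ K₂ := fun i => IntermediateField.subset_adjoin _ _ ⟨i, rfl⟩
  have hspan : ∀ x ∈ Submodule.span ℂ (Set.range e), x ∈ K₂ := by
    intro x hx
    have h3 : Submodule.span ℂ (Set.range e) ≤ Subalgebra.toSubmodule K₂.toSubalgebra := by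
      rw [Submodule.span_le]
      rintro _ ⟨i, rfl⟩
      exact hmem i
    exact h3 hx
  have hfun : ∀ x : FunField P, algebraMap (FunField P) M x ∈ K₂ := by
    intro x
    have h3 : x ∈ K₂.comap (IsScalarTower.toAlgHom ℂ (FunField P) M) := by
      have h4 : IntermediateField.adjoin ℂ (Set.range fun i => ratio P i b) ≤ K₂.comap (IsScalarTower.toAlgHom ℂ (FunField P) M) := by
        rw [IntermediateField.adjoin_le_iff]
        rintro _ ⟨i, rfl⟩
        exact hspan _ (h1 i)
      rw [Pool.Agent.H17R.adjoin_ratio hcb] at h4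
      exact h4 trivial
    exact h3
  let φ : FunField P →+* K₂ := (algebraMap (FunField P) M).codRestrict K₂.toSubalgebra hfun
  let _ : Algebra (FunField P) K₂ := φ.toAlgebra
  have _ : IsScalarTower (FunField P) K₂ M := IsScalarTower.of_algebraMap_eq fun x => rfl
  have _ : IsScalarTower ℂ (FunField P) K₂ := IsScalarTower.of_algebraMap_eq fun x => by
    apply Subtype.ext
    change algebraMap ℂ M x = algebraMap (FunField P) M (algebraMap ℂ (FunField P) x)
    rw [← IsScalarTower.algebraMap_apply ℂ (FunField P) M]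
  have _ : Algebra.IsAlgebraic (FunField P) K₂ := Algebra.IsAlgebraic.tower_bot (FunField P) K₂ M
  let e' : Fin p → K₂ := fun i => ⟨e i, hmem i⟩
  have hgen : IntermediateField.adjoin ℂ (Set.range e') = ⊤ := by
    apply IntermediateField.lift_injective K₂
    rw [IntermediateField.lift_adjoin, IntermediateField.lift_top]
    rw [← Set.range_comp]
    rfl
  have hval : ∀ G : MvPolynomial (Fin p) ℂ, ((aeval e' G : K₂) : M) = aeval e G := by
    intro G
    have h3 := MvPolynomial.comp_aeval e' (K₂.val)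
    have h4 := DFunLike.congr_fun h3 G
    exact h4
  have hg' : Graded e' ν := by
    intro G hG v
    apply Subtype.ext
    rw [hval]
    exact hg G (by rw [← hval, hG]; rfl) v
  obtain ⟨F, t, ht, htop, het⟩ := exists_xi hgen (ν := ν) (by
    obtain ⟨i, hi, hi'⟩ := hne
    exact ⟨i, fun h => hi (congrArg Subtype.val h), hi'⟩) hg'
  have _ : Algebra.EssFiniteType ℂ K₂ := by
    rw [IntermediateField.essFiniteType_iff]
    exact IntermediateField.fg_adjoin_of_finite (Set.finite_range e)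
  have hz : ∃ z : Fin n → K₂, IsTranscendenceBasis ℂ z := by
    obtain ⟨z, hz⟩ := hdim
    exact ⟨_, IsTranscendenceBasis.algebraMap_comp (A := K₂) hz⟩
  have hsp : ∀ x : FunField P, algebraMap (FunField P) M x ∈ Submodule.span ℂ (Set.range e) →
      algebraMap (FunField P) K₂ x ∈ Submodule.span ℂ (Set.range e') := by
    intro x hx
    have h3 : Submodule.span ℂ (Set.range e) = (Submodule.span ℂ (Set.range e')).map K₂.val.toLinearMap := by
      rw [Submodule.map_span, ← Set.range_comp]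
      rfl
    rw [h3] at hx
    obtain ⟨y, hy, hyx⟩ := hx
    have h4 : y = algebraMap (FunField P) K₂ x := Subtype.ext hyx
    rwa [← h4]
  refine Pool.Agent.H62.FC.not_isLogGeneralType hz F ht htop (fun E => ∃ (D : PrimeDivisorOver (FunField P) n) (r : ℕ), Pool.Agent.H7.Qup.Over D E r ∧ BdB P B D) ?_
    (Pool.Agent.H7.Qup.isLGT_of_algebraic hdim (fun D E r h hD => ⟨D, r, h, hD⟩) hgt)
  rintro E hF ht0 ⟨D, r, hDE, hD⟩
  have he0 : ∀ i, 0 ≤ E.ord (e' i) := by
    intro i
    obtain ⟨f, k, hf⟩ := het i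
    rw [hf, E.ord.map_mul, Lgt_zpow E ht0 k, add_zero]
    by_cases hf0 : f = 0
    · rw [hf0, ZeroMemClass.coe_zero, E.ord.map_zero]
      exact le_top
    · rw [hF f hf0]
  exact Lgt_bd hb hX D (fun i => Lgt_down hDE (Lgt_span E he0 (hsp _ (h1 i)))) (Lgt_down hDE (Lgt_span E he0 (hsp _ h2))) hD

end Pool.Agent.GLS
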