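import Pool.Agent.GL.Ent1
import Pool.Agent.GL.Cmp
import Pool.Agent.GL.Row
import Pool.Agent.GG.ArcOde

/-!
# GLS OrbA: polynomials along the orbits, and the growth of the orbits

`dt_along`: along a curve on which the family `G` is constant, `(Dt G I g) (Y) = vdet G I (Y) * d/dt g (Y)` for all `I` and `g` (also if the determinant is `0`).
`stays`: an orbit which starts at a zero of a stable ideal stays in its zero set.
`exists_orbit`: the orbits, with a polynomial bound in the initial point for `‖t‖ ≤ 1`.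
-/

set_option autoImplicit false

open MvPolynomial Topology Filter Metric
open Pool.Agent.H13.SM (conTan cone)
open Pool.Agent.H62.FC (Homog)
open Pool.Agent.GG Pool.Agent.GA Pool.Agent.GL

namespace Pool.Agent.GLS

section

variable {N : ℕ} {ι : Type} {G : ι → MvPolynomial (Ph N) ℂ}

/-- the chain rule for polynomials -/
private theorem orb_chain {σ : Type*} [Fintype σ] [DecidableEq σ] {y : ℂ → σ → ℂ} {y' : σ → ℂ} {s : ℂ} (hy : HasDerivAt y y' s)
    (g : MvPolynomial σ ℂ) : HasDerivAt (fun s => eval (y s) g) (∑ i, eval (y s) (pderiv i g) * y' i) s := by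
  induction g using MvPolynomial.induction_on with
  | C a =>
    simp only [eval_C, pderiv_C, map_zero, zero_mul, Finset.sum_const_zero]
    exact hasDerivAt_const s a
  | add p q hp hq =>
    simp only [map_add, add_mul, Finset.sum_add_distrib]
    exact hp.add hq
  | mul_X p i hp =>
    have h1 : HasDerivAt (fun s => y s i) (y' i) s := hasDerivAt_pi.1 hy i
    have h2 := hp.mul h1
    have h3 : (∑ j, eval (y s) (pderiv j (p * X i)) * y' j) = (∑ j, eval (y s) (pderiv j p) * y' j) * y s i + eval (y s) p * y' i := by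
      have h4 : ∀ j, eval (y s) (pderiv j (p * X i)) * y' j =
          eval (y s) (pderiv j p) * y' j * y s i + (if j = i then eval (y s) p * y' j else 0) := by
        intro j
        rw [Derivation.leibniz, pderiv_X]
        by_cases hj : j = i
        · subst hj
          simp
          ring
        · rw [Pi.single_eq_of_ne (Ne.symm hj)]
          simp [hj]
          ring
      rw [Finset.sum_congr rfl fun j _ => h4 j, Finset.sum_add_distrib, ← Finset.sum_mul]
      simp
    rw [h3]
    have h5 : (fun s => eval (y s) (p * X i)) = (fun s => eval (y s) p) * fun s => y s i := by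
      funext s
      simp
    rw [h5]
    exact h2

/-- the path in the phase space -/
theorem orb_path {x : ℂ → Fin (N + 1) → ℂ} {s : ℂ} (h : AnalyticAt ℂ x s) :
    HasDerivAt (fun s => pt (x s) (deriv x s)) (pt (deriv x s) (deriv (deriv x) s)) s := by
  rw [hasDerivAt_pi]
  rintro (b | b)
  · exact hasDerivAt_pi.1 h.differentiableAt.hasDerivAt b
  · exact hasDerivAt_pi.1 h.deriv.differentiableAt.hasDerivAt b

/-- the derivation along a path with the velocity `fld / vdet` -/
private theorem orb_along {I : Fin (N + 1) → ι} {y : ℂ → Ph N → ℂ} {y' : Ph N → ℂ} {s : ℂ} (hy : HasDerivAt y y' s)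
    (h : ∀ i, eval (y s) (vdet G I) * y' i = eval (y s) (fld G I i)) (g : MvPolynomial (Ph N) ℂ) :
    ∃ d, HasDerivAt (fun s => eval (y s) g) d s ∧ eval (y s) (vdet G I) * d = eval (y s) (Dt G I g) := by
  induction g using MvPolynomial.induction_on with
  | C a =>
    have h1 : Dt G I (C a) = 0 := by
      rw [← algebraMap_eq]
      exact Derivation.map_algebraMap _ _
    refine ⟨0, ?_, ?_⟩
    · simp only [eval_C]
      exact hasDerivAt_const s a
    · rw [h1, map_zero, mul_zero]
  | add p q hp hq =>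
    obtain ⟨d, h1, h2⟩ := hp
    obtain ⟨e, h3, h4⟩ := hq
    refine ⟨d + e, ?_, ?_⟩
    · simp only [map_add]
      exact h1.add h3
    · rw [map_add, map_add, mul_add, h2, h4]
  | mul_X p i hp =>
    obtain ⟨d, h1, h2⟩ := hp
    have h3 : HasDerivAt (fun s => y s i) (y' i) s := hasDerivAt_pi.1 hy i
    have h5 : (fun s => eval (y s) (p * X i)) = (fun s => eval (y s) p) * fun s => y s i := by
      funext s
      simp
    refine ⟨d * y s i + eval (y s) p * y' i, ?_, ?_⟩
    · rw [h5]
      exact h1.mul h3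
    · have h4 : Dt G I (X i) = fld G I i := mkDerivation_X _ _ _
      rw [Derivation.leibniz, h4, smul_eq_mul, smul_eq_mul, map_add, map_mul, map_mul, eval_X, ← h, ← h2]
      ring

/-- **The derivations along an arc**, with the determinant multiplied out. -/
theorem dt_along {x : ℂ → Fin (N + 1) → ℂ} {t : ℂ} (h : ArcV G x t) (I : Fin (N + 1) → ι) (g : MvPolynomial (Ph N) ℂ) :
    ∃ d, HasDerivAt (fun s => eval (pt (x s) (deriv x s)) g) d t ∧
      eval (pt (x t) (deriv x t)) (vdet G I) * d = eval (pt (x t) (deriv x t)) (Dt G I g) := by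
  obtain ⟨hx, hc⟩ := h
  have hy := orb_path hx
  refine orb_along hy ?_ g
  obtain ⟨A, hA⟩ : ∃ A : Matrix (Fin (N + 1)) (Fin (N + 1)) ℂ, A = (vmat G I).map (eval (pt (x t) (deriv x t))) := ⟨_, rfl⟩
  have h2 : A.mulVec (deriv (deriv x) t) = (eval (pt (x t) (deriv x t))) ∘ rhs G I := by
    funext l
    have h3 := orb_chain hy (G (I l))
    have h4 := h3.unique ((hasDerivAt_const t (eval (pt (x t) (deriv x t)) (G (I l)))).congr_of_eventuallyEq (hc (I l)))
    rw [Fintype.sum_sum_type] at h4
    have h5 : A.mulVec (deriv (deriv x) t) l =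
        ∑ b, eval (pt (x t) (deriv x t)) (pderiv (Sum.inr b) (G (I l))) * deriv (deriv x) t b := by
      rw [hA]
      rfl
    rw [h5, Function.comp_apply, rhs, map_neg, map_sum]
    have h6 : (∑ b, eval (pt (x t) (deriv x t)) (pderiv (Sum.inl b) (G (I l)) * X (Sum.inr b))) =
        ∑ b, eval (pt (x t) (deriv x t)) (pderiv (Sum.inl b) (G (I l))) * deriv x t b := by
      refine Finset.sum_congr rfl fun b _ => ?_
      rw [map_mul, eval_X]
      rfl
    rw [h6]
    exact eq_neg_of_add_eq_zero_right h4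
  have hdet : A.det = eval (pt (x t) (deriv x t)) (vdet G I) := by
    rw [hA, vdet]
    exact ((eval (pt (x t) (deriv x t))).map_det (vmat G I)).symm
  have h3 : A.adjugate.mulVec ((eval (pt (x t) (deriv x t))) ∘ rhs G I) = A.det • deriv (deriv x) t := by
    rw [← h2, Matrix.mulVec_mulVec, Matrix.adjugate_mul, Matrix.smul_mulVec, Matrix.one_mulVec]
  rintro (b | b)
  · show _ * deriv x t b = _
    rw [fld, Sum.elim_inl, map_mul, eval_X]
    rfl
  · show _ * deriv (deriv x) t b = _
    rw [fld, Sum.elim_inr, RingHom.map_mulVec]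
    have h4 : (vmat G I).adjugate.map (eval (pt (x t) (deriv x t))) = A.adjugate := by
      rw [hA]
      exact (eval (pt (x t) (deriv x t))).map_adjugate (vmat G I)
    rw [h4, h3, Pi.smul_apply, hdet, smul_eq_mul]

/-- a polynomial along an analytic curve -/
theorem orb_an {σ : Type*} [Fintype σ] {y : ℂ → σ → ℂ} {s : ℂ} (hy : AnalyticAt ℂ y s) (g : MvPolynomial σ ℂ) : AnalyticAt ℂ (fun s => eval (y s) g) s := by
  have h2 : AnalyticAt ℂ (fun w => aeval (fun i => y w i) g) s := AnalyticAt.aeval_mvPolynomial (fun i => (analyticAt_pi_iff.1 hy) i) g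
  simpa only [MvPolynomial.aeval_eq_eval] using h2

/-- the phase curve is analytic -/
theorem orb_pt_an {x : ℂ → Fin (N + 1) → ℂ} {s : ℂ} (h : AnalyticAt ℂ x s) : AnalyticAt ℂ (fun s => pt (x s) (deriv x s)) s := by
  rw [analyticAt_pi_iff]
  rintro (b | b)
  · exact (analyticAt_pi_iff.1 h) b
  · exact (analyticAt_pi_iff.1 h.deriv) b

/-- an orbit which starts in the zero set of a stable ideal stays in it -/
theorem stays {x : ℂ → Fin (N + 1) → ℂ} (h : ∀ t, ArcV G x t) {I : Fin (N + 1) → ι} (hI : eval (pt (x 0) (deriv x 0)) (vdet G I) ≠ 0)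
    {r : Ideal (MvPolynomial (Ph N) ℂ)} (hr : ∀ g ∈ r, Dt G I g ∈ r) (h0 : ∀ g ∈ r, eval (pt (x 0) (deriv x 0)) g = 0) {g : MvPolynomial (Ph N) ℂ}
    (hg : g ∈ r) (t : ℂ) : eval (pt (x t) (deriv x t)) g = 0 := by
  have han : ∀ g : MvPolynomial (Ph N) ℂ, ∀ t, AnalyticAt ℂ (fun s => eval (pt (x s) (deriv x s)) g) t := fun g t => orb_an (orb_pt_an (h t).1) g
  have hne : ∀ᶠ s in 𝓝 (0 : ℂ), eval (pt (x s) (deriv x s)) (vdet G I) ≠ 0 := (han _ 0).continuousAt.eventually_ne hI
  -- the derivatives
  have hd : ∀ g : MvPolynomial (Ph N) ℂ, ∀ᶠ s in 𝓝 (0 : ℂ),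
      deriv (fun s => eval (pt (x s) (deriv x s)) g) s = (eval (pt (x s) (deriv x s)) (vdet G I))⁻¹ * eval (pt (x s) (deriv x s)) (Dt G I g) := by
    intro g
    filter_upwards [hne] with s hs
    obtain ⟨d, h1, h2⟩ := dt_along (h s) I g
    rw [h1.deriv, ← h2, inv_mul_cancel_left₀ hs]
  -- the order of vanishing at `0`
  have key : ∀ n : ℕ, ∀ g ∈ r, (n : ℕ∞) ≤ analyticOrderAt (fun s => eval (pt (x s) (deriv x s)) g) 0 := by
    intro n
    induction n with
    | zero => exact fun g _ => by simp
    | succ n ih =>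
      intro g hg
      have h1 := ih _ (hr g hg)
      have h2 : (n : ℕ∞) ≤ analyticOrderAt (deriv fun s => eval (pt (x s) (deriv x s)) g) 0 := by
        have h3 : (deriv fun s => eval (pt (x s) (deriv x s)) g) =ᶠ[𝓝 0]
            (fun s => (eval (pt (x s) (deriv x s)) (vdet G I))⁻¹) * fun s => eval (pt (x s) (deriv x s)) (Dt G I g) := hd g
        have h5 : AnalyticAt ℂ (fun s => (eval (pt (x s) (deriv x s)) (vdet G I))⁻¹) 0 := (han _ 0).inv hI
        rw [analyticOrderAt_congr h3, analyticOrderAt_mul h5 (han _ 0)]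
        exact h1.trans le_add_self
      have h4 := h0 g hg
      rw [Nat.cast_succ]
      exact (analyticOrderAt_deriv_ge_iff (han g 0) h4).1 h2
  have h1 : analyticOrderAt (fun s => eval (pt (x s) (deriv x s)) g) 0 = ⊤ := by
    rw [ENat.eq_top_iff_forall_ge]
    exact fun n => key n g hg
  have h2 : AnalyticOnNhd ℂ (fun s => eval (pt (x s) (deriv x s)) g) Set.univ := fun t _ => han g t
  have h3 := h2.eqOn_zero_of_preconnected_of_eventuallyEq_zero isPreconnected_univ (Set.mem_univ (0 : ℂ)) (analyticOrderAt_eq_top.1 h1)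
  exact h3 (Set.mem_univ t)

end

end Pool.Agent.GLS
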