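import Pool.Agent.GLS.Defs
import Pool.Agent.GLS.OrbA

/-!
# GLS Orb: the orbits

PROOF.  `w ∈ Zr 𝔯`, `tht f k (w) ≠ 0`: `w = ePt B x v` (`GL.of_gval`, `c` = the values of the `tht`), `v ≠ 0`; `K` with `vdet K (w) ≠ 0` (`exists_rowL`), `Crit (gfamL f) K w` (`LSol.crit`, `LSol.stable`): the entire curve `F`
(`GL.exists_entire_of_crit`), `y z = ePt B (F z) (F' z)`.  `dt_along`: `vdet K (y) d/dz g (y) = (Dt K g) (y)` for all `K`; `stays`: `y z ∈ Zr 𝔯` for all `z`; with `Bez`: `(tht f k (w)) ^ p d/dz eval (y z) g = eval (y z) (DD f β g)`.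
`Y t = y ((tht f k (w)) ^ p t)`.
Growth: `LL (F z) (F' z) ≤ C max (1, ‖θ‖)` (`exists_LL_bound`), `Rho (F z) ≤ Rho x + (card + 2) Λ ‖z‖` (`rho_path`), `‖ePt B x v‖ ≤ C (1 + LL) exp ((card + 1) Rho)`, `exp (Rho x) ≤ (1 + ‖w‖) ^ (card + 2)`.
-/

set_option autoImplicit false

open MvPolynomial Topology Filter Metric
open Pool.Agent.H13.SM (conTan cone)
open Pool.Agent.H17 (PN VanishesAt HolomorphicInto puncturedDisc)
open Pool.Agent.H17EF (projVar)
open Pool.Agent.H17GT (coordFun)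
open Pool.Agent.H17LG.Variety (FunField ratio IsLogGeneralType)
open Pool.Agent.H62.FC (Homog)
open Pool.Agent.GG Pool.Agent.GA Pool.Agent.GL Pool.Agent.GQ
open Pool.Agent.GBL (BdB)

namespace Pool.Agent.GLS

variable {N : ℕ} {P : Ideal (MvPolynomial (Fin (N + 1)) ℂ)} {B : Finset (Fin (N + 1))} {J : ℕ} {m : Fin J → ℕ} {θ : ∀ k, LogSec P B (m k)} {b : Fin (N + 1)}

/-- the values of the family at a zero of `𝔯` -/
theorem LSol.gval {f : LFrame θ b} {𝔯 : Ideal (MvPolynomial (Ph (N + 1)) ℂ)} (h : LSol f 𝔯) {w : Ph (N + 1) → ℂ} (hw : Zr 𝔯 w) (l : GIx f.q J) :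
    eval w (gfamL f l) = Pool.Agent.GL.gval (fun k => eval w (tht f k)) l := by
  rcases l with l | l | l
  · have h1 := hw _ (h.eqs (Sum.inl l))
    rw [feq, Sum.elim_inl, map_sub, eval_C, sub_eq_zero] at h1
    rw [h1]
    rfl
  · have h1 := hw _ (h.eqs (Sum.inr l))
    rw [feq, Sum.elim_inr, map_sub, eval_C, sub_eq_zero] at h1
    rw [h1]
    rfl
  · rfl

/-- the criterion at a zero of `𝔯` -/
theorem LSol.crit' {f : LFrame θ b} {𝔯 : Ideal (MvPolynomial (Ph (N + 1)) ℂ)} (h : LSol f 𝔯) (K : Fin (N + 2) → GIx f.q J) (l : GIx f.q J) (n : ℕ) :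
    (⇑(Dt (gfamL f) K))^[n + 1] (gfamL f l) ∈ 𝔯 := by
  induction n with
  | zero => exact h.crit K l
  | succ n ih =>
    rw [Function.iterate_succ_apply']
    exact h.stable K _ ih

/-- the orbit of a point: an entire curve in the phase space -/
theorem LSol.exists_curve (hP : Homog P) (hθ : LogPolar θ) (hm : ∀ k, 1 ≤ m k) (hb : b ∈ B) {f : LFrame θ b} {𝔯 : Ideal (MvPolynomial (Ph (N + 1)) ℂ)} (h : LSol f 𝔯)
    {w : Ph (N + 1) → ℂ} (hw : Zr 𝔯 w) {k : Fin J} (hk : eval w (tht f k) ≠ 0) :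
    ∃ F : ℂ → Fin (N + 1) → ℂ, (∀ z, AnalyticAt ℂ F z) ∧ (∀ z, F z ∈ Uc P B b) ∧ ePt B (F 0) (deriv F 0) = w ∧
      (∀ z, thv θ (F z) (deriv F z) = fun k => eval w (tht f k)) ∧ ∀ z, Zr 𝔯 (ePt B (F z) (deriv F z)) ∧ ∀ K g, ∃ d,
        HasDerivAt (fun s => eval (ePt B (F s) (deriv F s)) g) d z ∧ eval (ePt B (F z) (deriv F z)) (vdet (gfamL f) K) * d = eval (ePt B (F z) (deriv F z)) (Dt (gfamL f) K g) := by
  obtain ⟨x, v, hxv, hx, hv, hc⟩ := of_gval f (h.gval hw)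
  have hv0 : v ≠ 0 := by
    intro h0
    apply hk
    have h1 := congrFun hc k
    rw [h0, CX.thv_zero hm hx k] at h1
    exact h1.symm
  obtain ⟨K, hK⟩ := exists_rowL hθ f hb hx hv hv0
  have hcr : Crit (gfamL f) K (ePt B x v) := ⟨hK, fun l n => by rw [← hxv]; exact hw _ (h.crit' K l n)⟩
  obtain ⟨F, hF, hU, h0, h1, ⟨c, -, hcc⟩, -⟩ := exists_entire_of_crit hP hθ hm hb f hx hv hv0 hcr
  have hc' : c = fun k => eval w (tht f k) := by
    rw [← hcc 0, h0, h1, hc]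
  have hemb : ∀ z, AnalyticAt ℂ (fun s => emb B (F s)) z := fun z => analyticAt_emb (hF z) (hU z).2.2
  have hd : ∀ z, deriv (fun s => emb B (F s)) z = embV B (F z) (deriv F z) := fun z => deriv_emb (hF z) (hU z).2.2
  have hT : ∀ z, deriv F z ∈ Tc P b (F z) := fun z => deriv_mem_Tc (hF z) (Eventually.of_forall hU)
  have hpt : ∀ z, pt (emb B (F z)) (deriv (fun s => emb B (F s)) z) = ePt B (F z) (deriv F z) := fun z => by
    rw [hd, ePt]
  have harc : ∀ z, ArcV (gfamL f) (fun s => emb B (F s)) z := by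
    intro z
    refine ⟨hemb z, fun l => Eventually.of_forall fun s => ?_⟩
    rw [hpt, hpt, eval_gfamL f (hU s) (hT s), eval_gfamL f (hU z) (hT z), hcc, hcc]
  have h00 : ePt B (F 0) (deriv F 0) = w := by rw [h0, h1, hxv]
  refine ⟨F, hF, hU, h00, fun z => by rw [hcc, hc'], fun z => ⟨fun g hg => ?_, fun K' g => ?_⟩⟩
  · have h2 := stays harc (I := K) (r := 𝔯) (by rw [hpt, h00, hxv]; exact hK) (fun g hg => h.stable K g hg) (fun g hg => by rw [hpt, h00]; exact hw g hg) hg z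
    rw [hpt] at h2
    exact h2
  · obtain ⟨d, h2, h3⟩ := dt_along (harc z) K' g
    rw [hpt] at h3
    simp only [hpt] at h2
    exact ⟨d, h2, h3⟩

/-- a sum of derivations -/
private theorem orb_sum {R κ : Type} [CommRing R] [Algebra ℂ R] (β : κ → R) (D : κ → Derivation ℂ R R) (s : Finset κ) (g : R) :
    (∑ K ∈ s, β K • D K) g = ∑ K ∈ s, β K * D K g := by
  classical
  induction s using Finset.induction_on with
  | empty => rw [Finset.sum_empty, Finset.sum_empty, Derivation.zero_apply]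
  | insert a s ha ih => rw [Finset.sum_insert ha, Finset.sum_insert ha, Derivation.add_apply, ih, Derivation.smul_apply, smul_eq_mul]

/-- the norm of a point of the phase space -/
private theorem orb_ePt {x v : Fin (N + 1) → ℂ} (hx : x ∈ Uc P B b) {L : ℝ} (hL : LL B x v ≤ L) : ‖ePt B x v‖ ≤ (1 + L) * Real.exp (Rho B x) ^ (B.card + 1) := by
  have hE : 1 ≤ Real.exp (Rho B x) := Real.one_le_exp (rho_nonneg hx)
  have hE0 := Real.exp_pos (Rho B x)
  have hL0 : 0 ≤ L := (Pool.Agent.GL.LL_nonneg x v).trans hL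
  have hEc : 1 ≤ Real.exp (Rho B x) ^ B.card := one_le_pow₀ hE
  have hE1 : Real.exp (Rho B x) ≤ Real.exp (Rho B x) ^ (B.card + 1) := le_self_pow₀ hE (by omega)
  have hE2 : Real.exp (Rho B x) ^ B.card ≤ Real.exp (Rho B x) ^ (B.card + 1) := pow_le_pow_right₀ hE (by omega)
  have h1 : ∀ i, ‖x i‖ ≤ Real.exp (Rho B x) := fun i => (norm_le_pi_norm x i).trans (norm_le_rho hx)
  have h2 : ‖(∏ i ∈ B, x i)⁻¹‖ ≤ Real.exp (Rho B x) ^ B.card := by
    rw [norm_inv, norm_prod, ← Finset.prod_inv_distrib]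
    refine (Finset.prod_le_prod (fun i _ => inv_nonneg.2 (norm_nonneg _)) fun i hi => inv_le_rho hx hi).trans (le_of_eq ?_)
    rw [Finset.prod_const]
  have h3 : ∀ i, ‖v i‖ ≤ L * Real.exp (Rho B x) := fun i =>
    (norm_le_pi_norm v i).trans ((norm_le_LL hx v).trans (mul_le_mul_of_nonneg_right hL hE0.le))
  have h4 : ‖-((∏ i ∈ B, x i)⁻¹ * ∑ i ∈ B, (x i)⁻¹ * v i)‖ ≤ Real.exp (Rho B x) ^ B.card * L := by
    rw [norm_neg, norm_mul]
    refine mul_le_mul h2 ?_ (norm_nonneg _) (by positivity)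
    have h5 : ∑ i ∈ B, ‖v i‖ / ‖x i‖ ≤ LL B x v := by
      unfold LL
      have : 0 ≤ ‖v‖ / ‖x‖ := by positivity
      linarith
    refine (norm_sum_le _ _).trans (le_trans (le_of_eq (Finset.sum_congr rfl fun i _ => ?_)) (h5.trans hL))
    rw [norm_mul, norm_inv, div_eq_inv_mul]
  have hb : ∀ a : ℝ, a ≤ Real.exp (Rho B x) ^ (B.card + 1) → a ≤ (1 + L) * Real.exp (Rho B x) ^ (B.card + 1) := fun a ha => by
    have : 0 ≤ L * Real.exp (Rho B x) ^ (B.card + 1) := by positivity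
    linarith
  have hb' : ∀ a : ℝ, a ≤ L * Real.exp (Rho B x) ^ (B.card + 1) → a ≤ (1 + L) * Real.exp (Rho B x) ^ (B.card + 1) := fun a ha => by
    have : 0 ≤ Real.exp (Rho B x) ^ (B.card + 1) := by positivity
    linarith
  rw [pi_norm_le_iff_of_nonneg (by positivity)]
  rintro (i | i)
  · show ‖emb B x i‖ ≤ _
    unfold emb
    refine Fin.lastCases ?_ (fun i => ?_) i
    · rw [Fin.snoc_last]
      exact hb _ (h2.trans hE2)
    · rw [Fin.snoc_castSucc]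
      exact hb _ ((h1 i).trans hE1)
  · show ‖embV B x v i‖ ≤ _
    unfold embV
    refine Fin.lastCases ?_ (fun i => ?_) i
    · rw [Fin.snoc_last]
      refine hb' _ (h4.trans ?_)
      rw [mul_comm]
      exact mul_le_mul_of_nonneg_left hE2 hL0
    · rw [Fin.snoc_castSucc]
      exact hb' _ ((h3 i).trans (mul_le_mul_of_nonneg_left hE1 hL0))

/-- the height of a point is bounded by the norm in the phase space -/
private theorem orb_rho {x v : Fin (N + 1) → ℂ} (hx : x ∈ Uc P B b) : Real.exp (Rho B x) ≤ (1 + ‖ePt B x v‖) ^ (B.card + 2) := by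
  have hx0 : 0 < ‖x‖ := by
    have h := norm_le_pi_norm x b
    rw [hx.2.1, norm_one] at h
    linarith
  have hw : 0 ≤ ‖ePt B x v‖ := norm_nonneg _
  have h1 : ‖x‖ ≤ 1 + ‖ePt B x v‖ := by
    refine (pi_norm_le_iff_of_nonneg (by linarith)).2 fun i => ?_
    have h2 : ePt B x v (Sum.inl i.castSucc) = x i := by
      show emb B x i.castSucc = x i
      unfold emb
      exact Fin.snoc_castSucc (α := fun _ => ℂ) _ _ _
    have h3 := norm_le_pi_norm (ePt B x v) (Sum.inl i.castSucc)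
    rw [h2] at h3
    linarith
  have hne : ∀ i ∈ B, ‖x i‖ ≠ 0 := fun i hi => norm_ne_zero_iff.2 (hx.2.2 i hi)
  have h4 : (∏ i ∈ B, ‖x i‖)⁻¹ ≤ 1 + ‖ePt B x v‖ := by
    have h2 : ePt B x v (Sum.inl (Fin.last (N + 1))) = (∏ i ∈ B, x i)⁻¹ := by
      show emb B x (Fin.last (N + 1)) = _
      unfold emb
      exact Fin.snoc_last (α := fun _ => ℂ) _ _
    have h3 := norm_le_pi_norm (ePt B x v) (Sum.inl (Fin.last (N + 1)))
    rw [h2, norm_inv, norm_prod] at h3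
    linarith
  have h5 : Real.exp (Rho B x) = ‖x‖ ^ (B.card + 1) * (∏ i ∈ B, ‖x i‖)⁻¹ := by
    unfold Rho
    rw [Real.exp_add, Real.exp_log hx0, Real.exp_sum, ← Finset.prod_inv_distrib]
    have h6 : ∏ i ∈ B, Real.exp (Real.log ‖x‖ - Real.log ‖x i‖) = ∏ i ∈ B, (‖x‖ * ‖x i‖⁻¹) := by
      refine Finset.prod_congr rfl fun i hi => ?_
      rw [Real.exp_sub, Real.exp_log hx0, Real.exp_log (norm_pos_iff.2 (hx.2.2 i hi)), div_eq_mul_inv]
    rw [h6, Finset.prod_mul_distrib, Finset.prod_const]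
    ring
  rw [h5]
  calc ‖x‖ ^ (B.card + 1) * (∏ i ∈ B, ‖x i‖)⁻¹ ≤ (1 + ‖ePt B x v‖) ^ (B.card + 1) * (1 + ‖ePt B x v‖) := by
        refine mul_le_mul (pow_le_pow_left₀ hx0.le h1 _) h4 ?_ (by positivity)
        exact inv_nonneg.2 (Finset.prod_nonneg fun i _ => norm_nonneg _)
    _ = (1 + ‖ePt B x v‖) ^ (B.card + 2) := by ring

theorem LSol.orbs (hP : Homog P) (hθ : LogPolar θ) (hm : ∀ k, 1 ≤ m k) (hb : b ∈ B) {f : LFrame θ b} {𝔯 : Ideal (MvPolynomial (Ph (N + 1)) ℂ)} (h : LSol f 𝔯) {k : Fin J} {p : ℕ}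
    {β : (Fin (N + 2) → GIx f.q J) → MvPolynomial (Ph (N + 1)) ℂ} (hβ : Bez f 𝔯 k p β) : Orbs 𝔯 (DD f β) (tht f k) (tht f) := by
  have hDD : ∀ g, DD f β g = ∑ K, β K * Dt (gfamL f) K g := by
    intro g
    unfold DD
    exact orb_sum β _ _ g
  refine ⟨fun g hg => ?_, ?_, fun k => ?_, ?_⟩
  · rw [hDD]
    exact Ideal.sum_mem _ fun K _ => Ideal.mul_mem_left _ _ (h.stable K g hg)
  · rw [hDD]
    exact Ideal.sum_mem _ fun K _ => Ideal.mul_mem_left _ _ (h.crit K _)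
  · rw [hDD]
    exact Ideal.sum_mem _ fun K _ => Ideal.mul_mem_left _ _ (h.crit K _)
  intro w₀ hw₀ hk₀
  obtain ⟨C₁, hC₁, hLL⟩ := exists_LL_bound (P := P) hP hθ hm hb
  obtain ⟨M, hM1, hM⟩ : ∃ M : ℝ, 1 ≤ M ∧ ∀ k, ‖eval w₀ (tht f k)‖ ≤ M := by
    refine ⟨1 + ∑ k, ‖eval w₀ (tht f k)‖, ?_, fun k => ?_⟩
    · have : 0 ≤ ∑ k, ‖eval w₀ (tht f k)‖ := Finset.sum_nonneg fun _ _ => norm_nonneg _
      linarith
    · have : ‖eval w₀ (tht f k)‖ ≤ ∑ k, ‖eval w₀ (tht f k)‖ := Finset.single_le_sum (f := fun k => ‖eval w₀ (tht f k)‖) (fun _ _ => norm_nonneg _) (Finset.mem_univ k)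
      linarith
  set Λ : ℝ := C₁ * M with hΛ
  have hΛ0 : 0 ≤ Λ := by positivity
  set c₀ : ℂ := eval w₀ (tht f k) ^ p with hc₀
  have hc₀0 : c₀ ≠ 0 := pow_ne_zero _ hk₀
  have hcp : 0 < ‖c₀‖ := norm_pos_iff.2 hc₀0
  set A : ℝ := Real.exp ((B.card + 2) * Λ) with hA
  refine ⟨‖c₀‖⁻¹, (1 + Λ) * A ^ (B.card + 1), (B.card + 2) * (B.card + 1), inv_pos.2 hcp, fun w hw hwk hwθ => ?_⟩
  obtain ⟨F, hF, hU, h0, hc, hZ⟩ := h.exists_curve hP hθ hm hb hw (k := k) (by rw [hwk]; exact hk₀)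
  -- the values of `θ`
  have hthv : ∀ z, thv θ (F z) (deriv F z) = fun k => eval w₀ (tht f k) := fun z => by
    rw [hc z]
    funext k
    exact hwθ k
  have hT : ∀ z, deriv F z ∈ Tc P b (F z) := fun z => deriv_mem_Tc (hF z) (Eventually.of_forall hU)
  have hLLz : ∀ z, LL B (F z) (deriv F z) ≤ Λ := fun z => hLL (F z) (hU z) (deriv F z) (hT z) M hM1 fun k => by
    rw [hthv z]
    exact hM k
  -- the point
  have hY0 : ePt B (F 0) (deriv F 0) = w := h0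
  -- the values of `tht f k` along the curve
  have hthk : ∀ z, eval (ePt B (F z) (deriv F z)) (tht f k) = eval w₀ (tht f k) := fun z => by
    have h1 := eval_gfamL f (hU z) (hT z) (Sum.inr (Sum.inr k))
    have h2 : eval (ePt B (F z) (deriv F z)) (tht f k) = thv θ (F z) (deriv F z) k := h1
    rw [h2, hthv z]
  refine ⟨fun z => ePt B (F (c₀ * z)) (deriv F (c₀ * z)), ?_, ?_, ?_⟩
  · simp only [mul_zero]
    exact h0
  · intro z _
    -- the derivative
    have hlin : HasDerivAt (fun z : ℂ => c₀ * z) c₀ z := by simpa using (hasDerivAt_id z).const_mul c₀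
    rw [hasDerivAt_pi]
    intro s
    obtain ⟨u, hu⟩ : ∃ u, u = c₀ * z := ⟨_, rfl⟩
    have hall := (hZ u).2
    choose d hd1 hd2 using fun K => hall K (X s)
    have hdd : ∀ K K', d K = d K' := fun K K' => (hd1 K).unique (hd1 K')
    obtain ⟨K₀⟩ : Nonempty (Fin (N + 2) → GIx f.q J) := ⟨fun _ => Sum.inl (Sum.inl (Sum.inl ()))⟩
    have h1 : c₀ * d K₀ = eval (ePt B (F u) (deriv F u)) (DD f β (X s)) := by
      have h2 := (hZ u).1 _ hβ
      rw [map_sub, map_pow, hthk u, sub_eq_zero] at h2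
      rw [hc₀, h2, map_sum, hDD, map_sum, Finset.sum_mul]
      refine Finset.sum_congr rfl fun K _ => ?_
      rw [map_mul, map_mul, ← hd2 K, hdd K₀ K]
      ring
    have h3 : HasDerivAt (fun t => ePt B (F t) (deriv F t) s) (d K₀) u := by
      have := hd1 K₀
      simpa only [eval_X] using this
    rw [hu] at h3
    have h4 := h3.comp z hlin
    rw [hu] at h1
    rw [← h1, mul_comm]
    exact h4
  · intro z hz
    have hz1 : ‖c₀ * z‖ ≤ 1 := by
      rw [norm_mul]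
      have h1 : ‖z‖ < ‖c₀‖⁻¹ := mem_ball_zero_iff.1 hz
      calc ‖c₀‖ * ‖z‖ ≤ ‖c₀‖ * ‖c₀‖⁻¹ := mul_le_mul_of_nonneg_left h1.le hcp.le
        _ = 1 := mul_inv_cancel₀ hcp.ne'
    have h1 := orb_ePt (hU (c₀ * z)) (hLLz (c₀ * z))
    have h2 := rho_path (W := Set.univ) convex_univ (fun z _ => ⟨hF z, hU z⟩) (fun z _ => hLLz z) (Set.mem_univ (c₀ * z)) (Set.mem_univ (0 : ℂ))
    have h3 : Real.exp (Rho B (F (c₀ * z))) ≤ A * (1 + ‖w‖) ^ (B.card + 2) := by
      have h4 : Rho B (F (c₀ * z)) ≤ Rho B (F 0) + (B.card + 2) * Λ := by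
        refine h2.trans ?_
        rw [sub_zero]
        have h5 : (B.card + 2) * Λ * ‖c₀ * z‖ ≤ (B.card + 2) * Λ * 1 := mul_le_mul_of_nonneg_left hz1 (by positivity)
        linarith
      calc Real.exp (Rho B (F (c₀ * z))) ≤ Real.exp (Rho B (F 0) + (B.card + 2) * Λ) := Real.exp_le_exp.2 h4
        _ = A * Real.exp (Rho B (F 0)) := by rw [Real.exp_add, hA, mul_comm]
        _ ≤ A * (1 + ‖w‖) ^ (B.card + 2) := by
          refine mul_le_mul_of_nonneg_left ?_ (Real.exp_pos _).le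
          rw [← hY0]
          exact orb_rho (hU 0)
    calc ‖ePt B (F (c₀ * z)) (deriv F (c₀ * z))‖ ≤ (1 + Λ) * Real.exp (Rho B (F (c₀ * z))) ^ (B.card + 1) := h1
      _ ≤ (1 + Λ) * (A * (1 + ‖w‖) ^ (B.card + 2)) ^ (B.card + 1) :=
          mul_le_mul_of_nonneg_left (pow_le_pow_left₀ (Real.exp_pos _).le h3 _) (by positivity)
      _ = (1 + Λ) * A ^ (B.card + 1) * (1 + ‖w‖) ^ ((B.card + 2) * (B.card + 1)) := by
          rw [mul_pow, ← pow_mul, mul_assoc]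

end Pool.Agent.GLS
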