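import Pool.Agent.GLS.Defs
import Pool.Agent.GLS.Orb
import Pool.Agent.GL.E2A
import Pool.Agent.GG.Gen

/-!
# GLS NonP: some coordinate is not a polynomial of the time

PROOF.  Otherwise `(DD f β)^n (X s) ∈ 𝔯` for all `s` (`n` large).  Take `w ∈ Zr 𝔯` with `tht f k (w) ≠ 0` (exists: `tht f k ∉ 𝔯`), the entire curve `F` as in Orb: all coordinates are polynomials of degree `< n` in `z` (all higher derivatives at `0` vanish), so
`GL.poly_curve` gives `F' = 0`, `v = 0`, against `tht f k (w) ≠ 0`.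
-/

set_option autoImplicit false

open MvPolynomial Topology Filter Metric
open Pool.Agent.H13.SM (conTan cone)
open Pool.Agent.H17 (PN VanishesAt HolomorphicInto puncturedDisc)
open Pool.Agent.H17EF (projVar)
open Pool.Agent.H17GT (coordFun)
open Pool.Agent.H17LG.Variety (FunField ratio IsLogGeneralType)
open Pool.Agent.H62.FC (Homog)
open Pool.Agent.GG Pool.Agent.GA Pool.Agent.GL Pool.Agent.GQ
open Pool.Agent.GBL (BdB)

namespace Pool.Agent.GLS

variable {N : ℕ} {P : Ideal (MvPolynomial (Fin (N + 1)) ℂ)} {B : Finset (Fin (N + 1))} {J : ℕ} {m : Fin J → ℕ} {θ : ∀ k, LogSec P B (m k)} {b : Fin (N + 1)}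

/-- a function whose iterated derivative of the order `n` is `0` has polynomial growth -/
private theorem nonp_growth : ∀ (n : ℕ) (f : ℕ → ℂ → ℂ), (∀ i z, HasDerivAt (f i) (f (i + 1) z) z) → (∀ z, f n z = 0) →
    ∃ C : ℝ, 0 ≤ C ∧ ∀ z, ‖f 0 z‖ ≤ C * (1 + ‖z‖) ^ n := by
  intro n
  induction n with
  | zero =>
    intro f _ h0
    exact ⟨0, le_rfl, fun z => by rw [h0, norm_zero, zero_mul]⟩
  | succ n ih =>
    intro f hf h0
    obtain ⟨C, hC, h1⟩ := ih (fun i => f (i + 1)) (fun i z => hf (i + 1) z) h0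
    refine ⟨‖f 0 0‖ + C, by positivity, fun z => ?_⟩
    have h2 : ‖f 0 z - f 0 0‖ ≤ C * (1 + ‖z‖) ^ n * ‖z - 0‖ := by
      refine (convex_closedBall (0 : ℂ) ‖z‖).norm_image_sub_le_of_norm_hasDerivWithin_le (f' := f 1) (fun x _ => (hf 0 x).hasDerivWithinAt) (fun x hx => ?_)
        (mem_closedBall_self (norm_nonneg z)) (by simp)
      refine (h1 x).trans (mul_le_mul_of_nonneg_left (pow_le_pow_left₀ (by positivity) ?_ n) hC)
      have := mem_closedBall_zero_iff.1 hx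
      linarith
    rw [sub_zero] at h2
    have h3 : (1 : ℝ) ≤ (1 + ‖z‖) ^ (n + 1) := one_le_pow₀ (by linarith [norm_nonneg z])
    have h4 : C * (1 + ‖z‖) ^ n * ‖z‖ ≤ C * (1 + ‖z‖) ^ (n + 1) := by
      rw [pow_succ, ← mul_assoc]
      exact mul_le_mul_of_nonneg_left (by linarith) (by positivity)
    calc ‖f 0 z‖ = ‖(f 0 z - f 0 0) + f 0 0‖ := by rw [sub_add_cancel]
      _ ≤ ‖f 0 z - f 0 0‖ + ‖f 0 0‖ := norm_add_le _ _
      _ ≤ C * (1 + ‖z‖) ^ (n + 1) + ‖f 0 0‖ * (1 + ‖z‖) ^ (n + 1) := add_le_add (h2.trans h4) (le_mul_of_one_le_right (norm_nonneg _) h3)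
      _ = (‖f 0 0‖ + C) * (1 + ‖z‖) ^ (n + 1) := by ring

/-- a sum of derivations -/
private theorem nonp_sum {R κ : Type} [CommRing R] [Algebra ℂ R] (β : κ → R) (D : κ → Derivation ℂ R R) (s : Finset κ) (g : R) :
    (∑ K ∈ s, β K • D K) g = ∑ K ∈ s, β K * D K g := by
  classical
  induction s using Finset.induction_on with
  | empty => rw [Finset.sum_empty, Finset.sum_empty, Derivation.zero_apply]
  | insert a s ha ih => rw [Finset.sum_insert ha, Finset.sum_insert ha, Derivation.add_apply, ih, Derivation.smul_apply, smul_eq_mul]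

theorem LSol.not_poly (hP : Homog P) (hθ : LogPolar θ) (hm : ∀ k, 1 ≤ m k) (hb : b ∈ B) {f : LFrame θ b} {𝔯 : Ideal (MvPolynomial (Ph (N + 1)) ℂ)} (h : LSol f 𝔯) {k : Fin J} {p : ℕ}
    {β : (Fin (N + 2) → GIx f.q J) → MvPolynomial (Ph (N + 1)) ℂ} (hβ : Bez f 𝔯 k p β) (hk : tht f k ∉ 𝔯) : ∃ s, ∀ n, (⇑(DD f β))^[n] (X s) ∉ 𝔯 := by
  by_contra! hcon
  have := h.prime
  have hDD : ∀ g, DD f β g = ∑ K, β K * Dt (gfamL f) K g := fun g => nonp_sum β _ _ g
  choose ns hns using hcon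
  obtain ⟨w, hw, hwk⟩ := Gen.exists_point 𝔯 hk
  obtain ⟨F, hF, hU, h0, hc, hZ⟩ := h.exists_curve hP hθ hm hb (w := w) hw hwk
  set c₀ : ℂ := eval w (tht f k) ^ p with hc₀
  have hc₀0 : c₀ ≠ 0 := pow_ne_zero _ hwk
  have hT : ∀ z, deriv F z ∈ Tc P b (F z) := fun z => deriv_mem_Tc (hF z) (Eventually.of_forall hU)
  have hthk : ∀ z, eval (ePt B (F z) (deriv F z)) (tht f k) = eval w (tht f k) := fun z => by
    have h1 := eval_gfamL f (hU z) (hT z) (Sum.inr (Sum.inr k))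
    have h2 : eval (ePt B (F z) (deriv F z)) (tht f k) = thv θ (F z) (deriv F z) k := h1
    rw [h2, hc z]
  -- the derivative of a polynomial along the curve
  have hder : ∀ g z, HasDerivAt (fun s => eval (ePt B (F s) (deriv F s)) g) (c₀⁻¹ * eval (ePt B (F z) (deriv F z)) (DD f β g)) z := by
    intro g z
    have hall := (hZ z).2
    choose d hd1 hd2 using fun K => hall K g
    have hdd : ∀ K K', d K = d K' := fun K K' => (hd1 K).unique (hd1 K')
    obtain ⟨K₀⟩ : Nonempty (Fin (N + 2) → GIx f.q J) := ⟨fun _ => Sum.inl (Sum.inl (Sum.inl ()))⟩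
    have h1 : c₀ * d K₀ = eval (ePt B (F z) (deriv F z)) (DD f β g) := by
      have h2 := (hZ z).1 _ hβ
      rw [map_sub, map_pow, hthk z, sub_eq_zero] at h2
      rw [hc₀, h2, map_sum, hDD, map_sum, Finset.sum_mul]
      refine Finset.sum_congr rfl fun K _ => ?_
      rw [map_mul, map_mul, ← hd2 K, hdd K₀ K]
      ring
    rw [← h1, inv_mul_cancel_left₀ hc₀0]
    exact hd1 K₀
  -- the coordinates have polynomial growth
  have hgr : ∀ s, ∃ C : ℝ, 0 ≤ C ∧ ∀ z, ‖eval (ePt B (F z) (deriv F z)) (X s : MvPolynomial (Ph (N + 1)) ℂ)‖ ≤ C * (1 + ‖z‖) ^ ns s := by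
    intro s
    obtain ⟨C, hC, h1⟩ := nonp_growth (ns s) (fun i z => c₀⁻¹ ^ i * eval (ePt B (F z) (deriv F z)) ((⇑(DD f β))^[i] (X s))) (fun i z => by
      have h2 := (hder ((⇑(DD f β))^[i] (X s)) z).const_mul (c₀⁻¹ ^ i)
      rw [← mul_assoc, ← pow_succ, ← Function.iterate_succ_apply' (⇑(DD f β)) i] at h2
      exact h2) (fun z => by rw [(hZ z).1 _ (hns s), mul_zero])
    refine ⟨C, hC, fun z => ?_⟩
    have h2 := h1 z
    simp only [pow_zero, one_mul, Function.iterate_zero, id_eq] at h2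
    exact h2
  choose C hC hgr using hgr
  have hfin : ∀ z, ‖F z‖ ≤ (∑ s, C s) * (1 + ‖z‖) ^ (∑ s, ns s) := by
    intro z
    have hz1 : 1 ≤ 1 + ‖z‖ := by linarith [norm_nonneg z]
    have hS : 0 ≤ ∑ s, C s := Finset.sum_nonneg fun s _ => hC s
    refine (pi_norm_le_iff_of_nonneg (by positivity)).2 fun i => ?_
    have h1 := hgr (Sum.inl i.castSucc) z
    have h2 : eval (ePt B (F z) (deriv F z)) (X (Sum.inl i.castSucc) : MvPolynomial (Ph (N + 1)) ℂ) = F z i := by
      rw [eval_X]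
      show emb B (F z) i.castSucc = F z i
      unfold emb
      exact Fin.snoc_castSucc (α := fun _ => ℂ) _ _ _
    rw [h2] at h1
    refine h1.trans (mul_le_mul ?_ ?_ (by positivity) hS)
    · exact Finset.single_le_sum (f := C) (fun s _ => hC s) (Finset.mem_univ _)
    · exact pow_le_pow_right₀ hz1 (Finset.single_le_sum (f := ns) (fun s _ => Nat.zero_le _) (Finset.mem_univ _))
  have hd := poly_curve hP hθ hm hb hF hU hfin 0
  apply hwk
  have h1 := congrFun (hc 0) k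
  rw [hd, CX.thv_zero hm (hU 0) k] at h1
  exact h1.symm

end Pool.Agent.GLS
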