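import Pool.Agent.GLS.Defs
import Pool.Agent.GL.ChB

/-!
# GLS Slc: the slice

PROOF.  As `GQ.exists_slice_main` (GQ/SliceA): `dichotomy (CSL f I) (vdet (gfamL f) I * Δ₀) ix (aff P b)`, `GQ.exists_slice` for `D = Dt (gfamL f) I`, `S = CSL f I`, `φ = ix`, `𝔓 = aff P b`; the zeros of `CSL` are of the form `ePt B x v`
(`GL.of_gval`), `x ∈ cone P`, `x_b = 1` (`GQ.eval_aff`).  Algebraicity of all coordinates: `GQ.alg_all` for `N + 1` (the additional coordinate is the inverse of `∏ x_i`).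
-/

set_option autoImplicit false

open MvPolynomial Topology Filter Metric
open Pool.Agent.H13.SM (conTan cone)
open Pool.Agent.H17 (PN VanishesAt HolomorphicInto puncturedDisc)
open Pool.Agent.H17EF (projVar)
open Pool.Agent.H17GT (coordFun)
open Pool.Agent.H17LG.Variety (FunField ratio IsLogGeneralType)
open Pool.Agent.H62.FC (Homog)
open Pool.Agent.GG Pool.Agent.GA Pool.Agent.GL Pool.Agent.GQ
open Pool.Agent.GBL (BdB)

namespace Pool.Agent.GLS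

variable {N : ℕ} {P : Ideal (MvPolynomial (Fin (N + 1)) ℂ)} {B : Finset (Fin (N + 1))} {J : ℕ} {m : Fin J → ℕ} {θ : ∀ k, LogSec P B (m k)} {b : Fin (N + 1)}

private theorem Slc_stable (f : LFrame θ b) (I : Fin (N + 2) → GIx f.q J) {g : MvPolynomial (Ph (N + 1)) ℂ} (hg : g ∈ CSL f I) :
    Dt (gfamL f) I g ∈ Ideal.span (CSL f I) := by
  have h1 : ∀ l, Dt (gfamL f) I (gfamL f l) ∈ Ideal.span (CSL f I) := fun l => Ideal.subset_span (Or.inr ⟨l, 0, rfl⟩)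
  have h2 : ∀ c : ℂ, Dt (gfamL f) I (C c) = 0 := fun c => Derivation.map_algebraMap _ c
  rcases hg with ⟨l | l, rfl⟩ | ⟨l, k, rfl⟩
  · show Dt (gfamL f) I (gfamL f (Sum.inl l) - C (gval (q := f.q) (0 : Fin J → ℂ) (Sum.inl l))) ∈ _
    rw [map_sub, h2, sub_zero]
    exact h1 _
  · show Dt (gfamL f) I (gfamL f (Sum.inr (Sum.inl l)) - C (gval (q := f.q) (0 : Fin J → ℂ) (Sum.inr (Sum.inl l)))) ∈ _
    rw [map_sub, h2, sub_zero]
    exact h1 _
  · refine Ideal.subset_span (Or.inr ⟨l, k + 1, ?_⟩)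
    rw [Function.iterate_succ_apply' _ (k + 1)]

/-- the zeros of the equations of the criterion -/
private theorem Slc_zero (f : LFrame θ b) {I : Fin (N + 2) → GIx f.q J} {y : Ph (N + 1) → ℂ} (h : ∀ g ∈ CSL f I, eval y g = 0) :
    ∃ x ∈ Uc P B b, x = fun i => y (ix i) := by
  have h1 : ∀ l, eval y (gfamL f l) = gval (fun k => eval y (gfamL f (Sum.inr (Sum.inr k)))) l := by
    rintro (l | l | k)
    · have h2 : eval y (gfamL f (Sum.inl l) - C (gval (q := f.q) (0 : Fin J → ℂ) (Sum.inl l))) = 0 := h _ (Or.inl ⟨Sum.inl l, rfl⟩)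
      rw [map_sub, eval_C] at h2
      exact sub_eq_zero.1 h2
    · have h2 : eval y (gfamL f (Sum.inr (Sum.inl l)) - C (gval (q := f.q) (0 : Fin J → ℂ) (Sum.inr (Sum.inl l)))) = 0 := h _ (Or.inl ⟨Sum.inr l, rfl⟩)
      rw [map_sub, eval_C] at h2
      exact sub_eq_zero.1 h2
    · rfl
  obtain ⟨x, v, h2, h3, -, -⟩ := of_gval f h1
  refine ⟨x, h3, ?_⟩
  funext i
  rw [h2]
  show x i = emb B x i.castSucc
  unfold emb
  exact (Fin.snoc_castSucc (α := fun _ => ℂ) _ _ _).symm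

/-- the points of the variety satisfy the equations -/
private theorem Slc_eval (f : LFrame θ b) {I : Fin (N + 2) → GIx f.q J} {x v : Fin (N + 1) → ℂ} (hx : x ∈ Uc P B b) (hv : v ∈ Tc P b x)
    (hc : Crit (gfamL f) I (ePt B x v)) {g : MvPolynomial (Ph (N + 1)) ℂ} (hg : g ∈ CSL f I) : eval (ePt B x v) g = 0 := by
  rcases hg with ⟨l | l, rfl⟩ | ⟨l, k, rfl⟩
  · show eval (ePt B x v) (gfamL f (Sum.inl l) - C (gval (q := f.q) (0 : Fin J → ℂ) (Sum.inl l))) = 0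
    rw [map_sub, eval_C, eval_gfamL f hx hv]
    exact sub_eq_zero.2 rfl
  · show eval (ePt B x v) (gfamL f (Sum.inr (Sum.inl l)) - C (gval (q := f.q) (0 : Fin J → ℂ) (Sum.inr (Sum.inl l)))) = 0
    rw [map_sub, eval_C, eval_gfamL f hx hv]
    exact sub_eq_zero.2 rfl
  · exact hc.2 l k

/-- the additional coordinate is in the field of the base coordinates -/
private theorem Slc_last (f : LFrame θ b) {I : Fin (N + 2) → GIx f.q J} {𝔯 : Ideal (MvPolynomial (Ph (N + 1)) ℂ)} [𝔯.IsPrime] (h : CSL f I ⊆ 𝔯) :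
    IntermediateField.adjoin ℂ (Set.range fun i : Fin (N + 2) => Gen.gp 𝔯 (Sum.inl i : Ph (N + 1))) =
      IntermediateField.adjoin ℂ (Set.range fun i : Fin (N + 1) => Gen.gp 𝔯 (ix i)) := by
  apply le_antisymm
  · rw [IntermediateField.adjoin_le_iff]
    have h1 : ∀ i : Fin (N + 1), Gen.gp 𝔯 (ix i) ∈ IntermediateField.adjoin ℂ (Set.range fun i : Fin (N + 1) => Gen.gp 𝔯 (ix i)) := fun i =>
      IntermediateField.subset_adjoin ℂ _ ⟨i, rfl⟩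
    rintro _ ⟨i, rfl⟩
    refine Fin.lastCases ?_ (fun i => h1 i) i
    have h2 := h (Or.inl ⟨Sum.inr (Sum.inl ()), rfl⟩)
    have h3 : aeval (Gen.gp 𝔯) (X (Sum.inl (Fin.last (N + 1))) * ∏ l ∈ B, X (Sum.inl l.castSucc) - C 1 : MvPolynomial (Ph (N + 1)) ℂ) = 0 :=
      (Gen.aeval_gp_eq_zero 𝔯 _).2 h2
    rw [map_sub, map_mul, map_prod, aeval_X, aeval_C, map_one, sub_eq_zero] at h3
    have h4 : Gen.gp 𝔯 (Sum.inl (Fin.last (N + 1)) : Ph (N + 1)) = (∏ l ∈ B, Gen.gp 𝔯 (ix l))⁻¹ := by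
      refine eq_inv_of_mul_eq_one_left ?_
      rw [← h3]
      congr 1
      exact Finset.prod_congr rfl fun l _ => (aeval_X _ _).symm
    show Gen.gp 𝔯 (Sum.inl (Fin.last (N + 1)) : Ph (N + 1)) ∈ _
    rw [h4]
    exact inv_mem (prod_mem fun l _ => h1 l)
  · rw [IntermediateField.adjoin_le_iff]
    rintro _ ⟨i, rfl⟩
    exact IntermediateField.subset_adjoin ℂ _ ⟨i.castSucc, rfl⟩

/-- the slice, from a prime ideal which contains the equations of the criterion -/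
private theorem Slc_of [P.IsPrime] (f : LFrame θ b) {n : ℕ} (hdim : ∃ z : Fin n → FunField P, IsTranscendenceBasis ℂ z) (hb : X b ∉ P)
    (I : Fin (N + 2) → GIx f.q J) (Δ₀ : MvPolynomial (Ph (N + 1)) ℂ) {𝔮₀ : Ideal (MvPolynomial (Ph (N + 1)) ℂ)} (h1 : 𝔮₀.IsPrime)
    (h2 : CSL f I ⊆ 𝔮₀) (h3 : vdet (gfamL f) I * Δ₀ ∉ 𝔮₀) (h4 : ∀ q, rename ix q ∈ 𝔮₀ → q ∈ aff P b) :
    ∃ (𝔯 : Ideal (MvPolynomial (Ph (N + 1)) ℂ)) (_ : 𝔯.IsPrime), CSL f I ⊆ 𝔯 ∧ vdet (gfamL f) I * Δ₀ ∉ 𝔯 ∧ (∀ q, rename ix q ∈ 𝔯 ↔ q ∈ aff P b) ∧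
      (∀ g ∈ 𝔯, Dt (gfamL f) I g ∈ 𝔯) ∧
      ∀ s, IsAlgebraic (IntermediateField.adjoin ℂ (Set.range fun i : Fin (N + 1) => Gen.gp 𝔯 (ix i))) (Gen.gp 𝔯 s) := by
  classical
  have hpr : (aff P b).IsPrime := RingHom.ker_isPrime _
  have hc : coordFun P b ≠ 0 := Pool.Agent.H17R.coordFun_ne_zero_iff.2 hb
  have h𝔓 : ∀ y : Ph (N + 1) → ℂ, (∀ g ∈ CSL f I, eval y g = 0) → eval y (vdet (gfamL f) I * Δ₀) ≠ 0 → ∀ p ∈ aff P b, eval (fun s => y (ix s)) p = 0 := by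
    intro y hy _ p hp
    obtain ⟨x, h1, h2⟩ := Slc_zero f hy
    rw [← h2]
    exact eval_aff hb h1.1 h1.2.1 hp
  obtain ⟨z, hz⟩ := hdim
  have halg : Algebra.IsAlgebraic (IntermediateField.adjoin ℂ (Set.range fun i => ratio P i b)) (FunField P) := by
    refine ⟨fun y => ?_⟩
    have h1 : y ∈ IntermediateField.adjoin ℂ (Set.range fun i => ratio P i b) := by
      rw [Pool.Agent.H17R.adjoin_ratio hc]
      exact IntermediateField.mem_top
    exact isAlgebraic_algebraMap (⟨y, h1⟩ : IntermediateField.adjoin ℂ (Set.range fun i => ratio P i b))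
  obtain ⟨b', hb'⟩ := Pool.Agent.H92.GT.exists_index halg hz
  obtain ⟨𝔮, h𝔮, hal⟩ := exists_slice (D := Dt (gfamL f) I) (S := CSL f I) (fun g hg => Slc_stable f I hg) (Δ := vdet (gfamL f) I * Δ₀)
    (φ := (ix : Fin (N + 1) → Ph (N + 1))) (𝔓 := aff P b) b' (fun p hp => by
      have h5 : aeval (fun i => ratio P (b' i) b) p = 0 := by
        have h6 := RingHom.mem_ker.1 hp
        rw [aeval_rename] at h6
        exact h6
      exact (algebraicIndependent_iff.1 hb'.1) p h5) (fun q hq => by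
      obtain ⟨p, g, hp, hpg⟩ := exists_mul (fun i => ratio P i b) hb' (q := q) fun h => hq (RingHom.mem_ker.2 h)
      exact ⟨p, g, hp, RingHom.mem_ker.2 hpg⟩) h𝔓 h1 h2 h3 h4
  have hpq := h𝔮.prime
  refine ⟨𝔮, hpq, h𝔮.sub, h𝔮.notMem, fun q => ⟨h𝔮.dom q, fun hq => ?_⟩, h𝔮.stable, ?_⟩
  · by_contra hcon
    have h5 : vdet (gfamL f) I * Δ₀ * rename ix q ∉ 𝔮 := fun h => (hpq.mem_or_mem h).elim h𝔮.notMem hcon
    obtain ⟨y, hy, hy0⟩ := Gen.exists_point 𝔮 h5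
    rw [map_mul] at hy0
    apply right_ne_zero_of_mul hy0
    rw [eval_rename]
    exact h𝔓 y (fun g hg => hy g (h𝔮.sub hg)) (left_ne_zero_of_mul hy0) q hq
  · have hK := Slc_last f h𝔮.sub
    have h5 : ∀ s, IsAlgebraic (IntermediateField.adjoin ℂ (Set.range fun i : Fin (N + 2) => Gen.gp 𝔮 (Sum.inl i : Ph (N + 1)))) (Gen.gp 𝔮 s) := by
      refine alg_all (gfamL f) I (fun h => h𝔮.notMem (Ideal.mul_mem_right _ _ h)) fun r => ?_
      rw [hK]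
      refine hal _ ?_
      exact h𝔮.sub (Or.inr ⟨I r, 0, rfl⟩)
    rw [hK] at h5
    exact h5

theorem exists_slice_L [P.IsPrime] (f : LFrame θ b) {n : ℕ} (hdim : ∃ z : Fin n → FunField P, IsTranscendenceBasis ℂ z) (hb : X b ∉ P)
    (I : Fin (N + 2) → GIx f.q J) (Δ₀ : MvPolynomial (Ph (N + 1)) ℂ) :
    (∃ q ∉ aff P b, ∀ x ∈ Uc P B b, ∀ v ∈ Tc P b x, Crit (gfamL f) I (ePt B x v) → eval (ePt B x v) Δ₀ ≠ 0 → eval x q = 0) ∨
    ∃ (𝔯 : Ideal (MvPolynomial (Ph (N + 1)) ℂ)) (_ : 𝔯.IsPrime), CSL f I ⊆ 𝔯 ∧ vdet (gfamL f) I * Δ₀ ∉ 𝔯 ∧ (∀ q, rename ix q ∈ 𝔯 ↔ q ∈ aff P b) ∧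
      (∀ g ∈ 𝔯, Dt (gfamL f) I g ∈ 𝔯) ∧
      ∀ s, IsAlgebraic (IntermediateField.adjoin ℂ (Set.range fun i : Fin (N + 1) => Gen.gp 𝔯 (ix i))) (Gen.gp 𝔯 s) := by
  have hpr : (aff P b).IsPrime := RingHom.ker_isPrime _
  rcases dichotomy (CSL f I) (vdet (gfamL f) I * Δ₀) (ix : Fin (N + 1) → Ph (N + 1)) (aff P b) with ⟨q, hq, h⟩ | ⟨𝔮₀, h1, h2, h3, h4⟩
  · left
    refine ⟨q, hq, fun x hx v hv hcr hΔ => ?_⟩
    have h5 := h (ePt B x v) (fun g hg => Slc_eval f hx hv hcr hg) (by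
      rw [map_mul]
      exact mul_ne_zero hcr.1 hΔ)
    have h6 : (fun s : Fin (N + 1) => ePt B x v (ix s)) = x := by
      funext i
      show emb B x i.castSucc = x i
      unfold emb
      exact Fin.snoc_castSucc (α := fun _ => ℂ) _ _ _
    rwa [h6] at h5
  · right
    exact Slc_of f hdim hb I Δ₀ h1 h2 h3 h4

end Pool.Agent.GLS
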