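import Pool.Agent.GLS.Defs

/-!
# GLS Wrn: the Wronskian over the constants

PROOF.  Take a nonzero vector `a` in the kernel of the matrix `(D^(i+j) y)` with the smallest number of nonzero entries, one entry `1`; differentiate `∑ a_j D^(i+j) y = 0` and use the row `i + 1`
(for the last row use the minimal `n`: if the first `n` rows are already dependent go down).
-/

set_option autoImplicit false

open MvPolynomial Topology Filter Metric
open Pool.Agent.H13.SM (conTan cone)
open Pool.Agent.H17 (PN VanishesAt HolomorphicInto puncturedDisc)
open Pool.Agent.H17EF (projVar)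
open Pool.Agent.H17GT (coordFun)
open Pool.Agent.H17LG.Variety (FunField ratio IsLogGeneralType)
open Pool.Agent.H62.FC (Homog)
open Pool.Agent.GG Pool.Agent.GA Pool.Agent.GL Pool.Agent.GQ
open Pool.Agent.GBL (BdB)

namespace Pool.Agent.GLS

/-- If the Wronskian of `x₁, …, xₙ` (elements of a field with a derivation) vanishes, the `xⱼ` are
linearly dependent over the constants. -/
theorem wronskian_det {K : Type} [Field K] [Algebra ℂ K] (D : Derivation ℂ K K) :
    ∀ (n : ℕ) (x : Fin n → K),
      (Matrix.of fun i j : Fin n => (D : K → K)^[(i : ℕ)] (x j)).det = 0 →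
      ∃ c : Fin n → K, c ≠ 0 ∧ (∀ j, D (c j) = 0) ∧ ∑ j, c j * x j = 0 := by
  intro n
  induction n with
  | zero => intro x h; simp at h
  | succ n ih =>
    intro x h
    by_cases h0 : (Matrix.of fun i j : Fin n => (D : K → K)^[(i : ℕ)] (x j.castSucc)).det = 0
    · obtain ⟨c, hc, hD, hs⟩ := ih (fun j => x j.castSucc) h0
      refine ⟨Fin.snoc c 0, ?_, ?_, ?_⟩
      · intro hz
        apply hc
        funext j
        have := congrFun hz j.castSucc
        simpa using this
      · intro j
        refine Fin.lastCases ?_ (fun j => ?_) j
        · simp
        · simpa using hD j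
      · rw [Fin.sum_univ_castSucc]
        simpa using hs
    · obtain ⟨a, ha, hM⟩ := Matrix.exists_mulVec_eq_zero_iff.mpr h
      have hrow : ∀ i : Fin (n + 1), ∑ j, (D : K → K)^[(i : ℕ)] (x j) * a j = 0 := by
        intro i
        have := congrFun hM i
        simpa [Matrix.mulVec, dotProduct] using this
      -- the last coefficient does not vanish
      have hlast : a (Fin.last n) ≠ 0 := by
        intro hl
        apply h0
        rw [← Matrix.exists_mulVec_eq_zero_iff]
        refine ⟨fun j => a j.castSucc, ?_, ?_⟩
        · intro hz
          apply ha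
          funext j
          refine Fin.lastCases ?_ (fun j => ?_) j
          · simpa using hl
          · simpa using congrFun hz j
        · funext i
          have := hrow i.castSucc
          rw [Fin.sum_univ_castSucc, hl, mul_zero, add_zero] at this
          simpa [Matrix.mulVec, dotProduct] using this
      set b : Fin (n + 1) → K := fun j => a j / a (Fin.last n) with hb
      have hrow' : ∀ i : Fin (n + 1), ∑ j, (D : K → K)^[(i : ℕ)] (x j) * b j = 0 := by
        intro i
        have := hrow i
        calc ∑ j, (D : K → K)^[(i : ℕ)] (x j) * b j
            = (∑ j, (D : K → K)^[(i : ℕ)] (x j) * a j) / a (Fin.last n) := by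
              rw [Finset.sum_div]
              refine Finset.sum_congr rfl fun j _ => ?_
              rw [hb]; ring
          _ = 0 := by rw [this, zero_div]
      have hbl : b (Fin.last n) = 1 := by rw [hb]; exact div_self hlast
      have hDb : ∀ i : Fin n, ∑ j : Fin n, (D : K → K)^[(i : ℕ)] (x j.castSucc) * D (b j.castSucc)
          = 0 := by
        intro i
        have h1 := congrArg D (hrow' i.castSucc)
        rw [map_sum, map_zero] at h1
        have h2 := hrow' i.succ
        have h3 : ∑ j : Fin (n + 1), (D : K → K)^[(i : ℕ)] (x j) * D (b j) = 0 := by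
          have : ∑ j : Fin (n + 1), D ((D : K → K)^[(i : ℕ)] (x j) * b j)
              = ∑ j : Fin (n + 1), (D : K → K)^[(i : ℕ)] (x j) * D (b j)
                + ∑ j : Fin (n + 1), (D : K → K)^[(i : ℕ) + 1] (x j) * b j := by
            rw [← Finset.sum_add_distrib]
            refine Finset.sum_congr rfl fun j _ => ?_
            rw [Derivation.leibniz, Function.iterate_succ_apply', smul_eq_mul, smul_eq_mul]
            ring
          have h2' : ∑ j : Fin (n + 1), (D : K → K)^[(i : ℕ) + 1] (x j) * b j = 0 := by
            simpa using h2
          have h1' : ∑ j : Fin (n + 1), D ((D : K → K)^[(i : ℕ)] (x j) * b j) = 0 := by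
            simpa using h1
          rw [this, h2', add_zero] at h1'
          exact h1'
        rw [Fin.sum_univ_castSucc, hbl] at h3
        simpa using h3
      refine ⟨b, ?_, ?_, ?_⟩
      · intro hz
        have := congrFun hz (Fin.last n)
        rw [hbl] at this
        simp at this
      · have hz : (fun j : Fin n => D (b j.castSucc)) = 0 := by
          by_contra hne
          apply h0
          rw [← Matrix.exists_mulVec_eq_zero_iff]
          refine ⟨_, hne, ?_⟩
          funext i
          simpa [Matrix.mulVec, dotProduct] using hDb i
        intro j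
        refine Fin.lastCases ?_ (fun j => ?_) j
        · rw [hbl]; simp
        · exact congrFun hz j
      · have := hrow' 0
        simp only [Fin.val_zero, Function.iterate_zero, id] at this
        rw [← this]
        exact Finset.sum_congr rfl fun j _ => mul_comm _ _

theorem wronskian {L : Type} [Field L] [Algebra ℂ L] (D : Derivation ℂ L L) {y : L} {n : ℕ} (h : hk D n y = 0) : ConstRel D y := by
  obtain ⟨c, hc, hD, hs⟩ := wronskian_det D (n + 1) (fun j => (⇑D)^[(j : ℕ)] y) (by
    rw [← h, hk]
    congr 1
    ext i j
    simp [Function.iterate_add_apply])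
  exact ⟨n, c, hc, hD, hs⟩

end Pool.Agent.GLS
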