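import Pool.Agent.GLS.Hnk
import Pool.Agent.GLS.Wrn
import Pool.Agent.GLS.Dec
import Pool.Agent.GLS.Fam
import Pool.Agent.GLS.Grd
import Pool.Agent.GLS.Lgt
import Pool.Agent.GLS.Slc
import Pool.Agent.GLS.FldL
import Pool.Agent.GLS.Der
import Pool.Agent.GLS.Orb
import Pool.Agent.GLS.NonP
import Pool.Agent.GA.DerExt

/-!
# GLS Cor: an LSol whose field is algebraic over the function field contradicts log general type

PROOF.  `exists_bar`: the algebraic closure `M` of the field of fractions of `ℂ[Ph] / 𝔯`, with the derivation of `D` and the embedding of the function field.  All coordinates satisfy linear equations with constant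
coefficients (`exists_hk_mem`, `wronskian`), and `M` is algebraic over the function field: `exists_family`, `graded_lam`, `exists_int`, `not_logGT_of_graded`.
-/

set_option autoImplicit false

open MvPolynomial Topology Filter Metric
open Pool.Agent.H13.SM (conTan cone)
open Pool.Agent.H17 (PN VanishesAt HolomorphicInto puncturedDisc)
open Pool.Agent.H17EF (projVar)
open Pool.Agent.H17GT (coordFun)
open Pool.Agent.H17LG.Variety (FunField ratio IsLogGeneralType)
open Pool.Agent.H62.FC (Homog)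
open Pool.Agent.GG Pool.Agent.GA Pool.Agent.GL Pool.Agent.GQ
open Pool.Agent.GBL (BdB)

namespace Pool.Agent.GLS

/-- a homomorphism of fields from equal polynomial relations -/
private theorem Cor_hom {σ K L : Type} [Field K] [Field L] [Algebra ℂ K] [Algebra ℂ L] (x : σ → K)
    (hx : IntermediateField.adjoin ℂ (Set.range x) = ⊤) (y : σ → L) (h : ∀ g : MvPolynomial σ ℂ, aeval x g = 0 ↔ aeval y g = 0) :
    ∃ φ : K →ₐ[ℂ] L, ∀ i, φ (x i) = y i := by
  let A := MvPolynomial σ ℂ ⧸ RingHom.ker (aeval x : MvPolynomial σ ℂ →ₐ[ℂ] K)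
  let f : A →ₐ[ℂ] K := Ideal.Quotient.liftₐ (RingHom.ker (aeval x : MvPolynomial σ ℂ →ₐ[ℂ] K)) (aeval x) fun g hg => hg
  let f' : A →ₐ[ℂ] L := Ideal.Quotient.liftₐ (RingHom.ker (aeval x : MvPolynomial σ ℂ →ₐ[ℂ] K)) (aeval y) fun g hg => (h g).1 hg
  have hi : Function.Injective f := by
    rw [injective_iff_map_eq_zero]
    intro g hg
    obtain ⟨g, rfl⟩ := Ideal.Quotient.mk_surjective g
    exact Ideal.Quotient.eq_zero_iff_mem.2 hg
  have hi' : Function.Injective f' := by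
    rw [injective_iff_map_eq_zero]
    intro g hg
    obtain ⟨g, rfl⟩ := Ideal.Quotient.mk_surjective g
    exact Ideal.Quotient.eq_zero_iff_mem.2 ((h g).2 hg)
  let _ : Algebra A K := f.toRingHom.toAlgebra
  have : IsScalarTower ℂ A K := IsScalarTower.of_algebraMap_eq fun c => (f.commutes c).symm
  have : FaithfulSMul A K := (faithfulSMul_iff_algebraMap_injective A K).2 hi
  have : IsFractionRing A K := IsFractionRing.of_field A K fun z => by
    have hz : z ∈ IntermediateField.adjoin ℂ (Set.range x) := by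
      rw [hx]
      trivial
    obtain ⟨r, s, e⟩ := (IntermediateField.mem_adjoin_range_iff ℂ x z).1 hz
    exact ⟨Ideal.Quotient.mk _ r, Ideal.Quotient.mk _ s, e⟩
  refine ⟨IsFractionRing.liftAlgHom (K := K) (g := f') hi', fun i => ?_⟩
  have e : x i = algebraMap A K (Ideal.Quotient.mk _ (X i)) := (aeval_X x i).symm
  rw [e, IsFractionRing.liftAlgHom_apply]
  refine (IsFractionRing.lift_algebraMap hi' _).trans ?_
  exact aeval_X y i

/-- the derivation of the quotient field, extended to the algebraic closure -/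
private theorem Cor_der {τ : Type} (𝔯 : Ideal (MvPolynomial τ ℂ)) [𝔯.IsPrime] (D : Derivation ℂ (MvPolynomial τ ℂ) (MvPolynomial τ ℂ)) (hD : ∀ g ∈ 𝔯, D g ∈ 𝔯) :
    ∃ u : Derivation ℂ (AlgebraicClosure (Gen.FF 𝔯)) (AlgebraicClosure (Gen.FF 𝔯)), ∀ g, u (algebraMap (Gen.FF 𝔯) _ (aeval (Gen.gp 𝔯) g)) = algebraMap (Gen.FF 𝔯) _ (aeval (Gen.gp 𝔯) (D g)) := by
  let A := MvPolynomial τ ℂ ⧸ 𝔯
  let L := Gen.FF 𝔯
  have hs : Function.Surjective (Ideal.Quotient.mkₐ ℂ 𝔯) := Ideal.Quotient.mk_surjective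
  let D₀ : Derivation ℂ A A := Derivation.liftOfSurjective (d := D) hs fun g hg =>
    Ideal.Quotient.eq_zero_iff_mem.2 (hD g (Ideal.Quotient.eq_zero_iff_mem.1 hg))
  have hD₀ : ∀ g, D₀ (Ideal.Quotient.mk 𝔯 g) = Ideal.Quotient.mk 𝔯 (D g) := fun g =>
    Derivation.liftOfSurjective_apply (d := D) hs (fun g hg => Ideal.Quotient.eq_zero_iff_mem.2 (hD g (Ideal.Quotient.eq_zero_iff_mem.1 hg))) g
  let D₁ : Derivation ℂ A L := (Algebra.linearMap A L).compDer D₀
  obtain ⟨D₂, hD₂⟩ := Pool.Agent.GA.exists_ext (A := A) (E := L) (FaithfulSMul.algebraMap_injective A L) D₁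
  obtain ⟨D₃, hD₃⟩ := exists_der_bar D₂
  refine ⟨D₃, fun g => ?_⟩
  rw [hD₃, Gen.aeval_gp, hD₂, Gen.aeval_gp, ← hD₀]
  rfl

variable {N : ℕ} {P : Ideal (MvPolynomial (Fin (N + 1)) ℂ)} {B : Finset (Fin (N + 1))} {J : ℕ} {m : Fin J → ℕ} {θ : ∀ k, LogSec P B (m k)} {b : Fin (N + 1)}

/-- the algebraic closure of the field of `𝔯` -/
theorem exists_bar [P.IsPrime] (hb : X b ∉ P) (𝔯 : Ideal (MvPolynomial (Ph (N + 1)) ℂ)) [𝔯.IsPrime] (D : Derivation ℂ (MvPolynomial (Ph (N + 1)) ℂ) (MvPolynomial (Ph (N + 1)) ℂ))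
    (hD : ∀ g ∈ 𝔯, D g ∈ 𝔯) (hc : ∀ q, rename ix q ∈ 𝔯 ↔ q ∈ aff P b)
    (hal : ∀ s, IsAlgebraic (IntermediateField.adjoin ℂ (Set.range fun i : Fin (N + 1) => Gen.gp 𝔯 (ix i))) (Gen.gp 𝔯 s)) :
    ∃ (M : Type) (_ : Field M) (_ : Algebra ℂ M) (_ : IsAlgClosed M) (_ : Algebra (FunField P) M) (_ : IsScalarTower ℂ (FunField P) M) (_ : Algebra.IsAlgebraic (FunField P) M)
      (u : Derivation ℂ M M) (y : Ph (N + 1) → M), (∀ g, aeval y g = 0 ↔ g ∈ 𝔯) ∧ (∀ i, y (ix i) = algebraMap (FunField P) M (ratio P i b)) ∧ ∀ g, u (aeval y g) = aeval y (D g) := by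
  obtain ⟨u, hu⟩ := Cor_der 𝔯 D hD
  have hcb : coordFun P b ≠ 0 := Pool.Agent.H17R.coordFun_ne_zero_iff.2 hb
  obtain ⟨φ, hφ⟩ := Cor_hom (fun i => ratio P i b) (Pool.Agent.H17R.adjoin_ratio hcb) (fun i => Gen.gp 𝔯 (ix i)) fun g => by
    have h1 : aeval (fun i => Gen.gp 𝔯 (ix i)) g = aeval (Gen.gp 𝔯) (rename ix g) := by
      rw [aeval_rename]
      rfl
    rw [h1, Gen.aeval_gp_eq_zero, hc, RingHom.mem_ker]
  let _ : Algebra (FunField P) (Gen.FF 𝔯) := φ.toRingHom.toAlgebra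
  have t1 : IsScalarTower ℂ (FunField P) (Gen.FF 𝔯) := IsScalarTower.of_algebraMap_eq fun c => (φ.commutes c).symm
  have hL : Algebra.IsAlgebraic (FunField P) (Gen.FF 𝔯) := by
    -- the range of `φ` contains the field generated by the base coordinates
    have h1 : ∀ s, IsAlgebraic (FunField P) (Gen.gp 𝔯 s) := by
      intro s
      have h2 : IntermediateField.adjoin ℂ (Set.range fun i : Fin (N + 1) => Gen.gp 𝔯 (ix i)) ≤ φ.fieldRange := by
        rw [IntermediateField.adjoin_le_iff]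
        rintro _ ⟨i, rfl⟩
        exact ⟨ratio P i b, hφ i⟩
      obtain ⟨p, hp0, hp⟩ := hal s
      have h3 : ∀ c : IntermediateField.adjoin ℂ (Set.range fun i : Fin (N + 1) => Gen.gp 𝔯 (ix i)), ∃ r : FunField P, φ r = (c : Gen.FF 𝔯) := fun c => h2 c.2
      choose r hr using h3
      have hφi : ∀ a c : FunField P, φ a = φ c → a = c := fun a c h => φ.toRingHom.injective h
      have hr0 : r 0 = 0 := by
        have := hr 0
        exact (map_eq_zero φ).1 this
      let ψ : IntermediateField.adjoin ℂ (Set.range fun i : Fin (N + 1) => Gen.gp 𝔯 (ix i)) →+* FunField P :=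
        { toFun := r
          map_zero' := hr0
          map_one' := hφi _ _ (by rw [hr, map_one]; rfl)
          map_add' := fun x y => hφi _ _ (by rw [hr, map_add, hr, hr]; rfl)
          map_mul' := fun x y => hφi _ _ (by rw [hr, map_mul, hr, hr]; rfl) }
      have hψ : ∀ c, algebraMap (FunField P) (Gen.FF 𝔯) (ψ c) = (c : Gen.FF 𝔯) := hr
      refine ⟨p.map ψ, (Polynomial.map_ne_zero_iff ψ.injective).2 hp0, ?_⟩
      rw [Polynomial.aeval_def, Polynomial.eval₂_map]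
      have h4 : (algebraMap (FunField P) (Gen.FF 𝔯)).comp ψ = algebraMap (IntermediateField.adjoin ℂ (Set.range fun i : Fin (N + 1) => Gen.gp 𝔯 (ix i))) (Gen.FF 𝔯) := RingHom.ext hψ
      rw [h4, ← Polynomial.aeval_def]
      exact hp
    refine ⟨fun z => ?_⟩
    obtain ⟨A, B', hB, rfl⟩ := Gen.exists_frac 𝔯 z
    have h5 : ∀ g : MvPolynomial (Ph (N + 1)) ℂ, IsAlgebraic (FunField P) (aeval (Gen.gp 𝔯) g) := by
      intro g
      induction g using MvPolynomial.induction_on with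
      | C c =>
        rw [aeval_C, IsScalarTower.algebraMap_apply ℂ (FunField P) (Gen.FF 𝔯)]
        exact isAlgebraic_algebraMap _
      | add p q hp hq =>
        rw [map_add]
        exact hp.add hq
      | mul_X p i hp =>
        rw [map_mul, aeval_X]
        exact hp.mul (h1 i)
    rw [div_eq_mul_inv]
    exact (h5 A).mul (h5 B').inv
  have t2 : IsScalarTower (FunField P) (Gen.FF 𝔯) (AlgebraicClosure (Gen.FF 𝔯)) := inferInstance
  have t3 : IsScalarTower ℂ (Gen.FF 𝔯) (AlgebraicClosure (Gen.FF 𝔯)) := inferInstance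
  have t4 : IsScalarTower ℂ (FunField P) (AlgebraicClosure (Gen.FF 𝔯)) := IsScalarTower.of_algebraMap_eq fun c => by
    rw [IsScalarTower.algebraMap_apply ℂ (Gen.FF 𝔯) (AlgebraicClosure (Gen.FF 𝔯)), IsScalarTower.algebraMap_apply (FunField P) (Gen.FF 𝔯) (AlgebraicClosure (Gen.FF 𝔯)),
      ← IsScalarTower.algebraMap_apply ℂ (FunField P) (Gen.FF 𝔯)]
  have hM : Algebra.IsAlgebraic (FunField P) (AlgebraicClosure (Gen.FF 𝔯)) := Algebra.IsAlgebraic.trans (FunField P) (Gen.FF 𝔯) (AlgebraicClosure (Gen.FF 𝔯))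
  have hy : ∀ g : MvPolynomial (Ph (N + 1)) ℂ, aeval (fun s => algebraMap (Gen.FF 𝔯) (AlgebraicClosure (Gen.FF 𝔯)) (Gen.gp 𝔯 s)) g = algebraMap (Gen.FF 𝔯) (AlgebraicClosure (Gen.FF 𝔯)) (aeval (Gen.gp 𝔯) g) := fun g =>
    MvPolynomial.aeval_algebraMap_apply _ _ _
  refine ⟨AlgebraicClosure (Gen.FF 𝔯), inferInstance, inferInstance, inferInstance, inferInstance, t4, hM, u, fun s => algebraMap (Gen.FF 𝔯) (AlgebraicClosure (Gen.FF 𝔯)) (Gen.gp 𝔯 s), ?_, ?_, ?_⟩
  · intro g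
    rw [hy, map_eq_zero, Gen.aeval_gp_eq_zero]
  · intro i
    show algebraMap (Gen.FF 𝔯) (AlgebraicClosure (Gen.FF 𝔯)) (Gen.gp 𝔯 (ix i)) = _
    rw [IsScalarTower.algebraMap_apply (FunField P) (Gen.FF 𝔯) (AlgebraicClosure (Gen.FF 𝔯)), ← hφ i]
    rfl
  · intro g
    rw [hy, hy, hu]

theorem coreL [P.IsPrime] (hP : Homog P) {n : ℕ} (hdim : ∃ z : Fin n → FunField P, IsTranscendenceBasis ℂ z) (hb : b ∈ B) (hX : ∀ i ∈ B, X i ∉ P)
    (hθ : LogPolar θ) (hm : ∀ k, 1 ≤ m k) (f : LFrame θ b) (hgt : IsLogGeneralType (K := FunField P) (k := n) (BdB P B)) (I : Fin (N + 2) → GIx f.q J) (i₀ : Fin (N + 1)) :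
    ∃ q ∉ aff P b, ∀ x ∈ Uc P B b, ∀ v ∈ Tc P b x, Crit (gfamL f) I (ePt B x v) → v i₀ ≠ 0 → eval x q = 0 := by
  classical
  rcases exists_slice_L f hdim (hX b hb) I (X (Sum.inr i₀.castSucc)) with ⟨q, hq, h⟩ | ⟨𝔯, h𝔯, hC, hv, hc, hst, hal⟩
  · refine ⟨q, hq, fun x hx v hv hcr hvi => h x hx v hv hcr ?_⟩
    rw [eval_X]
    show embV B x v i₀.castSucc ≠ 0
    unfold embV
    rw [Fin.snoc_castSucc]
    exact hvi
  exfalso
  have hS := lsol_of_slice f h𝔯 hC hv hst
  obtain ⟨k, hk1⟩ := hS.exists_tht hP hθ hm hb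
  obtain ⟨p, β, hβ⟩ := hS.exists_bez hθ hm hb k
  have hO := hS.orbs hP hθ hm hb hβ
  obtain ⟨s₀, hs₀⟩ := hS.not_poly hP hθ hm hb hβ hk1
  obtain ⟨M, _, _, _, _, _, _, u, y, hy0, hyx, hu⟩ := exists_bar (hX b hb) 𝔯 (DD f β) hO.stable hc hal
  have hit : ∀ (j : ℕ) (g : MvPolynomial (Ph (N + 1)) ℂ), (⇑u)^[j] (aeval y g) = aeval y ((⇑(DD f β))^[j] g) := by
    intro j
    induction j with
    | zero => exact fun g => rfl
    | succ j ih =>
      intro g
      rw [Function.iterate_succ_apply, hu, ih, Function.iterate_succ_apply]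
  have hrel : ∀ s, ConstRel u (y s) := by
    intro s
    obtain ⟨j, hj⟩ := exists_hk_mem hO hk1 (X s)
    apply wronskian u (n := j)
    have h1 : hk u j (y s) = aeval y (hk (DD f β) j (X s)) := by
      unfold hk
      rw [AlgHom.map_det]
      congr 1
      ext a c
      show (⇑u)^[(a : ℕ) + c] (y s) = aeval y ((⇑(DD f β))^[(a : ℕ) + c] (X s))
      rw [← hit, aeval_X]
    rw [h1, hy0]
    exact hj
  obtain ⟨r, lam, e, hl, he, hsp, i₁, he1, hl1⟩ := exists_family u y hrel ⟨s₀, fun j hj => hs₀ j (by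
    rw [← hy0, ← hit, aeval_X]
    exact hj)⟩
  obtain ⟨ν, hν, hg⟩ := exists_int hl1 (graded_lam hl he)
  refine not_logGT_of_graded hdim hb hX (M := M) (e := e) (ν := ν) ⟨i₁, he1, hν⟩ hg (fun i => ?_) ?_ hgt
  · rw [← hyx]
    exact hsp _
  · have h1 := (hy0 _).2 (hS.eqs (Sum.inr (Sum.inl ())))
    have h2 : aeval y (feq f (Sum.inr (Sum.inl ()))) = y (Sum.inl (Fin.last (N + 1))) * ∏ i ∈ B, y (ix i) - 1 := by
      show aeval y (X (Sum.inl (Fin.last (N + 1))) * ∏ l ∈ B, X (Sum.inl l.castSucc) - C (1 : ℂ)) = _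
      rw [map_sub, map_mul, map_prod, aeval_X, aeval_C, map_one]
      simp only [aeval_X]
      rfl
    rw [h2, sub_eq_zero] at h1
    have h3 : algebraMap (FunField P) M (∏ i ∈ B, ratio P i b)⁻¹ = y (Sum.inl (Fin.last (N + 1))) := by
      rw [map_inv₀, map_prod]
      simp only [← hyx]
      exact (eq_inv_of_mul_eq_one_left h1).symm
    rw [h3]
    exact hsp _

end Pool.Agent.GLS
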