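import Pool.Agent.GQ.SliceA
import Pool.Agent.GBL.Defs
import Pool.Agent.GL.Conc

/-!
# GLS Defs: logarithmic symmetric differentials on singular varieties (PROJECT GLS, note 4687)

`P` a homogeneous prime ideal, `Z` its projective variety (singular allowed), `B ≠ ∅`, `U` the complement of the hyperplane sections `x i = 0`, `i ∈ B`.  If the initial vectors of
the curves with constant `θ` are dense over `Z ∩ U`, there is a prime ideal `𝔯` of the phase space `Ph (N + 1)` with `LSol f 𝔯`, whose field is algebraic over the function field of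
`Z`.  All curves have order one, so the derivation is locally finite over its constants; the eigenvalues grade the field.
-/

set_option autoImplicit false

open MvPolynomial Topology Filter Metric
open Pool.Agent.H17LG.Variety (FunField ratio)
open Pool.Agent.GG Pool.Agent.GA Pool.Agent.GL Pool.Agent.GQ

noncomputable section

namespace Pool.Agent.GLS

/-! ## algebra -/

/-- The Hankel determinant `det (D^(i+j) g)`, `0 ≤ i, j ≤ n`. -/
def hk {A : Type} [CommRing A] [Algebra ℂ A] (D : Derivation ℂ A A) (n : ℕ) (g : A) : A := (Matrix.of fun i j : Fin (n + 1) => (⇑D)^[(i : ℕ) + j] g).det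

/-- `e` is a generalized eigenvector of `D` with the eigenvalue `lam`. -/
def Gev {M : Type} [Field M] [Algebra ℂ M] (D : Derivation ℂ M M) (lam e : M) : Prop := ∃ k : ℕ, (fun x => D x - lam * x)^[k] e = 0

/-- Linear equation with constant coefficients. -/
def ConstRel {M : Type} [Field M] [Algebra ℂ M] (D : Derivation ℂ M M) (y : M) : Prop :=
  ∃ (n : ℕ) (a : Fin (n + 1) → M), a ≠ 0 ∧ (∀ j, D (a j) = 0) ∧ ∑ j, a j * (⇑D)^[(j : ℕ)] y = 0

/-- The polynomial relations of the `e i` are graded by the weights `ν i`. -/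
def Graded {M : Type} [Field M] [Algebra ℂ M] {Γ : Type} [AddCommGroup Γ] {p : ℕ} (e : Fin p → M) (ν : Fin p → Γ) : Prop :=
  ∀ G : MvPolynomial (Fin p) ℂ, aeval e G = 0 → ∀ v : Γ, aeval e (weightedHomogeneousComponent ν v G) = 0

/-! ## orbits -/

section

variable {τ : Type} [Fintype τ]

omit [Fintype τ] in
/-- `w` is a zero of the ideal -/
def Zr (I : Ideal (MvPolynomial τ ℂ)) (w : τ → ℂ) : Prop := ∀ g ∈ I, eval w g = 0

/-- `D` preserves `𝔯`, `c` and the `h k` are constants modulo `𝔯`; for all points `w` of `V (𝔯)`, `c (w) ≠ 0`, with given values of `c` and the `h k`, the orbits of the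
vector field `D` through `w` exist for `‖z‖ < r`, and are bounded by `C (1 + ‖w‖) ^ κ`. -/
structure Orbs (𝔯 : Ideal (MvPolynomial τ ℂ)) (D : Derivation ℂ (MvPolynomial τ ℂ) (MvPolynomial τ ℂ)) (c : MvPolynomial τ ℂ) {J : ℕ} (h : Fin J → MvPolynomial τ ℂ) : Prop where
  stable : ∀ g ∈ 𝔯, D g ∈ 𝔯
  constc : D c ∈ 𝔯
  const : ∀ k, D (h k) ∈ 𝔯
  orbit : ∀ w₀, Zr 𝔯 w₀ → eval w₀ c ≠ 0 → ∃ (r C : ℝ) (κ : ℕ), 0 < r ∧ ∀ w, Zr 𝔯 w → eval w c = eval w₀ c → (∀ k, eval w (h k) = eval w₀ (h k)) →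
    ∃ Y : ℂ → τ → ℂ, Y 0 = w ∧ (∀ z ∈ ball (0 : ℂ) r, HasDerivAt Y (fun s => eval (Y z) (D (X s))) z) ∧ ∀ z ∈ ball (0 : ℂ) r, ‖Y z‖ ≤ C * (1 + ‖w‖) ^ κ

end

/-! ## the logarithmic phase space -/

variable {N : ℕ} {P : Ideal (MvPolynomial (Fin (N + 1)) ℂ)} {B : Finset (Fin (N + 1))} {J : ℕ} {m : Fin J → ℕ} {θ : ∀ k, LogSec P B (m k)} {b : Fin (N + 1)}

/-- the members of the family with fixed values: `x_b`, `v_b`, `Q_j (x)`, `dQ_j (x) v`, `y ∏ x_i`, `d (y ∏ x_i)` -/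
def feq (f : LFrame θ b) : ((Unit ⊕ Unit) ⊕ (Fin f.q ⊕ Fin f.q)) ⊕ (Unit ⊕ Unit) → MvPolynomial (Ph (N + 1)) ℂ :=
  Sum.elim (fun l => gfamL f (Sum.inl l) - C (gval (q := f.q) (0 : Fin J → ℂ) (Sum.inl l)))
    fun l => gfamL f (Sum.inr (Sum.inl l)) - C (gval (q := f.q) (0 : Fin J → ℂ) (Sum.inr (Sum.inl l)))

/-- `θ k` as a polynomial on the phase space -/
def tht (f : LFrame θ b) (k : Fin J) : MvPolynomial (Ph (N + 1)) ℂ := gfamL f (Sum.inr (Sum.inr k))

/-- the equations of the criterion -/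
def CSL (f : LFrame θ b) (I : Fin (N + 2) → GIx f.q J) : Set (MvPolynomial (Ph (N + 1)) ℂ) :=
  {g | (∃ l, g = feq f l) ∨ ∃ l k, g = (⇑(Dt (gfamL f) I))^[k + 1] (gfamL f l)}

/-- the position of a point of the logarithmic phase space, without the additional coordinate -/
def ix (i : Fin (N + 1)) : Ph (N + 1) := Sum.inl i.castSucc

/-- A family of curves with constant `θ`: `𝔯` is prime, contains the equations, is preserved by all `Dt K`; the `Dt K` are proportional, and `0` on the family. -/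
structure LSol (f : LFrame θ b) (𝔯 : Ideal (MvPolynomial (Ph (N + 1)) ℂ)) : Prop where
  prime : 𝔯.IsPrime
  eqs : ∀ l, feq f l ∈ 𝔯
  stable : ∀ K, ∀ g ∈ 𝔯, Dt (gfamL f) K g ∈ 𝔯
  crit : ∀ K l, Dt (gfamL f) K (gfamL f l) ∈ 𝔯
  cross : ∀ K K' g, vdet (gfamL f) K * Dt (gfamL f) K' g - vdet (gfamL f) K' * Dt (gfamL f) K g ∈ 𝔯
  ne : ∃ i, X (Sum.inr (Fin.castSucc i)) ∉ 𝔯

/-- the derivation `∑ β K • Dt K` of the polynomial ring -/
def DD (f : LFrame θ b) (β : (Fin (N + 2) → GIx f.q J) → MvPolynomial (Ph (N + 1)) ℂ) :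
    Derivation ℂ (MvPolynomial (Ph (N + 1)) ℂ) (MvPolynomial (Ph (N + 1)) ℂ) := ∑ K, β K • Dt (gfamL f) K

/-- `θ k ^ p = ∑ β K vdet K` modulo `𝔯` -/
def Bez (f : LFrame θ b) (𝔯 : Ideal (MvPolynomial (Ph (N + 1)) ℂ)) (k : Fin J) (p : ℕ) (β : (Fin (N + 2) → GIx f.q J) → MvPolynomial (Ph (N + 1)) ℂ) : Prop :=
  tht f k ^ p - ∑ K, β K * vdet (gfamL f) K ∈ 𝔯

end Pool.Agent.GLS
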