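import Pool.Agent.GLS.Defs
import Pool.Agent.GLS.Pts

/-!
# GLS Deg: the growth bounds the degree

PROOF.  Each `X i` is integral over `T = ℂ[t]`: at a point `χ` over `t₀` the root bound gives `‖χ (π (X i))‖ ≤ C (1 + ‖t₀‖) ^ K`.  So if `‖χ g‖ ≤ C (1 + ‖χ (π X)‖) ^ κ` then all roots of the
minimal polynomial of `g` at `t₀` (`pts_of_minpoly`) are bounded by `C' (1 + ‖t₀‖) ^ (κ K)`, and so is `nextCoeff` (minus the sum of the roots; the degree is fixed, `minpoly` is monic).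
`totalDegree_le_of_growth`: restrict the top homogeneous component to a line through `0`.
-/

set_option autoImplicit false

open MvPolynomial Topology Filter Metric
open Pool.Agent.H13.SM (conTan cone)
open Pool.Agent.H17 (PN VanishesAt HolomorphicInto puncturedDisc)
open Pool.Agent.H17EF (projVar)
open Pool.Agent.H17GT (coordFun)
open Pool.Agent.H17LG.Variety (FunField ratio IsLogGeneralType)
open Pool.Agent.H62.FC (Homog)
open Pool.Agent.GG Pool.Agent.GA Pool.Agent.GL Pool.Agent.GQ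
open Pool.Agent.GBL (BdB)

namespace Pool.Agent.GLS

/-- scaling a homogeneous polynomial -/
theorem eval_smul_homog {σ : Type} {p : MvPolynomial σ ℂ} {n : ℕ} (hp : p.IsHomogeneous n) (c : ℂ) (b : σ → ℂ) :
    eval (c • b) p = c ^ n * eval b p := by
  rw [eval_eq, eval_eq, Finset.mul_sum]
  refine Finset.sum_congr rfl fun m hm => ?_
  have hdeg : (∑ i ∈ m.support, m i) = n := by
    have := hp (mem_support_iff.1 hm)
    rw [Finsupp.weight_apply] at this
    simpa [Finsupp.sum] using this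
  have : (∏ i ∈ m.support, (c • b) i ^ m i) = c ^ n * ∏ i ∈ m.support, b i ^ m i := by
    rw [← hdeg, ← Finset.prod_pow_eq_pow_sum, ← Finset.prod_mul_distrib]
    refine Finset.prod_congr rfl fun i _ => ?_
    rw [Pi.smul_apply, smul_eq_mul, mul_pow]
  rw [this]
  ring

private theorem deg_aux {σ : Type} [Fintype σ] (p : MvPolynomial σ ℂ) {C : ℝ} {κ : ℕ}
    (h : ∀ b : σ → ℂ, ‖eval b p‖ ≤ C * (1 + ‖b‖) ^ κ) : p.totalDegree ≤ κ := by
  by_contra hlt
  push Not at hlt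
  set D := p.totalDegree with hD
  have hp0 : p ≠ 0 := by
    rintro rfl
    rw [totalDegree_zero] at hD
    omega
  -- the leading form
  have hlead : homogeneousComponent D p ≠ 0 := by
    obtain ⟨m, hm, hmd⟩ := Finset.exists_mem_eq_sup p.support (support_nonempty.2 hp0) (fun s => s.sum fun _ e => e)
    intro h0
    have h1 : coeff m (homogeneousComponent D p) = coeff m p := by
      rw [coeff_homogeneousComponent, if_pos]
      rw [hD, totalDegree, hmd]
      simp only [Finsupp.degree, Finsupp.sum]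
      rfl
    rw [h0, coeff_zero] at h1
    exact mem_support_iff.1 hm h1.symm
  obtain ⟨b, hb⟩ : ∃ b : σ → ℂ, eval b (homogeneousComponent D p) ≠ 0 := by
    by_contra hcon
    push Not at hcon
    exact hlead (MvPolynomial.funext fun x => by rw [hcon x, map_zero])
  set a : ℕ → ℂ := fun i => eval b (homogeneousComponent i p) with ha
  have hexp : ∀ s : ℂ, eval (s • b) p = ∑ i ∈ Finset.range (D + 1), s ^ i * a i := by
    intro s
    conv_lhs => rw [← sum_homogeneousComponent p]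
    rw [map_sum]
    exact Finset.sum_congr rfl fun i _ => eval_smul_homog (homogeneousComponent_isHomogeneous i p) s b
  -- bound
  have hC : 0 ≤ C := by
    have := h 0
    have h2 : (0 : ℝ) ≤ C * (1 + ‖(0 : σ → ℂ)‖) ^ κ := (norm_nonneg _).trans this
    simpa using h2
  obtain ⟨D', hD'⟩ : ∃ D', D = D' + 1 := ⟨D - 1, by omega⟩
  have hkey : ∀ t : ℝ, 1 ≤ t → ‖a D‖ * t ≤ C * (1 + ‖b‖) ^ κ + ∑ i ∈ Finset.range D, ‖a i‖ := by
    intro t ht
    have ht0 : 0 < t := by linarith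
    have hn : ‖(t : ℂ)‖ = t := by simp [abs_of_pos ht0]
    have e1 := hexp (t : ℂ)
    rw [Finset.sum_range_succ] at e1
    have e2 : (t : ℂ) ^ D * a D = eval ((t : ℂ) • b) p - ∑ i ∈ Finset.range D, (t : ℂ) ^ i * a i := by
      rw [e1]; ring
    have e3 : t ^ D * ‖a D‖ ≤ C * (1 + ‖(t : ℂ) • b‖) ^ κ + ∑ i ∈ Finset.range D, t ^ i * ‖a i‖ := by
      calc t ^ D * ‖a D‖ = ‖(t : ℂ) ^ D * a D‖ := by rw [norm_mul, norm_pow, hn]
        _ ≤ ‖eval ((t : ℂ) • b) p‖ + ‖∑ i ∈ Finset.range D, (t : ℂ) ^ i * a i‖ := by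
            rw [e2]; exact norm_sub_le _ _
        _ ≤ C * (1 + ‖(t : ℂ) • b‖) ^ κ + ∑ i ∈ Finset.range D, t ^ i * ‖a i‖ := by
            refine add_le_add (h _) ((norm_sum_le _ _).trans (le_of_eq ?_))
            refine Finset.sum_congr rfl fun i _ => ?_
            rw [norm_mul, norm_pow, hn]
    have e4 : (1 + ‖(t : ℂ) • b‖) ^ κ ≤ t ^ D' * (1 + ‖b‖) ^ κ := by
      have h1 : 1 + ‖(t : ℂ) • b‖ ≤ t * (1 + ‖b‖) := by
        rw [norm_smul, hn]
        nlinarith [norm_nonneg b]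
      calc (1 + ‖(t : ℂ) • b‖) ^ κ ≤ (t * (1 + ‖b‖)) ^ κ := pow_le_pow_left₀ (by positivity) h1 _
        _ = t ^ κ * (1 + ‖b‖) ^ κ := mul_pow _ _ _
        _ ≤ t ^ D' * (1 + ‖b‖) ^ κ := by
            refine mul_le_mul_of_nonneg_right (pow_le_pow_right₀ ht (by omega)) (by positivity)
    have e5 : ∑ i ∈ Finset.range D, t ^ i * ‖a i‖ ≤ t ^ D' * ∑ i ∈ Finset.range D, ‖a i‖ := by
      rw [Finset.mul_sum]
      refine Finset.sum_le_sum fun i hi => mul_le_mul_of_nonneg_right (pow_le_pow_right₀ ht ?_) (norm_nonneg _)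
      have := Finset.mem_range.1 hi
      omega
    have e6 : t ^ D' * (‖a D‖ * t) ≤ t ^ D' * (C * (1 + ‖b‖) ^ κ + ∑ i ∈ Finset.range D, ‖a i‖) := by
      calc t ^ D' * (‖a D‖ * t) = t ^ D * ‖a D‖ := by rw [hD', pow_succ]; ring
        _ ≤ C * (1 + ‖(t : ℂ) • b‖) ^ κ + ∑ i ∈ Finset.range D, t ^ i * ‖a i‖ := e3
        _ ≤ C * (t ^ D' * (1 + ‖b‖) ^ κ) + t ^ D' * ∑ i ∈ Finset.range D, ‖a i‖ := by gcongr
        _ = t ^ D' * (C * (1 + ‖b‖) ^ κ + ∑ i ∈ Finset.range D, ‖a i‖) := by ring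
    exact le_of_mul_le_mul_left e6 (pow_pos ht0 _)
  have hpos : 0 < ‖a D‖ := norm_pos_iff.2 hb
  set R := C * (1 + ‖b‖) ^ κ + ∑ i ∈ Finset.range D, ‖a i‖ with hR
  have := hkey (max 1 ((R + 1) / ‖a D‖)) (le_max_left _ _)
  have h2 : R + 1 ≤ ‖a D‖ * max 1 ((R + 1) / ‖a D‖) := by
    calc R + 1 = ‖a D‖ * ((R + 1) / ‖a D‖) := by field_simp
      _ ≤ _ := mul_le_mul_of_nonneg_left (le_max_right _ _) hpos.le
  linarith

theorem totalDegree_le_of_growth {s : ℕ} {p : MvPolynomial (Fin s) ℂ} {C : ℝ} {K : ℕ} (h : ∀ t : Fin s → ℂ, ‖eval t p‖ ≤ C * (1 + ‖t‖) ^ K) : p.totalDegree ≤ K :=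
  deg_aux p h

private theorem growth_poly {s : ℕ} (q : MvPolynomial (Fin s) ℂ) : ∃ C : ℝ, 0 ≤ C ∧ ∀ t : Fin s → ℂ, ‖eval t q‖ ≤ C * (1 + ‖t‖) ^ q.totalDegree := by
  refine ⟨∑ m ∈ q.support, ‖coeff m q‖, Finset.sum_nonneg fun _ _ => norm_nonneg _, fun t => ?_⟩
  rw [eval_eq, Finset.sum_mul]
  refine (norm_sum_le _ _).trans (Finset.sum_le_sum fun m hm => ?_)
  rw [norm_mul]
  refine mul_le_mul_of_nonneg_left ?_ (norm_nonneg _)
  rw [norm_prod]
  calc ∏ i ∈ m.support, ‖t i ^ m i‖ ≤ ∏ i ∈ m.support, (1 + ‖t‖) ^ m i := by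
        refine Finset.prod_le_prod (fun _ _ => norm_nonneg _) fun i _ => ?_
        rw [norm_pow]
        refine pow_le_pow_left₀ (norm_nonneg _) ?_ _
        have := norm_le_pi_norm t i
        linarith
    _ = (1 + ‖t‖) ^ (∑ i ∈ m.support, m i) := Finset.prod_pow_eq_pow_sum _ _ _
    _ ≤ (1 + ‖t‖) ^ q.totalDegree := by
        refine pow_le_pow_right₀ (by linarith [norm_nonneg t]) ?_
        exact le_totalDegree hm

private theorem root_bound {s : ℕ} (f : Polynomial (MvPolynomial (Fin s) ℂ)) (hf : f.Monic) : ∃ (C : ℝ) (K : ℕ), 0 ≤ C ∧ ∀ (t : Fin s → ℂ) (a : ℂ),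
    (f.map (eval t)).eval a = 0 → ‖a‖ ≤ C * (1 + ‖t‖) ^ K := by
  choose Cf hCf hCf2 using fun j : ℕ => growth_poly (f.coeff j)
  set K := (Finset.range f.natDegree).sup fun j => (f.coeff j).totalDegree with hK
  set C := ∑ j ∈ Finset.range f.natDegree, Cf j with hC
  have hC0 : 0 ≤ C := Finset.sum_nonneg fun j _ => hCf j
  refine ⟨C + 1, K, by linarith, fun t a ha => ?_⟩
  have hmon : (f.map (eval t)).Monic := hf.map _
  have h1 := Polynomial.IsRoot.norm_lt_cauchyBound hmon.ne_zero (a := a) ha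
  have hnd : (f.map (eval t)).natDegree = f.natDegree := hf.natDegree_map _
  have hone : (1 : ℝ) ≤ (1 + ‖t‖) ^ K := one_le_pow₀ (by linarith [norm_nonneg t])
  have hB : 0 ≤ C * (1 + ‖t‖) ^ K := by positivity
  have h2 : (Finset.range (f.map (eval t)).natDegree).sup (fun x => ‖(f.map (eval t)).coeff x‖₊) ≤ Real.toNNReal (C * (1 + ‖t‖) ^ K) := by
    refine Finset.sup_le fun j hj => ?_
    rw [hnd] at hj
    rw [Real.le_toNNReal_iff_coe_le hB, coe_nnnorm, Polynomial.coeff_map]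
    calc ‖eval t (f.coeff j)‖ ≤ Cf j * (1 + ‖t‖) ^ (f.coeff j).totalDegree := hCf2 j t
      _ ≤ C * (1 + ‖t‖) ^ K := by
          refine mul_le_mul (Finset.single_le_sum (fun j _ => hCf j) hj) ?_ (by positivity) hC0
          exact pow_le_pow_right₀ (by linarith [norm_nonneg t]) (Finset.le_sup (f := fun j => (f.coeff j).totalDegree) hj)
  have h3 : ‖a‖ < (Polynomial.cauchyBound (f.map (eval t)) : ℝ) := by exact_mod_cast h1
  rw [Polynomial.cauchyBound, hmon.leadingCoeff, nnnorm_one, div_one, NNReal.coe_add, NNReal.coe_one] at h3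
  have h4 : (((Finset.range (f.map (eval t)).natDegree).sup (fun x => ‖(f.map (eval t)).coeff x‖₊) : NNReal) : ℝ) ≤ C * (1 + ‖t‖) ^ K :=
    (Real.le_toNNReal_iff_coe_le hB).1 h2
  nlinarith

theorem exists_degree_bound {τ : Type} [Fintype τ] {A : Type} [CommRing A] [IsDomain A] [Algebra ℂ A] (π : MvPolynomial τ ℂ →ₐ[ℂ] A) (hπ : Function.Surjective π)
    {s : ℕ} [Algebra (MvPolynomial (Fin s) ℂ) A] [IsScalarTower ℂ (MvPolynomial (Fin s) ℂ) A] (hinj : Function.Injective (algebraMap (MvPolynomial (Fin s) ℂ) A))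
    [Algebra.IsIntegral (MvPolynomial (Fin s) ℂ) A] :
    ∃ K : ℕ, ∀ (κ : ℕ) (g : A), (∃ C : ℝ, ∀ χ : A →ₐ[ℂ] ℂ, ‖χ g‖ ≤ C * (1 + ‖fun i => χ (π (X i))‖) ^ κ) →
      (minpoly (MvPolynomial (Fin s) ℂ) g).nextCoeff.totalDegree ≤ κ * K := by
  classical
  have hint : ∀ i, IsIntegral (MvPolynomial (Fin s) ℂ) (π (X i)) := fun i => Algebra.IsIntegral.isIntegral _
  choose Cr Kr hCr hroot using fun i => root_bound (minpoly (MvPolynomial (Fin s) ℂ) (π (X i))) (minpoly.monic (hint i))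
  set K := Finset.univ.sup Kr with hK
  set C0 := ∑ i, Cr i with hC0d
  have hC0 : 0 ≤ C0 := Finset.sum_nonneg fun i _ => hCr i
  have hpos : ∀ (t₀ : Fin s → ℂ) (χ : A →ₐ[ℂ] ℂ), (∀ p : MvPolynomial (Fin s) ℂ, χ (algebraMap _ A p) = eval t₀ p) →
      ‖fun i => χ (π (X i))‖ ≤ C0 * (1 + ‖t₀‖) ^ K := by
    intro t₀ χ hχ
    refine (pi_norm_le_iff_of_nonneg (by positivity)).2 fun i => ?_
    have hev : ((minpoly (MvPolynomial (Fin s) ℂ) (π (X i))).map (eval t₀)).eval (χ (π (X i))) = 0 := by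
      have h0 := minpoly.aeval (MvPolynomial (Fin s) ℂ) (π (X i))
      have h1 : χ (Polynomial.aeval (π (X i)) (minpoly (MvPolynomial (Fin s) ℂ) (π (X i)))) = 0 := by rw [h0, map_zero]
      rw [Polynomial.eval_map, Polynomial.eval₂_eq_sum_range]
      rw [Polynomial.aeval_eq_sum_range, map_sum] at h1
      rw [← h1]
      refine Finset.sum_congr rfl fun j _ => ?_
      rw [Algebra.smul_def, map_mul, map_pow, hχ]
    refine (hroot i t₀ _ hev).trans ?_
    refine mul_le_mul (Finset.single_le_sum (fun i _ => hCr i) (Finset.mem_univ i)) ?_ (by positivity) hC0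
    exact pow_le_pow_right₀ (by linarith [norm_nonneg t₀]) (Finset.le_sup (Finset.mem_univ i))
  refine ⟨K, ?_⟩
  rintro κ g ⟨C, hC⟩
  set f := minpoly (MvPolynomial (Fin s) ℂ) g with hf
  have hfm : f.Monic := minpoly.monic (Algebra.IsIntegral.isIntegral g)
  refine totalDegree_le_of_growth (C := f.natDegree * (|C| * (1 + C0) ^ κ)) fun t => ?_
  have hm : (f.map (eval t)).Monic := hfm.map _
  have hnc : (f.map (eval t)).nextCoeff = eval t f.nextCoeff := by
    refine Polynomial.nextCoeff_map_of_leadingCoeff_ne_zero _ ?_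
    rw [hfm.leadingCoeff, map_one]
    exact one_ne_zero
  have hsp : (f.map (eval t)).Splits := IsAlgClosed.splits _
  rw [← hnc, hsp.nextCoeff_eq_neg_sum_roots_of_monic hm, norm_neg]
  have hcard : (f.map (eval t)).roots.card = f.natDegree := by
    rw [← hsp.natDegree_eq_card_roots, hfm.natDegree_map]
  have hbd : ∀ z ∈ (f.map (eval t)).roots, ‖z‖ ≤ |C| * (1 + C0) ^ κ * (1 + ‖t‖) ^ (κ * K) := by
    intro z hz
    have hz0 : (f.map (eval t)).eval z = 0 := (Polynomial.mem_roots'.1 hz).2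
    obtain ⟨χ, hχ, hχg⟩ := pts_of_minpoly π hπ hinj g hz0
    rw [← hχg]
    have h1 : (0 : ℝ) < 1 + ‖fun i => χ (π (X i))‖ := by positivity
    have hone : (1 : ℝ) ≤ (1 + ‖t‖) ^ K := one_le_pow₀ (by linarith [norm_nonneg t])
    calc ‖χ g‖ ≤ C * (1 + ‖fun i => χ (π (X i))‖) ^ κ := hC χ
      _ ≤ |C| * (1 + ‖fun i => χ (π (X i))‖) ^ κ := mul_le_mul_of_nonneg_right (le_abs_self _) (by positivity)
      _ ≤ |C| * ((1 + C0) * (1 + ‖t‖) ^ K) ^ κ := by
          refine mul_le_mul_of_nonneg_left (pow_le_pow_left₀ h1.le ?_ _) (abs_nonneg _)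
          have := hpos t χ hχ
          nlinarith
      _ = |C| * (1 + C0) ^ κ * (1 + ‖t‖) ^ (κ * K) := by rw [mul_pow, ← pow_mul, mul_comm K κ]; ring
  calc ‖(f.map (eval t)).roots.sum‖ ≤ ((f.map (eval t)).roots.map fun z => ‖z‖).sum := norm_multiset_sum_le _
    _ ≤ (((f.map (eval t)).roots.map fun z => ‖z‖).card) • (|C| * (1 + C0) ^ κ * (1 + ‖t‖) ^ (κ * K)) := by
        refine Multiset.sum_le_card_nsmul _ _ fun x hx => ?_
        obtain ⟨z, hz, rfl⟩ := Multiset.mem_map.1 hx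
        exact hbd z hz
    _ = f.natDegree * (|C| * (1 + C0) ^ κ) * (1 + ‖t‖) ^ (κ * K) := by
        rw [Multiset.card_map, hcard, nsmul_eq_mul]; ring

end Pool.Agent.GLS
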