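import Mathlib

/-!
# GLS FdB: the roots of the minimal polynomial are values at points
-/

set_option autoImplicit false

open MvPolynomial

noncomputable section

namespace Pool.Agent.GLS

variable {τ : Type} [Finite τ] {R A : Type} [CommRing R] [IsDomain R] [IsIntegrallyClosed R] [CommRing A] [IsDomain A] [Algebra R A] [Module.Finite R A] [FaithfulSMul R A]

/-- the point over a root -/
theorem exists_pt {π : MvPolynomial τ ℂ →+* A} (hπ : Function.Surjective π) {ι : ℂ →+* R} (hι : ∀ c, π (C c) = algebraMap R A (ι c)) {ε : R →+* ℂ} (hε : ∀ c, ε (ι c) = c)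
    (x : A) {t₀ : ℂ} (ht : ((minpoly R x).map ε).IsRoot t₀) :
    ∃ w : τ → ℂ, (∀ (r : R) (q : MvPolynomial τ ℂ), π q = algebraMap R A r → eval w q = ε r) ∧ ∀ q, π q = x → eval w q = t₀ := by
  classical
  have hint : Algebra.IsIntegral R A := inferInstance
  have hx : IsIntegral R x := hint.isIntegral x
  obtain ⟨ψ, hψ⟩ : ∃ ψ : AdjoinRoot (minpoly R x) →+* ℂ, ψ = AdjoinRoot.lift ε t₀ (by
    rw [← Polynomial.eval_map]
    exact ht) := ⟨_, rfl⟩
  obtain ⟨φ, hφ⟩ : ∃ φ : Algebra.adjoin R {x} →+* ℂ, φ = ψ.comp ((minpoly.equivAdjoin hx).symm : Algebra.adjoin R {x} →+* AdjoinRoot (minpoly R x)) := ⟨_, rfl⟩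
  have hφr : ∀ r, φ (algebraMap R _ r) = ε r := by
    intro r
    have h1 : (minpoly.equivAdjoin hx).symm (algebraMap R _ r) = algebraMap R _ r := AlgEquiv.commutes _ _
    rw [hφ]
    show ψ ((minpoly.equivAdjoin hx).symm (algebraMap R _ r)) = _
    rw [h1, hψ]
    exact AdjoinRoot.lift_of _
  have hφx : ∀ h, φ ⟨x, h⟩ = t₀ := by
    intro h
    have h1 : (minpoly.equivAdjoin hx).symm ⟨x, h⟩ = AdjoinRoot.root _ := by
      rw [AlgEquiv.symm_apply_eq]
      apply Subtype.ext
      rw [minpoly.coe_equivAdjoin]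
      simp [AdjoinRoot.Minpoly.toAdjoin]
    rw [hφ]
    show ψ ((minpoly.equivAdjoin hx).symm ⟨x, h⟩) = _
    rw [h1, hψ]
    exact AdjoinRoot.lift_root _
  have hsurj : Function.Surjective φ := fun c => ⟨algebraMap R _ (ι c), by rw [hφr, hε]⟩
  have hmax : (RingHom.ker φ).IsMaximal := RingHom.ker_isMaximal_of_surjective φ hsurj
  have hint2 : Algebra.IsIntegral (Algebra.adjoin R {x}) A := Algebra.IsIntegral.tower_top (R := R)
  obtain ⟨Q, hQ, hQc⟩ := Ideal.exists_ideal_over_maximal_of_isIntegral (S := A) (RingHom.ker φ) (by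
    have h1 : Function.Injective (algebraMap (Algebra.adjoin R {x}) A) := Subtype.val_injective
    rw [(RingHom.injective_iff_ker_eq_bot _).1 h1]
    exact bot_le)
  have hM : (Q.comap π).IsMaximal := Ideal.comap_isMaximal_of_surjective _ hπ
  obtain ⟨w, hw⟩ := isMaximal_iff_eq_vanishingIdeal_singleton.1 hM
  have hmem : ∀ q : MvPolynomial τ ℂ, π q ∈ Q → eval w q = 0 := by
    intro q hq
    have h1 : q ∈ vanishingIdeal ℂ {w} := by
      rw [← hw]
      exact hq
    have h2 := (mem_vanishingIdeal_singleton_iff _ _).1 h1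
    exact h2
  have hQm : ∀ y : Algebra.adjoin R {x}, φ y = 0 → (y : A) ∈ Q := by
    intro y hy
    have h1 : y ∈ Q.comap (algebraMap (Algebra.adjoin R {x}) A) := by
      rw [hQc]
      exact hy
    exact h1
  refine ⟨w, fun r q hq => ?_, fun q hq => ?_⟩
  · have h2 := hQm (algebraMap R _ (r - ι (ε r))) (by rw [hφr, map_sub, hε, sub_self])
    have h3 : π (q - C (ε r)) = ((algebraMap R (Algebra.adjoin R {x}) (r - ι (ε r)) : Algebra.adjoin R {x}) : A) := by
      rw [map_sub, hq, hι, ← map_sub]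
      rfl
    have h4 := hmem (q - C (ε r)) (by rw [h3]; exact h2)
    rw [map_sub, eval_C] at h4
    exact sub_eq_zero.1 h4
  · have hxm : x ∈ Algebra.adjoin R {x} := Algebra.subset_adjoin (Set.mem_singleton x)
    have h2 := hQm (⟨x, hxm⟩ - algebraMap R _ (ι t₀)) (by rw [map_sub, hφx, hφr, hε, sub_self])
    have h3 : π (q - C t₀) = ((⟨x, hxm⟩ - algebraMap R (Algebra.adjoin R {x}) (ι t₀) : Algebra.adjoin R {x}) : A) := by
      rw [map_sub, hq, hι]
      rfl
    have h4 := hmem (q - C t₀) (by rw [h3]; exact h2)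
    rw [map_sub, eval_C] at h4
    exact sub_eq_zero.1 h4

end Pool.Agent.GLS
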