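import Mathlib

/-!
# GLS FdC: growth and degree; `deg_le_of_growth` is by helper98
-/

set_option autoImplicit false

open MvPolynomial

noncomputable section

namespace Pool.Agent.GLS.FdC

/-- scaling a homogeneous polynomial -/
theorem eval_smul_homog {σ : Type} {p : MvPolynomial σ ℂ} {n : ℕ} (hp : p.IsHomogeneous n) (c : ℂ) (b : σ → ℂ) :
    eval (c • b) p = c ^ n * eval b p := by
  rw [eval_eq, eval_eq, Finset.mul_sum]
  refine Finset.sum_congr rfl fun m hm => ?_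
  have hdeg : (∑ i ∈ m.support, m i) = n := by
    have := hp (mem_support_iff.1 hm)
    rw [Finsupp.weight_apply] at this
    simpa [Finsupp.sum] using this
  have : (∏ i ∈ m.support, (c • b) i ^ m i) = c ^ n * ∏ i ∈ m.support, b i ^ m i := by
    rw [← hdeg, ← Finset.prod_pow_eq_pow_sum, ← Finset.prod_mul_distrib]
    refine Finset.prod_congr rfl fun i _ => ?_
    rw [Pi.smul_apply, smul_eq_mul, mul_pow]
  rw [this]
  ring

/-- a polynomial of growth `κ` has degree at most `κ` -/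
theorem deg_le_of_growth {σ : Type} [Fintype σ] (p : MvPolynomial σ ℂ) {C : ℝ} {κ : ℕ}
    (h : ∀ b : σ → ℂ, ‖eval b p‖ ≤ C * (1 + ‖b‖) ^ κ) : p.totalDegree ≤ κ := by
  by_contra hlt
  push Not at hlt
  set D := p.totalDegree with hD
  have hp0 : p ≠ 0 := by
    rintro rfl
    rw [totalDegree_zero] at hD
    omega
  -- the leading form
  have hlead : homogeneousComponent D p ≠ 0 := by
    obtain ⟨m, hm, hmd⟩ := Finset.exists_mem_eq_sup p.support (support_nonempty.2 hp0) (fun s => s.sum fun _ e => e)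
    intro h0
    have h1 : coeff m (homogeneousComponent D p) = coeff m p := by
      rw [coeff_homogeneousComponent, if_pos]
      rw [hD, totalDegree, hmd]
      simp only [Finsupp.degree, Finsupp.sum]
      rfl
    rw [h0, coeff_zero] at h1
    exact mem_support_iff.1 hm h1.symm
  obtain ⟨b, hb⟩ : ∃ b : σ → ℂ, eval b (homogeneousComponent D p) ≠ 0 := by
    by_contra hcon
    push Not at hcon
    exact hlead (MvPolynomial.funext fun x => by rw [hcon x, map_zero])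
  set a : ℕ → ℂ := fun i => eval b (homogeneousComponent i p) with ha
  have hexp : ∀ s : ℂ, eval (s • b) p = ∑ i ∈ Finset.range (D + 1), s ^ i * a i := by
    intro s
    conv_lhs => rw [← sum_homogeneousComponent p]
    rw [map_sum]
    exact Finset.sum_congr rfl fun i _ => eval_smul_homog (homogeneousComponent_isHomogeneous i p) s b
  -- bound
  have hC : 0 ≤ C := by
    have := h 0
    have h2 : (0 : ℝ) ≤ C * (1 + ‖(0 : σ → ℂ)‖) ^ κ := (norm_nonneg _).trans this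
    simpa using h2
  obtain ⟨D', hD'⟩ : ∃ D', D = D' + 1 := ⟨D - 1, by omega⟩
  have hkey : ∀ t : ℝ, 1 ≤ t → ‖a D‖ * t ≤ C * (1 + ‖b‖) ^ κ + ∑ i ∈ Finset.range D, ‖a i‖ := by
    intro t ht
    have ht0 : 0 < t := by linarith
    have hn : ‖(t : ℂ)‖ = t := by simp [abs_of_pos ht0]
    have e1 := hexp (t : ℂ)
    rw [Finset.sum_range_succ] at e1
    have e2 : (t : ℂ) ^ D * a D = eval ((t : ℂ) • b) p - ∑ i ∈ Finset.range D, (t : ℂ) ^ i * a i := by
      rw [e1]; ring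
    have e3 : t ^ D * ‖a D‖ ≤ C * (1 + ‖(t : ℂ) • b‖) ^ κ + ∑ i ∈ Finset.range D, t ^ i * ‖a i‖ := by
      calc t ^ D * ‖a D‖ = ‖(t : ℂ) ^ D * a D‖ := by rw [norm_mul, norm_pow, hn]
        _ ≤ ‖eval ((t : ℂ) • b) p‖ + ‖∑ i ∈ Finset.range D, (t : ℂ) ^ i * a i‖ := by
            rw [e2]; exact norm_sub_le _ _
        _ ≤ C * (1 + ‖(t : ℂ) • b‖) ^ κ + ∑ i ∈ Finset.range D, t ^ i * ‖a i‖ := by
            refine add_le_add (h _) ((norm_sum_le _ _).trans (le_of_eq ?_))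
            refine Finset.sum_congr rfl fun i _ => ?_
            rw [norm_mul, norm_pow, hn]
    have e4 : (1 + ‖(t : ℂ) • b‖) ^ κ ≤ t ^ D' * (1 + ‖b‖) ^ κ := by
      have h1 : 1 + ‖(t : ℂ) • b‖ ≤ t * (1 + ‖b‖) := by
        rw [norm_smul, hn]
        nlinarith [norm_nonneg b]
      calc (1 + ‖(t : ℂ) • b‖) ^ κ ≤ (t * (1 + ‖b‖)) ^ κ := pow_le_pow_left₀ (by positivity) h1 _
        _ = t ^ κ * (1 + ‖b‖) ^ κ := mul_pow _ _ _
        _ ≤ t ^ D' * (1 + ‖b‖) ^ κ := by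
            refine mul_le_mul_of_nonneg_right (pow_le_pow_right₀ ht (by omega)) (by positivity)
    have e5 : ∑ i ∈ Finset.range D, t ^ i * ‖a i‖ ≤ t ^ D' * ∑ i ∈ Finset.range D, ‖a i‖ := by
      rw [Finset.mul_sum]
      refine Finset.sum_le_sum fun i hi => mul_le_mul_of_nonneg_right (pow_le_pow_right₀ ht ?_) (norm_nonneg _)
      have := Finset.mem_range.1 hi
      omega
    have e6 : t ^ D' * (‖a D‖ * t) ≤ t ^ D' * (C * (1 + ‖b‖) ^ κ + ∑ i ∈ Finset.range D, ‖a i‖) := by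
      calc t ^ D' * (‖a D‖ * t) = t ^ D * ‖a D‖ := by rw [hD', pow_succ]; ring
        _ ≤ C * (1 + ‖(t : ℂ) • b‖) ^ κ + ∑ i ∈ Finset.range D, t ^ i * ‖a i‖ := e3
        _ ≤ C * (t ^ D' * (1 + ‖b‖) ^ κ) + t ^ D' * ∑ i ∈ Finset.range D, ‖a i‖ := by gcongr
        _ = t ^ D' * (C * (1 + ‖b‖) ^ κ + ∑ i ∈ Finset.range D, ‖a i‖) := by ring
    exact le_of_mul_le_mul_left e6 (pow_pos ht0 _)
  have hpos : 0 < ‖a D‖ := norm_pos_iff.2 hb
  set R := C * (1 + ‖b‖) ^ κ + ∑ i ∈ Finset.range D, ‖a i‖ with hR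
  have := hkey (max 1 ((R + 1) / ‖a D‖)) (le_max_left _ _)
  have h2 : R + 1 ≤ ‖a D‖ * max 1 ((R + 1) / ‖a D‖) := by
    calc R + 1 = ‖a D‖ * ((R + 1) / ‖a D‖) := by field_simp
      _ ≤ _ := mul_le_mul_of_nonneg_left (le_max_right _ _) hpos.le
  linarith


/-- polynomial growth -/
theorem grow {σ : Type} [Fintype σ] (q : MvPolynomial σ ℂ) :
    ∃ C : ℝ, 0 ≤ C ∧ ∀ ξ : σ → ℂ, ‖eval ξ q‖ ≤ C * (1 + ‖ξ‖) ^ q.totalDegree := by
  refine ⟨∑ d ∈ q.support, ‖q.coeff d‖, Finset.sum_nonneg fun _ _ => norm_nonneg _, fun ξ => ?_⟩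
  rw [eval_eq', Finset.sum_mul]
  refine (norm_sum_le _ _).trans (Finset.sum_le_sum fun d hd => ?_)
  rw [norm_mul, norm_prod]
  refine mul_le_mul_of_nonneg_left ?_ (norm_nonneg _)
  have h1 : (1 : ℝ) ≤ 1 + ‖ξ‖ := by linarith [norm_nonneg ξ]
  calc ∏ i, ‖ξ i ^ d i‖ ≤ ∏ i, (1 + ‖ξ‖) ^ d i := by
        refine Finset.prod_le_prod (fun _ _ => norm_nonneg _) fun i _ => ?_
        rw [norm_pow]
        exact pow_le_pow_left₀ (norm_nonneg _) ((norm_le_pi_norm ξ i).trans (by linarith)) _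
    _ = (1 + ‖ξ‖) ^ ∑ i, d i := Finset.prod_pow_eq_pow_sum _ _ _
    _ ≤ (1 + ‖ξ‖) ^ q.totalDegree := by
        refine pow_le_pow_right₀ h1 ?_
        have h2 := le_totalDegree hd
        rwa [Finsupp.sum_fintype _ _ (fun _ => rfl)] at h2

/-- larger exponents -/
theorem grow_mono {σ : Type} [Fintype σ] {q : MvPolynomial σ ℂ} {C : ℝ} {k l : ℕ} (hC : 0 ≤ C) (hkl : k ≤ l)
    (h : ∀ ξ : σ → ℂ, ‖eval ξ q‖ ≤ C * (1 + ‖ξ‖) ^ k) (ξ : σ → ℂ) : ‖eval ξ q‖ ≤ C * (1 + ‖ξ‖) ^ l :=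
  (h ξ).trans (mul_le_mul_of_nonneg_left (pow_le_pow_right₀ (by linarith [norm_nonneg ξ]) hkl) hC)

/-- the roots of a monic polynomial have polynomial growth -/
theorem root_bd {σ : Type} [Fintype σ] {p : Polynomial (MvPolynomial σ ℂ)} (hp : p.Monic) :
    ∃ (C : ℝ) (k : ℕ), 0 ≤ C ∧ ∀ (ξ : σ → ℂ) (t : ℂ), (p.map (eval ξ)).IsRoot t → ‖t‖ ≤ C * (1 + ‖ξ‖) ^ k := by
  choose C hC hg using fun i : ℕ => grow (p.coeff i)
  obtain ⟨k, hk⟩ : ∃ k : ℕ, ∀ i ∈ Finset.range p.natDegree, (p.coeff i).totalDegree ≤ k :=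
    ⟨(Finset.range p.natDegree).sup fun i => (p.coeff i).totalDegree, fun i hi => Finset.le_sup (f := fun i => (p.coeff i).totalDegree) hi⟩
  have hS : 0 ≤ ∑ i ∈ Finset.range p.natDegree, C i := Finset.sum_nonneg fun i _ => hC i
  refine ⟨∑ i ∈ Finset.range p.natDegree, C i + 1, k, by linarith, fun ξ t ht => ?_⟩
  have h1 : (1 : ℝ) ≤ 1 + ‖ξ‖ := by linarith [norm_nonneg ξ]
  have hP : (p.map (eval ξ)).Monic := hp.map _
  have hb := Polynomial.IsRoot.norm_lt_cauchyBound hP.ne_zero ht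
  have h2 : (‖t‖₊ : ℝ) < ((Polynomial.cauchyBound (p.map (eval ξ)) : NNReal) : ℝ) := by exact_mod_cast hb
  rw [Polynomial.cauchyBound, hP.leadingCoeff, nnnorm_one, div_one, hp.natDegree_map, NNReal.coe_add, NNReal.coe_one, coe_nnnorm] at h2
  have h3 : ((Finset.range p.natDegree).sup fun i => ‖(p.map (eval ξ)).coeff i‖₊) ≤ Real.toNNReal ((∑ i ∈ Finset.range p.natDegree, C i) * (1 + ‖ξ‖) ^ k) := by
    refine Finset.sup_le fun i hi => ?_
    rw [← NNReal.coe_le_coe, Real.coe_toNNReal _ (by positivity), coe_nnnorm, Polynomial.coeff_map]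
    refine (grow_mono (hC i) (hk i hi) (hg i) ξ).trans (mul_le_mul_of_nonneg_right ?_ (by positivity))
    exact Finset.single_le_sum (f := C) (fun i _ => hC i) hi
  have h4 := (NNReal.coe_le_coe.2 h3)
  rw [Real.coe_toNNReal _ (by positivity)] at h4
  have h5 : (1 : ℝ) ≤ (1 + ‖ξ‖) ^ k := one_le_pow₀ h1
  nlinarith

end Pool.Agent.GLS.FdC
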