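import Pool.Agent.GLS.FdA
import Pool.Agent.GLS.FdB
import Pool.Agent.GLS.FdC

/-!
# GLS FdD: polynomials of bounded growth on an affine variety: the finite dimension

`π : ℂ[τ] → A` surjective, `A` finite over `R = ℂ[s]`.
-/

set_option autoImplicit false

open MvPolynomial

noncomputable section

namespace Pool.Agent.GLS.FdD

/-- `w` lies over `ξ` -/
def Over {τ : Type} {s : ℕ} {A : Type} [CommRing A] [Algebra (MvPolynomial (Fin s) ℂ) A] (π : MvPolynomial τ ℂ →+* A) (ξ : Fin s → ℂ) (w : τ → ℂ) : Prop :=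
  ∀ (r : MvPolynomial (Fin s) ℂ) (q : MvPolynomial τ ℂ), π q = algebraMap (MvPolynomial (Fin s) ℂ) A r → eval w q = eval ξ r

variable {τ : Type} {s : ℕ} {A : Type} [CommRing A] [IsDomain A] [Algebra (MvPolynomial (Fin s) ℂ) A] [Module.Finite (MvPolynomial (Fin s) ℂ) A]
  [FaithfulSMul (MvPolynomial (Fin s) ℂ) A] {π : MvPolynomial τ ℂ →+* A}

omit [IsDomain A] [FaithfulSMul (MvPolynomial (Fin s) ℂ) A] [Module.Finite (MvPolynomial (Fin s) ℂ) A] in
/-- the coordinates of a point over `ξ` are roots -/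
theorem over_root (hπ : Function.Surjective π) (x : A) {q : MvPolynomial τ ℂ} (hq : π q = x) {ξ : Fin s → ℂ} {w : τ → ℂ} (h : Over π ξ w) :
    ((minpoly (MvPolynomial (Fin s) ℂ) x).map (eval ξ)).IsRoot (eval w q) := by
  choose l hl using fun r : MvPolynomial (Fin s) ℂ => hπ (algebraMap (MvPolynomial (Fin s) ℂ) A r)
  have h1 : Polynomial.aeval x (minpoly (MvPolynomial (Fin s) ℂ) x) = 0 := minpoly.aeval _ _
  rw [Polynomial.aeval_eq_sum_range] at h1
  have h2 := h 0 (∑ i ∈ Finset.range ((minpoly (MvPolynomial (Fin s) ℂ) x).natDegree + 1), l ((minpoly (MvPolynomial (Fin s) ℂ) x).coeff i) * q ^ i) (by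
    rw [map_sum, map_zero, ← h1]
    refine Finset.sum_congr rfl fun i _ => ?_
    rw [map_mul, map_pow, hl, hq, Algebra.smul_def])
  rw [map_sum, map_zero] at h2
  rw [Polynomial.IsRoot.def, Polynomial.eval_map, Polynomial.eval₂_eq_sum_range]
  rw [← h2]
  refine Finset.sum_congr rfl fun i _ => ?_
  rw [map_mul, map_pow, h _ _ (hl _)]

omit [IsDomain A] [FaithfulSMul (MvPolynomial (Fin s) ℂ) A] in
/-- the points over `ξ` have polynomial growth -/
theorem over_bd [Fintype τ] (hπ : Function.Surjective π) : ∃ (C : ℝ) (k : ℕ), 0 ≤ C ∧ ∀ (ξ : Fin s → ℂ) (w : τ → ℂ), Over π ξ w → 1 + ‖w‖ ≤ C * (1 + ‖ξ‖) ^ k := by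
  have hint : Algebra.IsIntegral (MvPolynomial (Fin s) ℂ) A := inferInstance
  choose C k hC hg using fun j : τ => FdC.root_bd (minpoly.monic (hint.isIntegral (π (X j))))
  obtain ⟨K, hK⟩ : ∃ K : ℕ, ∀ j, k j ≤ K := ⟨Finset.univ.sup k, fun j => Finset.le_sup (Finset.mem_univ j)⟩
  have hS : 0 ≤ ∑ j, C j := Finset.sum_nonneg fun i _ => hC i
  refine ⟨∑ j, C j + 1, K, by linarith, fun ξ w hw => ?_⟩
  have h1 : (1 : ℝ) ≤ 1 + ‖ξ‖ := by linarith [norm_nonneg ξ]
  have h5 : (1 : ℝ) ≤ (1 + ‖ξ‖) ^ K := one_le_pow₀ h1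
  have h2 : ‖w‖ ≤ (∑ j, C j) * (1 + ‖ξ‖) ^ K := by
    refine (pi_norm_le_iff_of_nonneg (by positivity)).2 fun j => ?_
    have h3 := hg j ξ (eval w (X j)) (over_root hπ _ rfl hw)
    rw [eval_X] at h3
    refine h3.trans ?_
    have h4 : C j ≤ ∑ j, C j := Finset.single_le_sum (f := C) (fun i _ => hC i) (Finset.mem_univ j)
    exact mul_le_mul h4 (pow_le_pow_right₀ h1 (hK j)) (by positivity) hS
  nlinarith

/-- growth of the second coefficient of the minimal polynomial -/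
theorem next_bd [Finite τ] (hπ : Function.Surjective π) (hC : ∀ c, π (C c) = algebraMap (MvPolynomial (Fin s) ℂ) A (C c)) {q : MvPolynomial τ ℂ} {C : ℝ} {k : ℕ}
    (h : ∀ (ξ : Fin s → ℂ) (w : τ → ℂ), Over π ξ w → ‖eval w q‖ ≤ C * (1 + ‖ξ‖) ^ k) : (minpoly (MvPolynomial (Fin s) ℂ) (π q)).nextCoeff.totalDegree ≤ k := by
  have hint : Algebra.IsIntegral (MvPolynomial (Fin s) ℂ) A := inferInstance
  have hm := minpoly.monic (hint.isIntegral (π q))
  refine FdC.deg_le_of_growth _ (C := (minpoly (MvPolynomial (Fin s) ℂ) (π q)).natDegree * C) fun ξ => ?_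
  have hm2 : ((minpoly (MvPolynomial (Fin s) ℂ) (π q)).map (eval ξ)).Monic := hm.map _
  have h1 : ((minpoly (MvPolynomial (Fin s) ℂ) (π q)).map (eval ξ)).nextCoeff = eval ξ (minpoly (MvPolynomial (Fin s) ℂ) (π q)).nextCoeff :=
    Polynomial.nextCoeff_map_of_leadingCoeff_ne_zero _ (by rw [hm.leadingCoeff, map_one]; exact one_ne_zero)
  rw [← h1, (IsAlgClosed.splits _).nextCoeff_eq_neg_sum_roots_of_monic hm2, norm_neg]
  refine (norm_multiset_sum_le _).trans ?_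
  have h2 : ∀ y ∈ (((minpoly (MvPolynomial (Fin s) ℂ) (π q)).map (eval ξ)).roots.map fun x => ‖x‖), y ≤ C * (1 + ‖ξ‖) ^ k := by
    intro y hy
    obtain ⟨t, ht, rfl⟩ := Multiset.mem_map.1 hy
    have h3 := (Polynomial.mem_roots hm2.ne_zero).1 ht
    obtain ⟨w, hw1, hw2⟩ := exists_pt hπ (ι := MvPolynomial.C) hC (ε := eval ξ) (fun c => eval_C c) (π q) h3
    rw [← hw2 q rfl]
    exact h ξ w hw1
  refine (Multiset.sum_le_card_nsmul _ _ h2).trans ?_
  rw [Multiset.card_map, IsAlgClosed.card_roots_eq_natDegree, hm.natDegree_map, nsmul_eq_mul, mul_assoc]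

/-- the main statement -/
theorem core [Fintype τ] (hπ : Function.Surjective π) (hC : ∀ c, π (C c) = algebraMap (MvPolynomial (Fin s) ℂ) A (C c)) (κ : ℕ) :
    ∃ n : ℕ, ∀ g : Fin (n + 1) → MvPolynomial τ ℂ,
    (∀ i, ∃ C : ℝ, ∀ w : τ → ℂ, (∀ q, π q = 0 → eval w q = 0) → ‖eval w (g i)‖ ≤ C * (1 + ‖w‖) ^ κ) →
      ∃ a : Fin (n + 1) → ℂ, a ≠ 0 ∧ π (∑ i, MvPolynomial.C (a i) * g i) = 0 := by
  classical
  obtain ⟨D, e, T, hT0, hT⟩ := exists_trace (MvPolynomial (Fin s) ℂ) A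
  obtain ⟨C₁, k₁, hC₁, h₁⟩ := over_bd (s := s) hπ
  choose u hu using fun i => hπ (e i)
  obtain ⟨K, hK⟩ : ∃ K : ℕ, ∀ i, (u i).totalDegree ≤ K := ⟨Finset.univ.sup fun i => (u i).totalDegree, fun j => Finset.le_sup (f := fun i => (u i).totalDegree) (Finset.mem_univ j)⟩
  have hfin : {m : Fin s →₀ ℕ | m.degree ≤ k₁ * (κ + K)}.Finite := Finsupp.finite_of_degree_le _
  have hdeg : ∀ g : MvPolynomial τ ℂ, (∃ C : ℝ, ∀ w : τ → ℂ, (∀ q, π q = 0 → eval w q = 0) → ‖eval w g‖ ≤ C * (1 + ‖w‖) ^ κ) →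
      ∀ i, (T (π g * e i)).totalDegree ≤ k₁ * (κ + K) := by
    rintro g ⟨C₂, hC₂⟩ i
    obtain ⟨C₃, hC₃, h₃⟩ := FdC.grow (u i)
    obtain ⟨k, hk⟩ := hT (π g * e i)
    have h4 : (minpoly (MvPolynomial (Fin s) ℂ) (π (g * u i))).nextCoeff.totalDegree ≤ k₁ * (κ + K) := by
      refine next_bd hπ hC (C := |C₂| * C₃ * C₁ ^ (κ + K)) fun ξ w hw => ?_
      have h5 : ∀ q, π q = 0 → eval w q = 0 := by
        intro q hq
        have := hw 0 q (by rw [hq, map_zero])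
        rwa [map_zero] at this
      have h6 : (1 : ℝ) ≤ 1 + ‖w‖ := by linarith [norm_nonneg w]
      have h7 : ‖eval w g‖ ≤ |C₂| * (1 + ‖w‖) ^ κ := (hC₂ w h5).trans (mul_le_mul_of_nonneg_right (le_abs_self _) (by positivity))
      have h8 := FdC.grow_mono hC₃ (hK i) h₃ w
      calc ‖eval w (g * u i)‖ = ‖eval w g‖ * ‖eval w (u i)‖ := by rw [map_mul, norm_mul]
        _ ≤ (|C₂| * (1 + ‖w‖) ^ κ) * (C₃ * (1 + ‖w‖) ^ K) := mul_le_mul h7 h8 (norm_nonneg _) (by positivity)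
        _ = |C₂| * C₃ * (1 + ‖w‖) ^ (κ + K) := by rw [pow_add]; ring
        _ ≤ |C₂| * C₃ * (C₁ * (1 + ‖ξ‖) ^ k₁) ^ (κ + K) := by
            refine mul_le_mul_of_nonneg_left (pow_le_pow_left₀ (by positivity) (h₁ ξ w hw) _) (by positivity)
        _ = _ := by rw [mul_pow, ← pow_mul]; ring
    rw [map_mul, hu] at h4
    rw [hk, totalDegree_neg]
    refine (totalDegree_mul _ _).trans ?_
    have h9 : ((k : MvPolynomial (Fin s) ℂ)).totalDegree = 0 := by
      rw [← map_natCast (MvPolynomial.C (σ := Fin s) (R := ℂ)), totalDegree_C]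
    rw [h9, zero_add]
    exact h4
  let S := hfin.toFinset
  refine ⟨Fintype.card (Fin D × S), fun g hg => ?_⟩
  let L : (Fin (Fintype.card (Fin D × S) + 1) → ℂ) →ₗ[ℂ] (Fin D × S → ℂ) :=
    { toFun := fun a p => ∑ i, a i * coeff (p.2 : Fin s →₀ ℕ) (T (π (g i) * e p.1))
      map_add' := fun a b => by
        funext p
        simp only [Pi.add_apply, add_mul, Finset.sum_add_distrib]
      map_smul' := fun c a => by
        funext p
        simp only [Pi.smul_apply, smul_eq_mul, RingHom.id_apply, Finset.mul_sum, mul_assoc] }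
  have hker : LinearMap.ker L ≠ ⊥ := L.ker_ne_bot_of_finrank_lt (by simp)
  obtain ⟨a, haL, ha0⟩ := Submodule.exists_mem_ne_zero_of_ne_bot hker
  refine ⟨a, ha0, hT0 _ fun j => ?_⟩
  have hlin : T (π (∑ i, MvPolynomial.C (a i) * g i) * e j) = ∑ i, MvPolynomial.C (a i) * T (π (g i) * e j) := by
    rw [map_sum, Finset.sum_mul, map_sum]
    refine Finset.sum_congr rfl fun i _ => ?_
    have h1 : π (MvPolynomial.C (a i) * g i) * e j = (MvPolynomial.C (a i) : MvPolynomial (Fin s) ℂ) • (π (g i) * e j) := by rw [π.map_mul, hC, Algebra.smul_def, mul_assoc]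
    rw [h1, map_smul, smul_eq_mul]
  rw [hlin]
  ext m
  rw [coeff_sum, coeff_zero]
  simp only [coeff_C_mul]
  by_cases hm : m.degree ≤ k₁ * (κ + K)
  · have h1 := congrFun (LinearMap.mem_ker.1 haL) (j, ⟨m, hfin.mem_toFinset.2 hm⟩)
    exact h1
  · refine Finset.sum_eq_zero fun i _ => ?_
    rw [coeff_eq_zero_of_totalDegree_lt, mul_zero]
    refine (hdeg (g i) (hg i) j).trans_lt ?_
    rw [not_le] at hm
    refine hm.trans_le (le_of_eq ?_)
    rfl

end Pool.Agent.GLS.FdD
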