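import Pool.Agent.GLS.Defs
import Pool.Agent.GLS.FdD

/-!
# GLS Fd: polynomials of bounded growth form a finite dimensional space

PROOF.  `A = ℂ[τ] / V`, `R = ℂ[t] ⊆ A` finite (`exists_finite_inj_algHom_of_fg`), `exists_trace` (FdA): elements `e_i` of `A` and an `R`-linear `T : A → R`, `T x = - k nextCoeff (minpoly R x)`, with
`T (x e_i) = 0` for all `i` only for `x = 0`.  `T (g e_i)` is a polynomial of degree `≤ k₁ (κ + K)` (`exists_pt`: the roots of the specialised minimal polynomial are values at points of `V`), so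
`g ↦ (T (g e_i))_i` is a linear map to a finite dimensional space, injective modulo `V`.
-/

set_option autoImplicit false

open MvPolynomial Topology Filter Metric
open Pool.Agent.H13.SM (conTan cone)
open Pool.Agent.H17 (PN VanishesAt HolomorphicInto puncturedDisc)
open Pool.Agent.H17EF (projVar)
open Pool.Agent.H17GT (coordFun)
open Pool.Agent.H17LG.Variety (FunField ratio IsLogGeneralType)
open Pool.Agent.H62.FC (Homog)
open Pool.Agent.GG Pool.Agent.GA Pool.Agent.GL Pool.Agent.GQ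
open Pool.Agent.GBL (BdB)

namespace Pool.Agent.GLS

theorem fd {τ : Type} [Fintype τ] (V : Ideal (MvPolynomial τ ℂ)) [V.IsPrime] (κ : ℕ) : ∃ n : ℕ, ∀ g : Fin (n + 1) → MvPolynomial τ ℂ,
    (∀ i, ∃ C : ℝ, ∀ w : τ → ℂ, Zr V w → ‖eval w (g i)‖ ≤ C * (1 + ‖w‖) ^ κ) → ∃ a : Fin (n + 1) → ℂ, a ≠ 0 ∧ ∑ i, C (a i) * g i ∈ V := by
  obtain ⟨s, φ, hφ, hfin⟩ := exists_finite_inj_algHom_of_fg ℂ (MvPolynomial τ ℂ ⧸ V)
  algebraize [φ.toRingHom]
  have h1 : Module.Finite (MvPolynomial (Fin s) ℂ) (MvPolynomial τ ℂ ⧸ V) := hfin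
  have h2 : FaithfulSMul (MvPolynomial (Fin s) ℂ) (MvPolynomial τ ℂ ⧸ V) := (faithfulSMul_iff_algebraMap_injective _ _).2 hφ
  obtain ⟨n, hn⟩ := FdD.core (s := s) (π := Ideal.Quotient.mk V) Ideal.Quotient.mk_surjective (fun c => (φ.commutes c).symm) κ
  refine ⟨n, fun g hg => ?_⟩
  obtain ⟨a, ha, h3⟩ := hn g (fun i => by
    obtain ⟨C₂, hC₂⟩ := hg i
    refine ⟨C₂, fun w hw => hC₂ w fun q hq => hw q (Ideal.Quotient.eq_zero_iff_mem.2 hq)⟩)
  exact ⟨a, ha, Ideal.Quotient.eq_zero_iff_mem.1 h3⟩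

end Pool.Agent.GLS
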