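import Mathlib

/-!
# GLS FdA: the trace of a finite extension of an integrally closed domain
-/

set_option autoImplicit false

open Polynomial

noncomputable section

namespace Pool.Agent.GLS

variable {R A : Type} [CommRing R] [IsDomain R] [IsIntegrallyClosed R] [CharZero R] [CommRing A] [IsDomain A] [Algebra R A] [Module.Finite R A] [FaithfulSMul R A]

theorem exists_trace_aux (F L : Type) [Field F] [Algebra R F] [IsFractionRing R F] [Field L] [Algebra A L] [IsFractionRing A L] [Algebra R L] [IsScalarTower R A L]
    [Algebra F L] [IsScalarTower R F L] : ∃ (D : ℕ) (e : Fin D → A) (T : A →ₗ[R] R), (∀ x, (∀ i, T (x * e i) = 0) → x = 0) ∧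
      ∀ x, ∃ k : ℕ, T x = -((k : R) * (minpoly R x).nextCoeff) := by
  classical
  have hint : Algebra.IsIntegral R A := inferInstance
  have halg : Algebra.IsAlgebraic F L := isAlgebraic_of_isFractionRing R A F L
  have hinjF : Function.Injective (algebraMap R F) := IsFractionRing.injective R F
  have hinjL : Function.Injective (algebraMap A L) := IsFractionRing.injective A L
  have : CharZero F := charZero_of_injective_algebraMap hinjF
  obtain ⟨D, e, he⟩ := Module.Finite.exists_fin (R := R) (M := A)
  -- `L` is finite
  have hfin : FiniteDimensional F L := by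
    have h1 : FiniteDimensional F (IntermediateField.adjoin F (Set.range fun i => algebraMap A L (e i))) := by
      have : Finite (Set.range fun i => algebraMap A L (e i)) := (Set.finite_range _).to_subtype
      exact IntermediateField.finiteDimensional_adjoin fun x _ => (halg.isAlgebraic x).isIntegral
    have h2 : IntermediateField.adjoin F (Set.range fun i => algebraMap A L (e i)) = ⊤ := by
      rw [eq_top_iff]
      have h3 : ∀ a : A, algebraMap A L a ∈ IntermediateField.adjoin F (Set.range fun i => algebraMap A L (e i)) := by
        intro a
        have ha : a ∈ Submodule.span R (Set.range e) := by rw [he]; exact Submodule.mem_top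
        induction ha using Submodule.span_induction with
        | mem y hy =>
          obtain ⟨i, rfl⟩ := hy
          exact IntermediateField.subset_adjoin _ _ ⟨i, rfl⟩
        | zero => rw [map_zero]; exact zero_mem _
        | add y z _ _ hy hz => rw [map_add]; exact add_mem hy hz
        | smul r y _ hy =>
          have h4 : algebraMap A L (r • y) = algebraMap F L (algebraMap R F r) * algebraMap A L y := by
            rw [Algebra.smul_def, map_mul, ← IsScalarTower.algebraMap_apply, ← IsScalarTower.algebraMap_apply]
          rw [h4]
          exact mul_mem (IntermediateField.algebraMap_mem _ _) hy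
      intro y _
      obtain ⟨a, b, -, rfl⟩ := IsFractionRing.div_surjective (A := A) y
      exact div_mem (h3 a) (h3 b)
    rw [h2] at h1
    exact IntermediateField.topEquiv.toLinearEquiv.finiteDimensional
  have hsep : Algebra.IsSeparable F L := inferInstance
  -- the trace is in `R`
  have key : ∀ x : A, ∃ t : R, algebraMap R F t = Algebra.trace F L (algebraMap A L x) ∧ ∃ k : ℕ, t = -((k : R) * (minpoly R x).nextCoeff) := by
    intro x
    have hx : IsIntegral R x := hint.isIntegral x
    have hx' : IsIntegral R (algebraMap A L x) := hx.map (IsScalarTower.toAlgHom R A L)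
    have h1 : minpoly F (algebraMap A L x) = (minpoly R (algebraMap A L x)).map (algebraMap R F) := minpoly.isIntegrallyClosed_eq_field_fractions' F hx'
    have h2 : minpoly R (algebraMap A L x) = minpoly R x := minpoly.algebraMap_eq hinjL x
    refine ⟨_, ?_, Module.finrank (IntermediateField.adjoin F {algebraMap A L x}) L, rfl⟩
    rw [trace_eq_finrank_mul_minpoly_nextCoeff, h1, h2, Polynomial.nextCoeff_map hinjF, map_neg, map_mul, map_natCast]
    ring
  choose t ht k hk using key
  have hadd : ∀ x y, t (x + y) = t x + t y := fun x y => hinjF (by rw [map_add, ht, ht, ht, map_add, map_add])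
  have hsmul : ∀ (r : R) x, t (r • x) = r • t x := fun r x => hinjF (by
    rw [ht, smul_eq_mul, map_mul, ht, Algebra.smul_def, map_mul, ← IsScalarTower.algebraMap_apply R A L, IsScalarTower.algebraMap_apply R F L, ← Algebra.smul_def,
      map_smul, smul_eq_mul])
  refine ⟨D, e, ⟨⟨t, hadd⟩, hsmul⟩, fun x hx => ?_, fun x => ⟨k x, hk x⟩⟩
  have h1 : ∀ a : A, t (x * a) = 0 := by
    intro a
    have ha : a ∈ Submodule.span R (Set.range e) := by rw [he]; exact Submodule.mem_top
    induction ha using Submodule.span_induction with
    | mem y hy =>
      obtain ⟨i, rfl⟩ := hy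
      exact hx i
    | zero => 
      have := hsmul 0 (x * 0)
      rw [zero_smul, zero_smul] at this
      rw [mul_zero]
      exact this
    | add y z _ _ hy hz => rw [mul_add, hadd, hy, hz, add_zero]
    | smul r y _ hy => rw [mul_smul_comm, hsmul, hy, smul_zero]
  have h2 : ∀ l : L, Algebra.trace F L (algebraMap A L x * l) = 0 := by
    intro l
    obtain ⟨a, s, hs, rfl⟩ := IsFractionRing.div_surjective (A := A) l
    -- clear the denominator by a nonzero element of `R`
    have hs0 : s ≠ 0 := nonZeroDivisors.ne_zero hs
    obtain ⟨b, r, hr, h3⟩ := ((hint.isAlgebraic).isAlgebraic s).exists_smul_eq_mul a hs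
    have h4 : algebraMap A L a / algebraMap A L s = (algebraMap R F r)⁻¹ • algebraMap A L b := by
      have h5 : algebraMap A L s ≠ 0 := fun h => hs0 (hinjL (by rw [h, map_zero]))
      have h6 : algebraMap R F r ≠ 0 := fun h => hr (hinjF (by rw [h, map_zero]))
      have h7 : algebraMap F L (algebraMap R F r) ≠ 0 := by
        rw [Ne, map_eq_zero]
        exact h6
      have h8 : algebraMap F L (algebraMap R F r) * algebraMap A L a = algebraMap A L s * algebraMap A L b := by
        rw [← IsScalarTower.algebraMap_apply, IsScalarTower.algebraMap_apply R A L, ← map_mul, ← map_mul, ← Algebra.smul_def, h3]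
      rw [Algebra.smul_def, map_inv₀]
      field_simp
      rw [mul_comm]
      exact h8
    rw [h4, mul_smul_comm, map_smul, ← map_mul, ← ht, h1, map_zero, smul_zero]
  have h3 := (traceForm_nondegenerate F L).1 (algebraMap A L x) fun l => h2 l
  exact hinjL (by rw [h3, map_zero])

theorem exists_trace (R A : Type) [CommRing R] [IsDomain R] [IsIntegrallyClosed R] [CharZero R] [CommRing A] [IsDomain A] [Algebra R A] [Module.Finite R A]
    [FaithfulSMul R A] : ∃ (D : ℕ) (e : Fin D → A) (T : A →ₗ[R] R), (∀ x, (∀ i, T (x * e i) = 0) → x = 0) ∧
      ∀ x, ∃ k : ℕ, T x = -((k : R) * (minpoly R x).nextCoeff) := by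
  let : Algebra (FractionRing R) (FractionRing A) := FractionRing.liftAlgebra R (FractionRing A)
  have : IsScalarTower R (FractionRing R) (FractionRing A) := FractionRing.isScalarTower_liftAlgebra R (FractionRing A)
  exact exists_trace_aux (FractionRing R) (FractionRing A)

end Pool.Agent.GLS
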