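import Pool.Agent.GLS.Cor
import Pool.Agent.GL.Top

/-!
# GLS Fin: the hypersurface

`exists_RL_sing`: as `GL.exists_RL` (GL/Rr), for singular varieties.  `topL_sing`: as `GL.topL` (GL/Top).
-/

set_option autoImplicit false

open MvPolynomial Topology Filter Metric
open Pool.Agent.H13.SM (conTan cone)
open Pool.Agent.H17 (PN VanishesAt HolomorphicInto puncturedDisc)
open Pool.Agent.H17EF (projVar)
open Pool.Agent.H17GT (coordFun)
open Pool.Agent.H17LG.Variety (FunField ratio IsLogGeneralType)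
open Pool.Agent.H62.FC (Homog)
open Pool.Agent.GG Pool.Agent.GA Pool.Agent.GL Pool.Agent.GQ
open Pool.Agent.GBL (BdB)

namespace Pool.Agent.GLS

variable {N : ℕ} {P : Ideal (MvPolynomial (Fin (N + 1)) ℂ)} {B : Finset (Fin (N + 1))} {J : ℕ} {m : Fin J → ℕ} {θ : ∀ k, LogSec P B (m k)} {b : Fin (N + 1)}

private theorem Fin_aff [P.IsPrime] {a : Fin (N + 1)} (ha : X a ∉ P) {q : MvPolynomial (Fin (N + 1)) ℂ} (hq : q ∉ aff P a) : hmg a q ∉ P := by
  have hc : coordFun P a ≠ 0 := Pool.Agent.H17R.coordFun_ne_zero_iff.2 ha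
  intro h
  apply hq
  have h1 := (Pool.Agent.H17R.gen_eq_zero_iff hc (hmg_hom a q)).2 h
  have h2 : Pool.Agent.H17R.gen P a (hmg a q) = aeval (fun i => ratio P i a) q := by
    unfold Pool.Agent.H17R.gen hmg
    conv_rhs => rw [← sum_homogeneousComponent q]
    rw [map_sum, map_sum]
    refine Finset.sum_congr rfl fun d _ => ?_
    rw [map_mul, map_pow, aeval_X, Pool.Agent.H17R.ratio_self hc, one_pow, one_mul]
  rw [h2] at h1
  exact RingHom.mem_ker.2 h1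

theorem exists_RL_sing [P.IsPrime] (hP : Homog P) {n : ℕ} (hn : 1 ≤ n) (hdim : ∃ z : Fin n → FunField P, IsTranscendenceBasis ℂ z) (hb : b ∈ B) (hX : ∀ i ∈ B, X i ∉ P)
    (hθ : LogPolar θ) (hm : ∀ k, 1 ≤ m k) (f : LFrame θ b) (hgt : IsLogGeneralType (K := FunField P) (k := n) (BdB P B)) :
    ∃ (e : ℕ) (R : MvPolynomial (Fin (N + 1)) ℂ), R.IsHomogeneous e ∧ R ∉ P ∧
      ∀ x ∈ Uc P B b, ∀ v ∈ Tc P b x, v ≠ 0 → IsInit (gfamL f) (ePt B x v) → eval x R = 0 := by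
  classical
  have h1 : ∀ p : (Fin (N + 2) → GIx f.q J) × Fin (N + 1), ∃ (D : ℕ) (R : MvPolynomial (Fin (N + 1)) ℂ), R.IsHomogeneous D ∧ R ∉ P ∧
      ∀ x ∈ Uc P B b, ∀ v ∈ Tc P b x, Crit (gfamL f) p.1 (ePt B x v) → v p.2 ≠ 0 → eval x R = 0 := by
    rintro ⟨I, b₁⟩
    obtain ⟨q, hq, h⟩ := coreL hP hdim hb hX hθ hm f hgt I b₁
    exact ⟨q.totalDegree, hmg b q, hmg_hom b q, Fin_aff (hX b hb) hq, fun x hx v hv h1 h2 => by rw [eval_hmg_one b q hx.2.1]; exact h x hx v hv h1 h2⟩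
  choose D Rp hD hRP hRz using h1
  refine ⟨∑ p, D p, ∏ p, Rp p, IsHomogeneous.prod _ _ _ fun p _ => hD p, ?_, ?_⟩
  · intro h
    obtain ⟨p, -, hp⟩ := (Ideal.IsPrime.prod_mem_iff (p := P)).1 h
    exact hRP p hp
  · intro x hx v hv hv0 hinit
    obtain ⟨b₁, hb₁⟩ : ∃ b₁, v b₁ ≠ 0 := by
      by_contra hcon
      push Not at hcon
      exact hv0 (funext hcon)
    obtain ⟨I, hI⟩ := exists_rowL hθ f hb hx hv hv0
    obtain ⟨y, hy, hy0⟩ := hinit
    have hcr : Crit (gfamL f) I (ePt B x v) := by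
      rw [← hy0]
      refine crit_of_arc hy ?_
      rw [hy0]
      exact hI
    rw [map_prod, Finset.prod_eq_zero (Finset.mem_univ (I, b₁)) (hRz (I, b₁) x hx v hv hcr hb₁)]

/-- All closed subvarieties of `X \ D`, singular or not. -/
theorem topL_sing [P.IsPrime] (hP : Homog P) {n : ℕ} (hn : 1 ≤ n) (hdim : ∃ z : Fin n → FunField P, IsTranscendenceBasis ℂ z) (hB : B.Nonempty) (hX : ∀ i ∈ B, X i ∉ P)
    (hθ : LogPolar θ) (hm : ∀ k, 1 ≤ m k) (hgt : IsLogGeneralType (K := FunField P) (k := n) (BdB P B)) : ∃ R, ConclusionL P B R := by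
  obtain ⟨b, hb⟩ := hB
  obtain ⟨f⟩ := exists_lframe θ b
  obtain ⟨e, R, hRe, hRP, hR⟩ := exists_RL_sing hP hn hdim hb hX hθ hm f hgt
  have hD : ∀ f : ℂ → PN N, HolomorphicInto f puncturedDisc → (∀ z ∈ puncturedDisc, f z ∈ openPart P B) → (∃ z ∈ puncturedDisc, ¬ VanishesAt R (f z)) →
      ∃ g : ℂ → PN N, HolomorphicInto g (ball 0 1) ∧ ∀ z ∈ puncturedDisc, g z = f z :=
    fun _ h1 h2 h3 => disc_of_half hP hb hRe (fun _ hF => finL hP hθ hm hb f hR hF) h1 h2 h3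
  exact ⟨R, ⟨⟨e, hRe⟩, hRP⟩, hD, fun f h1 h2 h3 z => entire_of_puncturedL hP hθ hm hb hRe hD h1 h2 h3 z⟩

end Pool.Agent.GLS
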