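import Pool.Agent.GLS.Defs
import Pool.Agent.GLS.Fd
import Pool.Agent.GLS.Avd

/-!
# GLS Hnk: the Hankel determinants vanish

PROOF.  Fix `w₀`, `𝔪` = the ideal of `w₀`, `V = flat D 𝔪` (`GQ.Flat`: prime, stable; contains `𝔯`, `c - c (w₀)`, `h k - h k (w₀)`).  For `w ∈ Zr V` the orbit `Y` and the Cauchy estimate on `‖z‖ < r / 2` give
`‖eval w (D^k g)‖ ≤ k! (2 / r)^k C' (1 + ‖w‖) ^ κ'`, with `κ'` independent of `k` (`eval w (D^k g)` is the `k`-th derivative of `eval (Y z) g` at `0`).  `fd`: `∑_(j ≤ n) a_j D^j g ∈ V`, `a ≠ 0`; apply `D^i` and evaluate at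
`w₀`: the matrix `(D^(i+j) g) (w₀)` is singular.  `exists_hk_mem`: `exists_avoid` for `f_j = c * hk D j g`.
-/

set_option autoImplicit false

open MvPolynomial Topology Filter Metric
open Pool.Agent.H13.SM (conTan cone)
open Pool.Agent.H17 (PN VanishesAt HolomorphicInto puncturedDisc)
open Pool.Agent.H17EF (projVar)
open Pool.Agent.H17GT (coordFun)
open Pool.Agent.H17LG.Variety (FunField ratio IsLogGeneralType)
open Pool.Agent.H62.FC (Homog)
open Pool.Agent.GG Pool.Agent.GA Pool.Agent.GL Pool.Agent.GQ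
open Pool.Agent.GBL (BdB)

namespace Pool.Agent.GLS

variable {τ : Type} [Fintype τ]

omit [Fintype τ] in
/-- the derivative of a polynomial along an orbit -/
private theorem Hnk_deriv {D : Derivation ℂ (MvPolynomial τ ℂ) (MvPolynomial τ ℂ)} {Y : ℂ → τ → ℂ} {z : ℂ}
    (hY : HasDerivAt Y (fun s => eval (Y z) (D (X s))) z) (g : MvPolynomial τ ℂ) : HasDerivAt (fun z => eval (Y z) g) (eval (Y z) (D g)) z := by
  induction g using MvPolynomial.induction_on with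
  | C a =>
    have h1 : D (C a) = 0 := by
      rw [← algebraMap_eq]
      exact Derivation.map_algebraMap _ _
    simp only [eval_C, h1, map_zero]
    exact hasDerivAt_const z a
  | add p q hp hq =>
    simp only [map_add]
    exact hp.add hq
  | mul_X p i hp =>
    have h1 : HasDerivAt (fun z => Y z i) (eval (Y z) (D (X i))) z := hasDerivAt_pi.1 hY i
    have h2 := hp.mul h1
    have h4 : eval (Y z) (D (p * X i)) = eval (Y z) (D p) * Y z i + eval (Y z) p * eval (Y z) (D (X i)) := by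
      rw [Derivation.leibniz, smul_eq_mul, smul_eq_mul, map_add, map_mul, map_mul, eval_X]
      ring
    rw [h4]
    have h5 : (fun z => eval (Y z) (p * X i)) = (fun z => eval (Y z) p) * fun z => Y z i := by
      funext s
      simp
    rw [h5]
    exact h2

omit [Fintype τ] in
/-- the iterated derivatives along an orbit -/
private theorem Hnk_iter {D : Derivation ℂ (MvPolynomial τ ℂ) (MvPolynomial τ ℂ)} {Y : ℂ → τ → ℂ} {r : ℝ}
    (hY : ∀ z ∈ ball (0 : ℂ) r, HasDerivAt Y (fun s => eval (Y z) (D (X s))) z) (g : MvPolynomial τ ℂ) (k : ℕ) :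
    ∀ z ∈ ball (0 : ℂ) r, iteratedDeriv k (fun z => eval (Y z) g) z = eval (Y z) ((⇑D)^[k] g) := by
  induction k with
  | zero =>
    intro z _
    simp
  | succ k ih =>
    intro z hz
    have h1 : iteratedDeriv k (fun z => eval (Y z) g) =ᶠ[𝓝 z] fun z => eval (Y z) ((⇑D)^[k] g) := by
      filter_upwards [isOpen_ball.mem_nhds hz] with w hw
      exact ih w hw
    rw [iteratedDeriv_succ, h1.deriv_eq, Function.iterate_succ_apply']
    exact (Hnk_deriv (hY z hz) _).deriv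

/-- polynomials have polynomial growth -/
private theorem Hnk_growth (g : MvPolynomial τ ℂ) : ∃ (C : ℝ) (e : ℕ), 0 ≤ C ∧ ∀ y : τ → ℂ, ‖eval y g‖ ≤ C * (1 + ‖y‖) ^ e := by
  induction g using MvPolynomial.induction_on with
  | C a => exact ⟨‖a‖, 0, norm_nonneg _, fun y => by simp⟩
  | add p q hp hq =>
    obtain ⟨C₁, e₁, h1, h1'⟩ := hp
    obtain ⟨C₂, e₂, h2, h2'⟩ := hq
    refine ⟨C₁ + C₂, e₁ + e₂, by positivity, fun y => ?_⟩
    have hy : (1 : ℝ) ≤ 1 + ‖y‖ := by linarith [norm_nonneg y]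
    have h3 : (1 + ‖y‖) ^ e₁ ≤ (1 + ‖y‖) ^ (e₁ + e₂) := pow_le_pow_right₀ hy (by omega)
    have h4 : (1 + ‖y‖) ^ e₂ ≤ (1 + ‖y‖) ^ (e₁ + e₂) := pow_le_pow_right₀ hy (by omega)
    rw [map_add]
    calc ‖eval y p + eval y q‖ ≤ ‖eval y p‖ + ‖eval y q‖ := norm_add_le _ _
      _ ≤ C₁ * (1 + ‖y‖) ^ e₁ + C₂ * (1 + ‖y‖) ^ e₂ := add_le_add (h1' y) (h2' y)
      _ ≤ C₁ * (1 + ‖y‖) ^ (e₁ + e₂) + C₂ * (1 + ‖y‖) ^ (e₁ + e₂) := by gcongr
      _ = (C₁ + C₂) * (1 + ‖y‖) ^ (e₁ + e₂) := by ring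
  | mul_X p i hp =>
    obtain ⟨C₁, e₁, h1, h1'⟩ := hp
    refine ⟨C₁, e₁ + 1, h1, fun y => ?_⟩
    rw [map_mul, eval_X, norm_mul, pow_succ]
    have h2 : ‖y i‖ ≤ 1 + ‖y‖ := by linarith [norm_le_pi_norm y i]
    calc ‖eval y p‖ * ‖y i‖ ≤ C₁ * (1 + ‖y‖) ^ e₁ * (1 + ‖y‖) := mul_le_mul (h1' y) h2 (norm_nonneg _) (by positivity)
      _ = C₁ * ((1 + ‖y‖) ^ e₁ * (1 + ‖y‖)) := by ring

theorem exists_hk_eval {𝔯 : Ideal (MvPolynomial τ ℂ)} {D : Derivation ℂ (MvPolynomial τ ℂ) (MvPolynomial τ ℂ)} {c : MvPolynomial τ ℂ} {J : ℕ} {h : Fin J → MvPolynomial τ ℂ}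
    (H : Orbs 𝔯 D c h) (g : MvPolynomial τ ℂ) {w₀ : τ → ℂ} (hw : Zr 𝔯 w₀) (hc : eval w₀ c ≠ 0) : ∃ n, eval w₀ (hk D n g) = 0 := by
  classical
  obtain ⟨𝔪, h𝔪⟩ : ∃ 𝔪 : Ideal (MvPolynomial τ ℂ), 𝔪 = RingHom.ker (eval w₀) := ⟨_, rfl⟩
  have hm : ∀ p, p ∈ 𝔪 ↔ eval w₀ p = 0 := fun p => by rw [h𝔪, RingHom.mem_ker]
  have hprime : 𝔪.IsPrime := by
    rw [h𝔪]
    exact RingHom.ker_isPrime _
  have hr𝔪 : 𝔯 ≤ 𝔪 := fun p hp => (hm p).2 (hw p hp)
  have hr : 𝔯 ≤ flat D 𝔪 := le_flat hr𝔪 H.stable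
  have hcst : ∀ p : MvPolynomial τ ℂ, D p ∈ 𝔯 → p - C (eval w₀ p) ∈ flat D 𝔪 := by
    intro p hp n
    cases n with
    | zero =>
      rw [Function.iterate_zero, id_eq, hm]
      simp
    | succ n =>
      rw [Function.iterate_succ_apply]
      have h1 : D (p - C (eval w₀ p)) = D p := by
        rw [map_sub, ← algebraMap_eq, Derivation.map_algebraMap, sub_zero]
      rw [h1]
      exact hr hp n
  obtain ⟨r, K, κ, hr0, horb⟩ := H.orbit w₀ hw hc
  obtain ⟨A, e, hA, hgr⟩ := Hnk_growth g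
  have key : ∀ k : ℕ, ∃ C : ℝ, ∀ w : τ → ℂ, Zr (flat D 𝔪) w → ‖eval w ((⇑D)^[k] g)‖ ≤ C * (1 + ‖w‖) ^ (κ * e) := by
    intro k
    refine ⟨k.factorial * (A * (1 + |K|) ^ e) / (r / 2) ^ k, fun w hw' => ?_⟩
    have h1 : Zr 𝔯 w := fun p hp => hw' p (hr hp)
    have h2 : ∀ p : MvPolynomial τ ℂ, D p ∈ 𝔯 → eval w p = eval w₀ p := by
      intro p hp
      have := hw' _ (hcst p hp)
      rw [map_sub, eval_C] at this
      exact sub_eq_zero.1 this
    obtain ⟨Y, hY0, hYd, hYb⟩ := horb w h1 (h2 c H.constc) fun k => h2 _ (H.const k)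
    have hw1 : (1 : ℝ) ≤ (1 + ‖w‖) ^ κ := one_le_pow₀ (by linarith [norm_nonneg w])
    have hbd : ∀ z ∈ ball (0 : ℂ) r, ‖eval (Y z) g‖ ≤ A * (1 + |K|) ^ e * (1 + ‖w‖) ^ (κ * e) := by
      intro z hz
      have h3 : 1 + ‖Y z‖ ≤ (1 + |K|) * (1 + ‖w‖) ^ κ := by
        have h4 := hYb z hz
        have h5 : K * (1 + ‖w‖) ^ κ ≤ |K| * (1 + ‖w‖) ^ κ := mul_le_mul_of_nonneg_right (le_abs_self K) (by positivity)
        linarith
      calc ‖eval (Y z) g‖ ≤ A * (1 + ‖Y z‖) ^ e := hgr _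
        _ ≤ A * ((1 + |K|) * (1 + ‖w‖) ^ κ) ^ e := by gcongr
        _ = A * (1 + |K|) ^ e * (1 + ‖w‖) ^ (κ * e) := by rw [mul_pow, ← pow_mul, mul_assoc]
    have hd : DifferentiableOn ℂ (fun z => eval (Y z) g) (ball 0 r) := fun z hz => (Hnk_deriv (hYd z hz) g).differentiableAt.differentiableWithinAt
    have hsub : closedBall (0 : ℂ) (r / 2) ⊆ ball 0 r := closedBall_subset_ball (by linarith)
    have hdc : DiffContOnCl ℂ (fun z => eval (Y z) g) (ball 0 (r / 2)) := by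
      refine DifferentiableOn.diffContOnCl (hd.mono ?_)
      rw [closure_ball _ (by positivity)]
      exact hsub
    have h3 := Complex.norm_iteratedDeriv_le_of_forall_mem_sphere_norm_le (c := (0 : ℂ)) (R := r / 2)
      (C := A * (1 + |K|) ^ e * (1 + ‖w‖) ^ (κ * e)) k (by positivity) hdc fun z hz => hbd z (hsub (sphere_subset_closedBall hz))
    rw [Hnk_iter hYd g k 0 (mem_ball_self hr0), hY0] at h3
    refine h3.trans (le_of_eq ?_)
    ring
  obtain ⟨n, hn⟩ := fd (flat D 𝔪) (κ * e)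
  obtain ⟨a, ha, hsum⟩ := hn (fun i => (⇑D)^[(i : ℕ)] g) fun i => key i
  refine ⟨n, ?_⟩
  rw [hk, RingHom.map_det]
  refine Matrix.exists_mulVec_eq_zero_iff.1 ⟨a, ha, ?_⟩
  funext i
  have h1 : (⇑D)^[(i : ℕ)] (∑ j, C (a j) * (⇑D)^[(j : ℕ)] g) ∈ 𝔪 := hsum i
  rw [hm] at h1
  have h2 : ∀ (k : ℕ) (x : ℂ) (p : MvPolynomial τ ℂ), (⇑D)^[k] (C x * p) = C x * (⇑D)^[k] p := by
    intro k x p
    induction k with
    | zero => rfl
    | succ k ih =>
      rw [Function.iterate_succ_apply', ih, Function.iterate_succ_apply', ← smul_eq_C_mul, Derivation.map_smul, smul_eq_C_mul]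
  have h3 : (⇑D)^[(i : ℕ)] (∑ j, C (a j) * (⇑D)^[(j : ℕ)] g) = ∑ j, C (a j) * (⇑D)^[(i : ℕ) + j] g := by
    have h4 : ∀ (k : ℕ) (s : Finset (Fin (n + 1))) (F : Fin (n + 1) → MvPolynomial τ ℂ), (⇑D)^[k] (∑ j ∈ s, F j) = ∑ j ∈ s, (⇑D)^[k] (F j) := by
      intro k s F
      induction k with
      | zero => rfl
      | succ k ih =>
        rw [Function.iterate_succ_apply', ih, map_sum]
        exact Finset.sum_congr rfl fun j _ => by rw [Function.iterate_succ_apply']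
    rw [h4]
    refine Finset.sum_congr rfl fun j _ => ?_
    rw [h2, Function.iterate_add_apply]
  rw [h3, map_sum] at h1
  rw [Pi.zero_apply, ← h1]
  simp only [Matrix.mulVec, dotProduct]
  refine Finset.sum_congr rfl fun j _ => ?_
  rw [map_mul, eval_C, mul_comm]
  rfl

theorem exists_hk_mem {𝔯 : Ideal (MvPolynomial τ ℂ)} [𝔯.IsPrime] {D : Derivation ℂ (MvPolynomial τ ℂ) (MvPolynomial τ ℂ)} {c : MvPolynomial τ ℂ} {J : ℕ} {h : Fin J → MvPolynomial τ ℂ}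
    (H : Orbs 𝔯 D c h) (hc : c ∉ 𝔯) (g : MvPolynomial τ ℂ) : ∃ n, hk D n g ∈ 𝔯 := by
  by_contra hcon
  push Not at hcon
  obtain ⟨w, hw, hne⟩ := exists_avoid 𝔯 (fun j => c * hk D j g) fun j hj => by
    rcases Ideal.IsPrime.mem_or_mem inferInstance hj with h1 | h1
    · exact hc h1
    · exact hcon j h1
  have hcw : eval w c ≠ 0 := by
    intro h0
    apply hne 0
    rw [map_mul, h0, zero_mul]
  obtain ⟨n, hn⟩ := exists_hk_eval H g hw hcw
  apply hne n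
  rw [map_mul, hn, mul_zero]

end Pool.Agent.GLS
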