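import Pool.Agent.GTL.Top
import Pool.Agent.GQ.Fin
import Pool.Agent.GLS.Fin

/-!
# GLS Top: all closed subvarieties of the complement of hyperplane sections, if the logarithmic symmetric differentials of some degree generate

`resL`: the restriction of a logarithmic symmetric differential to a closed subvariety.  `conclusion_closed`: the conclusion for all closed subvarieties of `U = X \ D`, singularities
allowed (`GQ` if `B` is empty, `GLS` if not).
-/

set_option autoImplicit false

open MvPolynomial Topology Filter Metric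
open Pool.Agent.H13.SM (conTan cone)
open Pool.Agent.H17 (PN VanishesAt HolomorphicInto puncturedDisc)
open Pool.Agent.H17EF (projVar)
open Pool.Agent.H17LG.Variety (FunField IsLogGeneralType)
open Pool.Agent.H62.FC (Homog)
open Pool.Agent.H62.SA (locVar OnBd)
open Pool.Agent.GL (LogSec LogPolar ConclusionL openPart SncX toSym polar_toSym act)
open Pool.Agent.GBL (LogGenerated logPolar_of_generated)
open Pool.Agent.GTL (Conclusion GeneralType bdy conclusion_of onBd_empty onBd_bdy')

namespace Pool.Agent.GLS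

variable {N : ℕ} {P Q : Ideal (MvPolynomial (Fin (N + 1)) ℂ)} {B : Finset (Fin (N + 1))} {J m : ℕ}

/-- the restriction of a logarithmic symmetric differential to a closed subvariety -/
def resL (h : P ≤ Q) (t : LogSec P B m) : LogSec Q B m where
  toFun := t.toFun
  regular i := by
    obtain ⟨e, A, hA⟩ := t.regular i
    exact ⟨e, A, fun x hx ξ hξ => hA x ⟨hx.1, fun R hR => hx.2 R (h hR)⟩ ξ fun R hR => hξ R (h hR)⟩
  add_smul x hx ξ hξ a := t.add_smul x ⟨hx.1, fun R hR => hx.2 R (h hR)⟩ ξ (fun R hR => hξ R (h hR)) a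
  smul x hx ξ hξ a := t.smul x ⟨hx.1, fun R hR => hx.2 R (h hR)⟩ ξ (fun R hR => hξ R (h hR)) a
  scale x hx ξ hξ c hc := t.scale x ⟨hx.1, fun R hR => hx.2 R (h hR)⟩ ξ (fun R hR => hξ R (h hR)) c hc

theorem generated_resL (h : P ≤ Q) {θ : Fin J → LogSec P B m} (hθ : LogGenerated θ) : LogGenerated fun k => resL h (θ k) := by
  intro x hx G hG hinv
  obtain ⟨c, hc⟩ := hθ x ⟨hx.1, fun R hR => hx.2 R (h hR)⟩ G hG hinv
  exact ⟨c, fun ξ hξ => hc ξ fun R hR => hξ R (h hR)⟩

/-- the form `R` for a projective variety, singularities allowed -/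
theorem exists_conclusionL_empty [P.IsPrime] (hP : Homog P) (hm : 1 ≤ m) {θ : Fin J → LogSec P ∅ m} (hθ : LogGenerated θ) {n : ℕ}
    (hdim : ∃ z : Fin (n + 1) → FunField P, IsTranscendenceBasis ℂ z) (hgt : GeneralType P (bdy ∅) (n + 1)) : ∃ R, ConclusionL P ∅ R := by
  have hpol : Pool.Agent.GG.Polar fun k => toSym (θ k) := polar_toSym (m := fun _ => m) (logPolar_of_generated hm hθ)
  unfold GeneralType at hgt
  rw [onBd_empty] at hgt
  obtain ⟨R, e, hR, hRP, -, hRz⟩ := Pool.Agent.GQ.exists_R_sing (m := fun _ => m) hP _ hpol (fun _ => hm) hdim hgt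
  refine ⟨R, ⟨⟨e, hR⟩, hRP⟩, ?_, ?_⟩
  · intro f hf hX hne
    exact Pool.Agent.GA.main_punct hP hpol (fun _ => hm) hR hRz hf (fun z hz => (hX z hz).1) hne
  · intro f hf hX hne
    exact Pool.Agent.GA.main_entire hP hpol (fun _ => hm) hR hRz hf (fun z => (hX z).1) hne

/-- **The conclusion** for the complement of the hyperplane sections in the variety of `P`, singularities allowed. -/
theorem conclusion_sing [P.IsPrime] (hP : Homog P) {n : ℕ} (hdim : ∃ z : Fin (n + 1) → FunField P, IsTranscendenceBasis ℂ z) (hB : ∀ i ∈ B, X i ∉ P)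
    (hm : 1 ≤ m) {θ : Fin J → LogSec P B m} (hθ : LogGenerated θ) : Conclusion P (bdy B) (n + 1) := by
  rcases B.eq_empty_or_nonempty with rfl | hne
  · exact conclusion_of hP hm hθ hB hdim (exists_conclusionL_empty hP hm hθ hdim)
  · refine conclusion_of hP hm hθ hB hdim fun hgt => ?_
    unfold GeneralType at hgt
    rw [onBd_bdy'] at hgt
    exact topL_sing hP (Nat.succ_le_succ (Nat.zero_le n)) hdim hne hB (m := fun _ => m) (logPolar_of_generated hm hθ) (fun _ => hm) hgt

/-- **The conclusion** for the closed subvarieties of the complement of the hyperplane sections. -/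
theorem conclusion_closed (hm : 1 ≤ m) {θ : Fin J → LogSec P B m} (hθ : LogGenerated θ) (Q : Ideal (MvPolynomial (Fin (N + 1)) ℂ)) [Q.IsPrime] (hQ : Homog Q) (hPQ : P ≤ Q)
    (hB : ∀ i ∈ B, X i ∉ Q) {n : ℕ} (hdim : ∃ z : Fin (n + 1) → FunField Q, IsTranscendenceBasis ℂ z) : Conclusion Q (bdy B) (n + 1) :=
  conclusion_sing hQ hdim hB hm (generated_resL hPQ hθ)

end Pool.Agent.GLS
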